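import Pool.Agent.U233.PW.HAsm

/-!
# Powers are generated by the transcendental part and by Hodge classes
-/

set_option autoImplicit false
set_option linter.unusedSectionVars false

open CategoryTheory AlgebraicGeometry TensorProduct

universe u

namespace Pool.Agent.U233.HG

open Module Pool.Agent.N179 Pool.Agent.N179.DB Pool.Agent.N179.GR.S
open Pool.Agent.N179.DB.S (Cx tens gal bc cx_ind tens_add tens_smul smul_tens exists_tens
  inF_tens bx_apply bc_tens bc_gal gal_add gal_tens galB gal_mul gr' gr'_eq gal_gr' mem_of_base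
  span_alg algS algT base_mul)
open Pool.Agent.H914 Pool.Agent.H914.VarClass Pool.Agent.H914.VarClass.Obj
  Pool.Agent.H914.WeilCohomology Pool.Agent.TH125.Gal Pool.Agent.W552 Pool.Agent.H281R3.HT
open Pool.Agent.U233.HG.St (Theory coho prd)

noncomputable section

variable {k : Type u} [Field k] {𝒱 : VarClass k} {ops : CycleOps 𝒱} (T : Theory ops)

theorem hodge_map {X Y : 𝒱.Obj} (f : X ⟶ Y) {c : T.W.H Y} (hc : c ∈ hodgeCl T Y) :
    T.W.map f c ∈ hodgeCl T X := by
  obtain ⟨j, h1, h2⟩ := hc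
  refine ⟨j, T.W.map_mem f h1, ?_⟩
  have h3 := T.map X Y f j j _ h2
  have h4 : bc (T.W.map f).toLinearMap (tens 1 c : Cx T.W.K (T.W.H Y)) =
    tens 1 (T.W.map f c) := bc_tens _ _ _
  rw [h4] at h3
  exact h3

theorem hom_map {V : HS T.W.K} {X Y : 𝒱.Obj} (f : X ⟶ Y) {c : T.W.H Y} (hc : c ∈ homCl T V Y) :
    T.W.map f c ∈ homCl T V X := by
  obtain ⟨g, v, hg, rfl⟩ := hc
  refine ⟨(T.W.map f).toLinearMap ∘ₗ g, v, fun p q x hx => ?_, rfl⟩
  have h1 : bc ((T.W.map f).toLinearMap ∘ₗ g) x = bc (T.W.map f).toLinearMap (bc g x) := by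
    refine cx_ind (p := fun x => bc ((T.W.map f).toLinearMap ∘ₗ g) x =
      bc (T.W.map f).toLinearMap (bc g x)) ?_ (fun r c => rfl) (fun a b ha hb => ?_) x
    · rw [map_zero, map_zero, map_zero]
    · rw [map_add, map_add, map_add, ha, hb]
  have h2 := T.map X Y f p q _ (hg p q x hx)
  exact (congrArg (fun y => y ∈ T.pq X p q) h1).mpr h2

theorem gens_prod {V : HS T.W.K} {X Y : 𝒱.Obj} (hX : Gens T V X) (hY : Gens T V Y) :
    Gens T V (X.prod Y) := by
  have key : ∀ {A : 𝒱.Obj} (f : X.prod Y ⟶ A), Gens T V A → ∀ a,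
      T.W.map f a ∈ Algebra.adjoin T.W.K (hodgeCl T (X.prod Y) ∪ homCl T V (X.prod Y)) := by
    intro A f hA a
    have h1 : a ∈ Algebra.adjoin T.W.K (hodgeCl T A ∪ homCl T V A) := by
      rw [show Algebra.adjoin T.W.K (hodgeCl T A ∪ homCl T V A) = ⊤ from hA]
      exact Algebra.mem_top
    have h2 : Algebra.adjoin T.W.K (hodgeCl T A ∪ homCl T V A) ≤
        (Algebra.adjoin T.W.K (hodgeCl T (X.prod Y) ∪ homCl T V (X.prod Y))).comap
          (T.W.map f) := by
      refine Algebra.adjoin_le ?_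
      rintro x (hx | hx)
      · exact Algebra.subset_adjoin (Or.inl (hodge_map T f hx))
      · exact Algebra.subset_adjoin (Or.inr (hom_map T f hx))
    exact h2 h1
  unfold Gens
  rw [eq_top_iff]
  intro x _
  obtain ⟨t, rfl⟩ := (T.W.kunneth X Y).2 x
  induction t using TensorProduct.induction_on with
  | zero =>
    rw [map_zero]
    exact Subalgebra.zero_mem _
  | tmul a b =>
    have h1 : kunnethMap (T.W.map (fst X Y)) (T.W.map (snd X Y)) (a ⊗ₜ[T.W.K] b) =
      T.W.map (fst X Y) a * T.W.map (snd X Y) b := rfl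
    rw [h1]
    exact Subalgebra.mul_mem _ (key (fst X Y) hX a) (key (snd X Y) hY b)
  | add a b ha hb =>
    rw [map_add]
    exact Subalgebra.add_mem _ (ha trivial) (hb trivial)

theorem gens_model {V : HS T.W.K} {X : 𝒱.Obj} (h : ModelH T V X) : Gens T V X := by
  obtain ⟨f, h1, -, -, h4⟩ := h
  unfold Gens
  rw [eq_top_iff]
  intro x _
  obtain ⟨c, hc, v, rfl⟩ := h4 x
  refine Subalgebra.add_mem _ ?_ (Algebra.subset_adjoin (Or.inr ⟨f, v, h1, rfl⟩))
  have h5 : algSpan T.W X ≤ Subalgebra.toSubmodule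
      (Algebra.adjoin T.W.K (hodgeCl T X ∪ homCl T V X)) := by
    refine Submodule.span_le.2 ?_
    intro c hc
    obtain ⟨j, z, hz, rfl⟩ := Set.mem_iUnion.1 hc
    exact Algebra.subset_adjoin (Or.inl ⟨j, T.W.cl_mem hz, T.cyc X j _ ⟨z, hz, rfl⟩⟩)
  exact h5 hc

theorem gens_pow {V : HS T.W.K} {X : 𝒱.Obj} (h : ModelH T V X) : ∀ n, Gens T V (pw X n)
  | 0 => gens_model T h
  | n + 1 => gens_prod T (gens_model T h) (gens_pow h n)

theorem gens_of_pow {V : HS T.W.K} {P : 𝒱.Obj} (h : PowH T V P) : Gens T V P := by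
  obtain ⟨X, n, h1, -, rfl⟩ := h
  exact gens_pow T h1 n

end

end Pool.Agent.U233.HG
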