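import Pool.Agent.U233.PW.DefP
import Pool.Agent.U233.PW.HGens
import Pool.Agent.U233.HG.StFin
import Pool.Agent.U233.FG.ConvF

/-!
# The proofs of the statements
-/

set_option autoImplicit false
set_option linter.unusedSectionVars false

open CategoryTheory AlgebraicGeometry TensorProduct

universe u

namespace Pool.Agent.U233.HG.St

open Module Pool.Agent.N179 Pool.Agent.N179.DB
open Pool.Agent.N179.DB.S (Cx tens gal bc cx_ind)
open Pool.Agent.H914 Pool.Agent.H914.VarClass Pool.Agent.H914.VarClass.Obj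
  Pool.Agent.H914.WeilCohomology Pool.Agent.U233.PW

section HS

variable {K : Type} [Field K] [Algebra K ℂ]

theorem dimC (M : HS K) : finrank ℂ (Cx K (toHG M).V) = M.dim := Module.finrank_baseChange

/-- the Hodge numbers -/
theorem num_eq (M : HS K) (p q : ℤ) : finrank ℂ ((toHG M).pq p q) = M.hodgeNum p q := by
  have h1 : (Submodule.span ℂ {x | M.has p q x} : Submodule ℂ (Cx K (toHG M).V)) =
      (toHG M).pq p q := Submodule.span_eq ((toHG M).pq p q)
  unfold HS.hodgeNum Set.finrank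
  exact (congrArg (fun A : Submodule ℂ (Cx K (toHG M).V) => finrank ℂ A) h1).symm

theorem num_ne {M : HS K} {p q : ℤ} {x : Cx K (toHG M).V} (hx : x ∈ (toHG M).pq p q)
    (hx0 : x ≠ 0) : M.hodgeNum p q ≠ 0 := by
  rw [← num_eq]
  have h3 : FiniteDimensional ℂ ((toHG M).pq p q) :=
    @FiniteDimensional.finiteDimensional_submodule ℂ (Cx K (toHG M).V) _ _ _ (toHG M).fdC _
  have h4 : Nontrivial ((toHG M).pq p q) :=
    ⟨⟨⟨x, hx⟩, 0, fun h5 => hx0 (congrArg Subtype.val h5)⟩⟩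
  exact (Module.finrank_pos).ne'

theorem exists_num {M : HS K} {p q : ℤ} (h : M.hodgeNum p q ≠ 0) :
    ∃ x : Cx K (toHG M).V, x ∈ (toHG M).pq p q ∧ x ≠ 0 := by
  rw [← num_eq] at h
  refine Submodule.exists_mem_ne_zero_of_ne_bot fun h0 => h ?_
  rw [h0, finrank_bot]

theorem fullX_of {M : HS K} {d : ℕ} {ψ : Form M} (h : HasFull d ψ) :
    FullX (toHG M) d (show M.V →ₗ[K] M.V →ₗ[K] K from ψ) where
  pos := by exact_mod_cast h.pos
  lev := lvl_of h.level
  sim := by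
    obtain ⟨w, hw⟩ := h.pure
    exact ⟨w, fun k => hw _ _ _ (e_mem (toHG M) k) (e_ne (toHG M) k), (isPol_of h.pol).orth,
      pol_nd (isPol_of h.pol)⟩
  pol := ⟨_, isPol_of h.pol⟩
  full f hf hX := by
    refine h.full f (fun p q x hx => ?_) hX
    have h1 : ∀ (p q : ℤ) (x : Cx K (OprV K M.V)), x ∈ opTypes M p q ↔ x ∈ oprPQ M p q :=
      fun p q x => by rw [opTypes_eq]
    exact (h1 p q _).2 (hf p q x ((h1 p q x).1 hx))
  ext := by
    obtain ⟨p, q, hpq, hn⟩ := h.extreme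
    obtain ⟨x, hx, hx0⟩ := exists_num hn
    have h2 : x ∈ DG (toHG M) (RingEquiv.refl ℂ) d := by
      rw [← hpq]
      exact pq_le_DG (toHG M) p q hx
    have h3 : FiniteDimensional ℂ (DG (toHG M) (RingEquiv.refl ℂ) d) :=
      @FiniteDimensional.finiteDimensional_submodule ℂ (Cx K (toHG M).V) _ _ _ (toHG M).fdC _
    have h4 : Nontrivial (DG (toHG M) (RingEquiv.refl ℂ) d) :=
      ⟨⟨⟨x, h2⟩, 0, fun h5 => hx0 (congrArg Subtype.val h5)⟩⟩
    exact Module.finrank_pos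
  top := by
    by_cases hd : Odd d
    · refine Or.inl ⟨by exact_mod_cast hd, fun x y => ?_⟩
      have h3 := h.symm x y
      rw [hd.neg_one_pow, neg_one_mul] at h3
      exact h3
    · refine Or.inr ⟨fun x y => ?_, ?_⟩
      · have h3 := h.symm x y
        rw [(Nat.not_odd_iff_even.1 hd).neg_one_pow, one_mul] at h3
        exact h3
      · rw [dimC]
        exact h.large.resolve_left hd

theorem odd_alt {M : HS K} {d : ℕ} {ψ : Form M} (h : HasFull d ψ) (hd : Odd (d : ℤ))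
    (x y : M.V) : (show M.V →ₗ[K] M.V →ₗ[K] K from ψ) x y =
      -(show M.V →ₗ[K] M.V →ₗ[K] K from ψ) y x := by
  have h3 := h.symm x y
  have hd' : Odd d := by exact_mod_cast hd
  rw [hd'.neg_one_pow, neg_one_mul] at h3
  exact h3

theorem ext_le {M : HS K} {d : ℕ} (h : ∃ p q : ℤ, p - q = d ∧ 5 ≤ M.hodgeNum p q) :
    5 ≤ finrank ℂ (DG (toHG M) (RingEquiv.refl ℂ) d) := by
  obtain ⟨p, q, hpq, h1⟩ := h
  rw [← num_eq] at h1
  refine h1.trans ?_
  rw [← hpq]
  exact @Submodule.finrank_mono ℂ (Cx K (toHG M).V) _ _ _ _ _ _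
    (@FiniteDimensional.finiteDimensional_submodule ℂ (Cx K (toHG M).V) _ _ _ (toHG M).fdC _)
    (pq_le_DG (toHG M) p q)

theorem spl_of_big [CharZero K] {M U : HS K} {d : ℕ} {ψ : Form M} (h : HasFull d ψ)
    (hp : HG.Polarisable (toHG U)) (hw : Wt (toHG U)) (hl : Lvl (toHG U) d)
    (ha : HG.Apart (toHG M) (toHG U)) (hb : Big d M U.dim) :
    GR.Spl (GR.full (Cx K (toHG M).V) (hM (toHG M))) {GR.full (Cx K (toHG U).V) (hM (toHG U))} := by
  have hX := fullX_of h
  rcases hb with hb | hb | ⟨h1, h2⟩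
  · exact spl_level (hX.toL (Or.inl (by exact_mod_cast hb)) (odd_alt h)) hp hw hl ha
  · exact spl_level (hX.toL (Or.inr (ext_le hb)) (odd_alt h)) hp hw hl ha
  · exact spl_small hX (by rw [dimC]; exact h1) (by rw [dimC, dimC]; exact h2) hp hw hl ha

theorem spl_of_level [CharZero K] {M U : HS K} {d : ℕ} {ψ : Form M} (h : HasFull d ψ)
    (hU : ByLevel d M U) :
    GR.Spl (GR.full (Cx K (toHG M).V) (hM (toHG M))) {GR.full (Cx K (toHG U).V) (hM (toHG U))} :=
  spl_of_big h ((pol_iff _).1 hU.polarisable) (wt_of hU.weights) (lvl_of hU.level)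
    (apart_of hU.apart) hU.big

theorem spl_of_size [CharZero K] {M U : HS K} {d : ℕ} {ψ : Form M} (h : HasFull d ψ)
    (hU : BySize M U) :
    GR.Spl (GR.full (Cx K (toHG M).V) (hM (toHG M))) {GR.full (Cx K (toHG U).V) (hM (toHG U))} :=
  spl_lt (fullX_of h) (by rw [dimC]; exact hU.large) (by rw [dimC, dimC]; exact hU.dim)
    ((pol_iff _).1 hU.polarisable)

theorem spl_of_num [CharZero K] {M U : HS K} {d : ℕ} {ψ : Form M} (h : HasFull d ψ)
    (hU : ByNumbers M U) :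
    GR.Spl (GR.full (Cx K (toHG M).V) (hM (toHG M))) {GR.full (Cx K (toHG U).V) (hM (toHG U))} := by
  refine spl_num (fullX_of h) (by rw [dimC]; exact hU.large) (by rw [dimC, dimC]; exact hU.dim)
    ((pol_iff _).1 hU.polarisable) fun a b => ?_
  obtain ⟨p, q, hpq⟩ := hU.numbers a b
  refine ⟨p, q, ?_⟩
  rw [num_eq, num_eq]
  exact hpq

end HS

open Pool.Agent.N179.GR.S Pool.Agent.W552 Pool.Agent.H281R3.HT Pool.Agent.TH125.Gal

variable {k : Type u} [Field k] {𝒱 : VarClass k} {ops : CycleOps 𝒱} (T : Theory ops)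

theorem pow_eq (X : 𝒱.Obj) : ∀ n, pow X n = pw X n
  | 0 => rfl
  | n + 1 => congrArg (X.prod ·) (pow_eq X n)

theorem span_cl (X : 𝒱.Obj) :
    (Submodule.span T.W.K {c | ∃ j, c ∈ (coho T X).cl j} : Submodule T.W.K (T.W.H X)) ≤
      algSpan T.W X := by
  refine Submodule.span_mono ?_
  rintro c ⟨j, hc⟩
  exact Set.mem_iUnion.2 ⟨j, hc⟩

theorem powH_of {V : HS T.W.K} {P : 𝒱.Obj} (h : IsPower T V P) : PowH T (toHG V) P := by
  obtain ⟨X, n, ⟨f, h1, h2, h3, h4⟩, hn, rfl⟩ := h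
  refine ⟨X, n, ⟨f, h1, fun v hv => h2 (hv.trans (map_zero
    (show V.V →ₗ[T.W.K] T.W.H X from f)).symm), fun v => h3 _ ⟨v, rfl⟩, fun x => ?_⟩, hn,
    pow_eq X n⟩
  obtain ⟨c, hc, _, ⟨v, rfl⟩, hv⟩ := h4 x
  exact ⟨c, span_cl T X hc, v, hv⟩

theorem of_powH {V : HS T.W.K} {P : 𝒱.Obj} (h : PowH T (toHG V) P) : IsPower T V P := by
  obtain ⟨X, n, ⟨f, h1, h2, h3, h4⟩, hn, rfl⟩ := h
  refine ⟨X, n, ⟨f, h1, (injective_iff_map_eq_zero (show V.V →ₗ[T.W.K] T.W.H X from f)).2 h2,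
    ?_, fun x => ?_⟩, hn, (pow_eq X n).symm⟩
  · rintro _ ⟨v, rfl⟩
    exact h3 v
  · obtain ⟨c, hc, v, hv⟩ := h4 x
    refine ⟨c, ?_, _, ⟨v, rfl⟩, hv⟩
    have h5 : algSpan T.W X ≤ (Submodule.span T.W.K {c | ∃ j, c ∈ (coho T X).cl j} :
        Submodule T.W.K (T.W.H X)) := by
      refine Submodule.span_mono ?_
      intro c hc
      exact Set.mem_iUnion.1 hc
    exact h5 hc

section fam

variable {ι : Type} {V : ι → HS T.W.K} {d : ι → ℕ} (hV : FullFam V d)

include hV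

theorem fullsS (i : ι) : Fulls T (toHG (V i)) := by
  have hK := charK T.W.K
  exact fullsX T (V := fun i => toHG (V i)) (d := fun i => (d i : ℤ)) (fun i => by
    obtain ⟨ψ, hψ⟩ := hV.full i
    exact ⟨_, fullX_of hψ⟩) i

theorem famS : FG.Fam (fun i => rep (toHG (V i))) := by
  have hK := charK T.W.K
  exact famX T (V := fun i => toHG (V i)) (d := fun i => (d i : ℤ)) (fun i => by
    obtain ⟨ψ, hψ⟩ := hV.full i
    exact ⟨_, fullX_of hψ⟩) fun i j hij => apart_of (hV.apart i j hij)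

theorem typeS {i : ι} {P : 𝒱.Obj} (h : (coho T P).Gens (V i) ∨ IsPower T (V i) P)
    (hp : (coho T P).str.Polarisable) : TypeG T (toHG (V i)) P := by
  have hK := charK T.W.K
  obtain ⟨ψ, hψ⟩ := hV.full i
  refine typeX T (fullX_of hψ) ?_ ((pol_iff _).1 hp)
  rcases h with h | h
  · exact h.gen
  · exact gens_of_pow T (powH_of T h)

theorem facS {i : ι} {P : 𝒱.Obj} (h : (coho T P).Gens (V i) ∨ IsPower T (V i) P) :
    Fac T (toHG (V i)) P := by
  rcases h with h | h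
  · exact Or.inl (typeS T hV (Or.inl h) h.polarisable)
  · exact Or.inr (powH_of T h)

theorem decS {m : ℕ} {U : Fin m → HG.HS T.W.K} {Z : 𝒱.Obj} (hZ : GeneratedBy T U Z)
    {E : Set ι} (hE : ∀ i, i ∉ E → ∀ a,
      i ∉ Exc (fun i => rep (toHG (V i))) (rep (U a))) : Decomposes T V E Z where
  kunneth i P L hL hp := by
    have h1 := hL.1
    rw [List.map_cons, List.nodup_cons] at h1
    have h2 := hL.2 (i, P) List.mem_cons_self
    refine kun_list T (V := fun i => toHG (V i)) (fullsS T hV) (famS T hV) hZ L (i := i)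
      (typeS T hV h2.2 hp) (fun x hx => ?_) (hE i h2.1)
    exact ⟨facS T hV (hL.2 x (List.mem_cons_of_mem _ hx)).2,
      fun h => h1.1 (List.mem_map.2 ⟨x, hx, h⟩)⟩
  conjecture L hL := by
    have h1 := hc_list T (V := fun i => toHG (V i)) (fullsS T hV) (famS T hV) hZ L hL.1
      fun x hx => ⟨facS T hV (hL.2 x hx).2, hE _ (hL.2 x hx).1⟩
    refine h1.trans (and_congr Iff.rfl ?_)
    exact forall₂_congr fun x _ => or_congr ⟨of_powH T, powH_of T⟩ Iff.rfl

end fam

theorem cls_of (h : Classical T) : Cls T where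
  pol X := (pol_iff _).1 (h.polarisable X)
  eff X p q x hx hx0 := h.effective X p q (num_ne (M := (coho T X).str) hx hx0)
  div X c hc := h.divisors X hc
  cur X n c hn hc := h.curves X n hn hc

/-- **The theorem.** -/
theorem full_dec {ι : Type} {V : ι → HS T.W.K} {d : ι → ℕ} (hV : FullFam V d) :
    ∃ E : HS T.W.K → Set ι, FullDec T V d E ∧ (Classical T → Threefolds T V d E) := by
  have hK := charK T.W.K
  have hE := splitFam T (famS T hV)
  have hvar : ∀ Z : 𝒱.Obj, Decomposes T V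
      (Exc (fun i => rep (toHG (V i))) (rep (toHG (coho T Z).str))) Z := fun Z =>
    decS T hV (gen_self T Z) fun i hi _ => hi
  refine ⟨fun U => Exc (fun i => rep (toHG (V i))) (rep (toHG U)),
    ⟨⟨⟨fun U => hE.finite _, fun U => hE.card (toHG U), fun i => hE.self i⟩,
      fun U i hU hi => ?_, fun U i hU hi => ?_, fun U i hU hi => ?_⟩, fun Z => ⟨⟨hE.finite _, hE.variety Z⟩, hvar Z⟩,
      fun m U Z hZ => ?_⟩, fun hC => ⟨fun Z i hd hb hi => ?_, fun Z L hZ hL hx => ?_⟩⟩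
  · obtain ⟨ψ, hψ⟩ := hV.full i
    exact hi (spl_of_level hψ hU)
  · obtain ⟨ψ, hψ⟩ := hV.full i
    exact hi (spl_of_size hψ hU)
  · obtain ⟨ψ, hψ⟩ := hV.full i
    exact hi (spl_of_num hψ hU)
  · refine decS T hV (gen_of T hZ) fun i hi a ha => hi ?_
    exact Set.mem_iUnion.2 ⟨a, ha⟩
  · obtain ⟨ψ, hψ⟩ := hV.full i
    have hl := lvl_coh T (cls_of T hC) Z
    have hd' : (Z.dim : ℤ) < (d i : ℤ) := by exact_mod_cast hd
    refine hi (spl_of_big hψ ((cls_of T hC).pol Z) (wt_coh T Z) (fun k => ?_) ?_ hb)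
    · exact ⟨(hl k).1.trans hd'.le, (neg_le_neg hd'.le).trans (hl k).2⟩
    · exact apart_lvl (fullX_of hψ) hl (by exact_mod_cast hd)
  · refine ((hvar Z).conjecture L ⟨hL, fun x h => ⟨(hx x h).1, Or.inr (hx x h).2⟩⟩).2
      ⟨low T (cls_of T hC) hZ, fun x h => Or.inl (hx x h).2⟩

end Pool.Agent.U233.HG.St
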