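import Pool.Agent.U233.PW.HTr

/-!
# Towers with powers: the Hodge conjecture
-/

set_option autoImplicit false
set_option linter.unusedSectionVars false

open CategoryTheory AlgebraicGeometry TensorProduct

universe u

namespace Pool.Agent.U233.HG

open Module Pool.Agent.N179 Pool.Agent.N179.DB Pool.Agent.N179.GR.S
open Pool.Agent.N179.GR (Der InDer SemiS algR full Spl slice_mem inv_le tate_step tate_snd)
open Pool.Agent.N179.DB.S (Cx tens gal bc cx_ind tens_add tens_smul smul_tens exists_tens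
  inF_tens bx_apply bc_tens bc_gal gal_add gal_tens galB gal_mul gr' gr'_eq gal_gr' mem_of_base
  span_alg algS algT base_mul)
open Pool.Agent.H914 Pool.Agent.H914.VarClass Pool.Agent.H914.VarClass.Obj
  Pool.Agent.H914.WeilCohomology Pool.Agent.TH125.Gal Pool.Agent.W552 Pool.Agent.H281R3.HT
open Pool.Agent.U233.HG.St (Theory coho prd)
open Pool.Agent.Y133.Per (Base baseMap baseTr tm base_ind baseTr_tm)
open Pool.Agent.U233.TF (TransF kill_pow tate_pow)
open Pool.Agent.U233.PW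

variable {k : Type u} [Field k] {𝒱 : VarClass k} {ops : CycleOps 𝒱} (T : Theory ops)

noncomputable section

/-- the representation on the cohomology -/
def AR {W : WeilCohomology.{u, 0} ops} {Γ : Type} [Group Γ] (P : GVar W Γ) : GR.PRep W.K Γ :=
  full (W.H P.X) (algR P.act)

instance algCl : IsAlgClosed (baseW T.W ℂ).K := inferInstanceAs (IsAlgClosed ℂ)

/-- the power of a variety -/
def pw (X : 𝒱.Obj) : ℕ → 𝒱.Obj
  | 0 => X
  | n + 1 => X.prod (pw X n)

theorem nest_eq (ops : CycleOps 𝒱) (X : 𝒱.Obj) : ∀ n, (nest ops n fun _ => ⟨X, 0⟩).X = pw X n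
  | 0 => rfl
  | n + 1 => congrArg (X.prod ·) (nest_eq ops X n)

theorem intw_comp {X Y Z : 𝒱.Obj} (f : X ⟶ Y) (h : Y ⟶ Z) (g : HGp T.W.K)
    (a : (baseW T.W ℂ).H Z) :
    (var T X).act g ((baseW T.W ℂ).map f ((baseW T.W ℂ).map h a)) =
      (baseW T.W ℂ).map f ((baseW T.W ℂ).map h ((var T Z).act g a)) := by
  rw [← (baseW T.W ℂ).map_comp, ← (baseW T.W ℂ).map_comp]
  exact intertwines T (f ≫ h) g a

theorem isPow (X : 𝒱.Obj) (n : ℕ) (Z : 𝒱.Obj) : IsPowAct (baseW T.W ℂ) ⟨X, 0⟩ n Z (var T X).act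
    (var T Z).act (var T ((nest ops n fun _ => (⟨X, 0⟩ : Polarized 𝒱)).X.prod Z)).act := fun g =>
  ⟨fun p a => intw_comp T (fst (nest ops n fun _ => (⟨X, 0⟩ : Polarized 𝒱)).X Z)
      (prj ops n (fun _ => (⟨X, 0⟩ : Polarized 𝒱)) p) g a,
    fun b => intertwines T (snd (nest ops n fun _ => (⟨X, 0⟩ : Polarized 𝒱)).X Z) g b⟩

theorem trans_dim {W : WeilCohomology.{u, 0} ops} {Γ : Type} [Group Γ] {χ : Γ →* W.Kˣ} {X : 𝒱.Obj}
    {ρ : Γ →* (W.H X ≃ₐ[W.K] W.H X)} {R : GRep W.K Γ} {f : R.V →ₗ[W.K] W.H X}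
    (hf : TransF χ X ρ R.hom f) : dim R = Module.finrank W.K (transcendental W X) := by
  let e : R.V ≃ₗ[W.K] transcendental W X :=
    LinearEquiv.ofBijective (f.codRestrict (transcendental W X)
      fun v => (hf.range _).2 ⟨v, rfl⟩)
      ⟨fun a b hab => hf.inj (congrArg Subtype.val hab), fun t => by
        obtain ⟨v, hv⟩ := (hf.range _).1 t.2
        exact ⟨v, Subtype.ext hv.symm⟩⟩
  exact LinearEquiv.finrank_eq e

/-- a power of a variety with transcendental part `V` -/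
def PowH (V : HS T.W.K) (P : 𝒱.Obj) : Prop :=
  ∃ (X : 𝒱.Obj) (n : ℕ), ModelH T V X ∧ (Even X.dim → n + 1 < V.dim) ∧ P = pw X n

section tow

variable {ι : Type} {V : ι → HS T.W.K}

/-- the representation has full monodromy -/
def Fulls (V : HS T.W.K) : Prop :=
  ∃ (ψ : V.V →ₗ[T.W.K] V.V →ₗ[T.W.K] T.W.K) (μ : HGp T.W.K →* (baseW T.W ℂ).Kˣ),
    FullN (repW T V).hom (formW T V ψ) μ

/-- the factors of both kinds -/
def Fac (V : HS T.W.K) (P : 𝒱.Obj) : Prop := TypeG T V P ∨ PowH T V P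

theorem kill_fac {V : HS T.W.K} (hV : Fulls T V) {P Y : 𝒱.Obj} (hP : Fac T V P)
    {D : Der (baseW T.W ℂ).K (HGp T.W.K)} (hD : InDer 1 D) (h1 : D.Θ (fl (repW T V)) = 0)
    (h2 : D.Θ (AR (var T Y)) = 0) :
    D.Θ (AR (var T (P.prod Y))) = 0 := by
  rcases hP with hP | ⟨X, n, hX, -, rfl⟩
  · exact GR.Θ_prod (intertwines T (fst P Y)) (intertwines T (snd P Y))
      ((gen_of hP.1.1).kill hD fun _ => h1) h2
  · obtain ⟨ψ, μ, hψ⟩ := hV
    obtain ⟨f, hf⟩ := model_trans T hX hψ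
    have h3 := kill_pow (isPow T X n Y) (TransF.kill (P := ⟨X, 0⟩) hf hD h1) h2
    have h4 : ∀ P : 𝒱.Obj, (nest ops n fun _ => (⟨X, 0⟩ : Polarized 𝒱)).X = P →
        D.Θ (AR (var T (P.prod Y))) = 0 := by
      rintro P rfl
      exact h3
    exact h4 _ (nest_eq ops X n)

theorem kill_list (hV : ∀ i, Fulls T (V i)) {m : ℕ} {U : Fin m → HS T.W.K} {Z : 𝒱.Obj}
    (hZ : GeneratedBy T U Z) {D : Der (baseW T.W ℂ).K (HGp T.W.K)} (hD : InDer 1 D)
    (h0 : ∀ a, D.Θ (fl (repW T (U a))) = 0) : ∀ L : List (ι × 𝒱.Obj),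
    (∀ x ∈ L, Fac T (V x.1) x.2 ∧ D.Θ (fl (repW T (V x.1))) = 0) →
    D.Θ (AR (var T (prd L Z))) = 0
  | [], _ => (gen_of (gen_var T hZ)).kill hD h0
  | (i, P) :: L, h => kill_fac T (hV i) (h (i, P) List.mem_cons_self).1 hD
      (h (i, P) List.mem_cons_self).2
      (kill_list hV hZ hD h0 L fun x hx => h x (List.mem_cons_of_mem _ hx))

theorem spl_list (hV : ∀ i, Fulls T (V i)) (hF : FG.Fam (fun i => repW T (V i))) {m : ℕ}
    {U : Fin m → HS T.W.K} {Z : 𝒱.Obj} (hZ : GeneratedBy T U Z) (L : List (ι × 𝒱.Obj)) {i : ι}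
    (hL : ∀ x ∈ L, Fac T (V x.1) x.2 ∧ x.1 ≠ i)
    (hi : ∀ a, i ∉ Exc (fun i => repW T (V i)) (repW T (U a))) :
    Spl (fl (repW T (V i)))
      {AR (var T (prd L Z))} := by
  classical
  have h1 : Spl (fl (repW T (V i))) (⋃ a ∈ (Finset.univ : Finset (Fin m)), {fl (repW T (U a))}) :=
    Spl.iUnion Finset.univ (fun a => {fl (repW T (U a))}) fun a _ => by
      by_contra h
      exact hi a h
  have h2 : Spl (fl (repW T (V i))) (⋃ j ∈ (L.map Prod.fst).toFinset, {fl (repW T (V j))}) :=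
    Spl.iUnion _ (fun j => {fl (repW T (V j))}) fun j hj => by
      obtain ⟨x, hx, rfl⟩ := List.mem_map.1 (List.mem_toFinset.1 hj)
      exact hF.pair i x.1 (hL x hx).2.symm
  refine (h1.union h2).detect1 fun D hD h0 N hN => ?_
  rw [Set.mem_singleton_iff.1 hN]
  refine kill_list T hV hZ hD (fun a => h0 _ (Or.inl ?_)) L fun x hx =>
    ⟨(hL x hx).1, h0 _ (Or.inr ?_)⟩
  · exact Set.mem_iUnion₂.2 ⟨a, Finset.mem_univ a, rfl⟩
  · exact Set.mem_iUnion₂.2 ⟨x.1, List.mem_toFinset.2 (List.mem_map.2 ⟨x, hx, rfl⟩), rfl⟩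

/-- **The Hodge conjecture for products with powers.** -/
theorem hc_list (hV : ∀ i, Fulls T (V i)) (hF : FG.Fam (fun i => repW T (V i))) {m : ℕ}
    {U : Fin m → HS T.W.K} {Z : 𝒱.Obj} (hZ : GeneratedBy T U Z) : ∀ L : List (ι × 𝒱.Obj),
    (L.map Prod.fst).Nodup → (∀ x ∈ L, Fac T (V x.1) x.2 ∧
      ∀ a, x.1 ∉ Exc (fun i => repW T (V i)) (repW T (U a))) →
    (HodgeConjecture T (prd L Z) ↔ HodgeConjecture T Z ∧
      ∀ x ∈ L, PowH T (V x.1) x.2 ∨ HodgeConjecture T x.2)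
  | [], _, _ => ⟨fun h => ⟨h, by simp⟩, fun h => h.1⟩
  | (i, P) :: L, hnd, hL => by
    have hcl : IsAlgClosed (baseW T.W ℂ).K := inferInstanceAs (IsAlgClosed ℂ)
    rw [List.map_cons, List.nodup_cons] at hnd
    have ih := hc_list hV hF hZ L hnd.2 fun x hx => hL x (List.mem_cons_of_mem _ hx)
    obtain ⟨hP, hi⟩ := hL (i, P) List.mem_cons_self
    have hspl := spl_list T hV hF hZ L (i := i) (fun x hx =>
      ⟨(hL x (List.mem_cons_of_mem _ hx)).1, fun h => hnd.1 (List.mem_map.2 ⟨x, hx, h⟩)⟩) hi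
    change HodgeConjecture T (P.prod (prd L Z)) ↔ _
    constructor
    · intro h
      have h0 := (tate_iff T (P.prod (prd L Z))).2 h
      have h1 : TateConjecture (ch T) (var T (prd L Z)) :=
        tate_snd (intertwines T (snd P (prd L Z))) (point_of T P) h0
      have h2 : TateConjecture (ch T) (var T P) :=
        tate_fst (intertwines T (fst P (prd L Z))) (point_of T (prd L Z)) h0
      obtain ⟨h3, h4⟩ := ih.1 ((tate_iff T _).1 h1)
      refine ⟨h3, fun x hx => ?_⟩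
      rcases List.mem_cons.1 hx with rfl | hx
      · exact Or.inr ((tate_iff T _).1 h2)
      · exact h4 x hx
    · rintro ⟨h3, h4⟩
      have h1 : HodgeConjecture T (prd L Z) :=
        ih.2 ⟨h3, fun x hx => h4 x (List.mem_cons_of_mem _ hx)⟩
      have hpow : PowH T (V i) P → HodgeConjecture T (P.prod (prd L Z)) := by
        rintro ⟨X, n, hX, hn, rfl⟩
        obtain ⟨ψ, μ, hψ⟩ := hV i
        obtain ⟨f, hf⟩ := model_trans T hX hψ
        have h5 := tate_pow (P := ⟨X, 0⟩) hf (isPow T X n (prd L Z))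
          (allSkewN (P := ⟨X, 0⟩) hf hψ hspl) (fun he => ?_) ((tate_iff T _).2 h1)
        · have h6 : ∀ P : 𝒱.Obj, (nest ops n fun _ => (⟨X, 0⟩ : Polarized 𝒱)).X = P →
              HodgeConjecture T (P.prod (prd L Z)) := by
            rintro P rfl
            exact (tate_iff T _).1 h5
          exact h6 _ (nest_eq ops X n)
        · have h6 := hn he
          have h7 : (V i).dim = Module.finrank (baseW T.W ℂ).K
              (transcendental (baseW T.W ℂ) X) := by
            rw [← dim_coh T (V i)]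
            exact trans_dim hf
          rw [h7] at h6
          exact h6
      rcases h4 (i, P) List.mem_cons_self with hpw | hHC
      · exact hpow hpw
      · rcases hP with hP | hP
        · refine (tate_iff T _).1 ?_
          obtain ⟨k, hk⟩ := slice_mem (intertwines T (fst P (prd L Z)))
            (intertwines T (snd P (prd L Z))) (gen_of hP.1.1) hspl
          rintro j z hzj ⟨Δ, hΔ, hz⟩
          refine tate_step (intertwines T (fst P (prd L Z))) (intertwines T (snd P (prd L Z)))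
            ((tate_iff T _).2 hHC) ((tate_iff T _).2 h1) hzj hΔ hz fun ψ' => ?_
          have h5 : GR.ctr2 ψ' z ∈ Submodule.span (baseW T.W ℂ).K
              {y | (AR (var T P)).Eig y} :=
            inv_le (semiS_coh hP.1.2) k (hk z ⟨Δ, hΔ, fun g hg => ⟨_, hz g hg⟩⟩ ψ')
          exact (Submodule.span_le.2 fun y hy => hP.2 y hy) h5
        · exact hpow hP

/-- **The Künneth formula for Hodge classes.** -/
theorem kun_list (hV : ∀ i, Fulls T (V i)) (hF : FG.Fam (fun i => repW T (V i))) {m : ℕ}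
    {U : Fin m → HS T.W.K} {Z : 𝒱.Obj} (hZ : GeneratedBy T U Z) (L : List (ι × 𝒱.Obj))
    {i : ι} {P : 𝒱.Obj} (hP : TypeG T (V i) P)
    (hL : ∀ x ∈ L, Fac T (V x.1) x.2 ∧ x.1 ≠ i)
    (hi : ∀ a, i ∉ Exc (fun i => repW T (V i)) (repW T (U a))) : HodgeKunneth T P (prd L Z) := by
  have hcl : IsAlgClosed (baseW T.W ℂ).K := inferInstanceAs (IsAlgClosed ℂ)
  refine kunneth_of T hP.2 fun z hz => ?_
  have hspl := spl_list T hV hF hZ L hL hi
  obtain ⟨k, hk⟩ := slice_mem (intertwines T (fst P (prd L Z)))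
    (intertwines T (snd P (prd L Z))) (gen_of hP.1.1) hspl
  have h5 := GR.semi_step (intertwines T (fst P (prd L Z))) (intertwines T (snd P (prd L Z))) hz
    fun ψ' => inv_le (semiS_coh hP.1.2) k (hk z hz ψ')
  refine Submodule.span_mono ?_ h5
  rintro x ⟨u, v, hu, hv, rfl⟩
  exact ⟨u, hu, v, hv, rfl⟩

end tow

end

end Pool.Agent.U233.HG
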