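import Pool.Agent.U233.PW.FullN

/-!
# Varieties whose cohomology is the sum of algebraic classes and a representation with full monodromy
-/

set_option autoImplicit false
set_option linter.unusedSectionVars false

open CategoryTheory AlgebraicGeometry Finset

universe u

namespace Pool.Agent.U233.PW

open Module Pool.Agent.N179.GR Pool.Agent.U233.FG Pool.Agent.U233.TF
open Pool.Agent.H914 Pool.Agent.H914.VarClass Pool.Agent.H914.VarClass.Obj
  Pool.Agent.H914.WeilCohomology Pool.Agent.H281R3.HT Pool.Agent.W552 Pool.Agent.TH125.Gal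

noncomputable section

variable {k : Type u} [Field k] {𝒱 : VarClass k} {ops : CycleOps 𝒱}
  {W : WeilCohomology.{u, 0} ops} {Γ : Type} [Group Γ]
  {X : 𝒱.Obj} {χ : Γ →* W.Kˣ} {ρ : Γ →* (W.H X ≃ₐ[W.K] W.H X)}
  [IsAlgClosed W.K]
  {V : Type} [AddCommGroup V] [Module W.K V] [FiniteDimensional W.K V]
  {r : Γ →* Module.End W.K V} {f : V →ₗ[W.K] W.H X}
  {ψ : V →ₗ[W.K] V →ₗ[W.K] W.K} {μ : Γ →* W.Kˣ}

/-- the image is orthogonal to the algebraic classes -/
theorem orth_alg (hG : IsGalois W χ X ρ) (hV : FullN r ψ μ)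
    (hf : ∀ g v, f (r g v) = ρ g (f v)) {c : W.H X} (hc : c ∈ algSpan W X) (v : V) :
    bil W X (f v) c = 0 := by
  let l : V →ₗ[W.K] W.K := ((bil W X).flip c) ∘ₗ f
  have hl : ∀ v, l v = bil W X (f v) c := fun v => rfl
  have h1 : ∀ Y ∈ TF.skew ψ, ∀ v, l (Y v) = 0 := by
    intro Y hY v
    rw [← hV.core_eq] at hY
    obtain ⟨D, hD, rfl⟩ := mem_core.1 hY 1
    have h3 : f (D.Θ (full V r) v) = D.Θ (full _ (algR ρ)) (f v) :=
      D.lin (full V r) (full _ (algR ρ)) f ⟨⊤, inferInstance, fun g _ v => hf g v⟩ v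
    have h4 := bil_skew (P := ⟨X, 0⟩) hG hD (f v) c
    have h5 : D.Θ (full _ (algR ρ)) c = 0 := kill_alg (P := ⟨X, 0⟩) hG hD hc
    have h6 : bil W X (f v) (0 : W.H X) = 0 := map_zero _
    rw [hl, h3]
    have h7 : bil W X (D.Θ (full _ (algR ρ)) (f v)) c + bil W X (f v)
      (D.Θ (full _ (algR ρ)) c) = 0 := h4
    have h8 : bil W X (f v) (D.Θ (full _ (algR ρ)) c) = 0 := by
      rw [h5]
      exact h6
    rw [h8, add_zero] at h7
    exact h7
  have h2 := hV.irrV (A := LinearMap.ker l) fun Y hY a _ => LinearMap.mem_ker.2 (h1 Y hY a)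
  rcases h2 with h2 | h2
  · exfalso
    obtain ⟨Y, hY, Z, hZ, hYZ⟩ := hV.exists_two
    have h3 : Y = 0 := by
      refine LinearMap.ext fun v => ?_
      have h4 : Y v ∈ LinearMap.ker l := LinearMap.mem_ker.2 (h1 Y hY v)
      rw [h2] at h4
      exact (Submodule.mem_bot _).1 h4
    exact one_ne_zero (hYZ 1 0 (by rw [h3]; module)).1
  · have h3 : v ∈ LinearMap.ker l := h2 ▸ Submodule.mem_top
    exact LinearMap.mem_ker.1 h3

/-- **The transcendental part.** -/
theorem transF_mk (hG : IsGalois W χ X ρ) (hV : FullN r ψ μ)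
    (hf : ∀ g v, f (r g v) = ρ g (f v)) (hinj : Function.Injective f)
    (hgr : ∀ v, f v ∈ W.gr X X.dim) (hsum : ∀ x, ∃ c ∈ algSpan W X, ∃ v, x = c + f v) :
    TransF χ X ρ r f := by
  have h1 : ∀ {c}, c ∈ algSpan W X → ∀ v, bil W X (f v) c = 0 := fun hc v => orth_alg hG hV hf hc v
  have h2 : ∀ {c}, c ∈ algSpan W X → ∀ v, bil W X c (f v) = 0 := fun hc v => by
    rw [bil_apply, alg_comm hc, ← bil_apply]
    exact h1 hc v
  have htr : ∀ x, x ∈ transcendental W X ↔ ∃ v, x = f v := by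
    intro x
    constructor
    · intro hx
      obtain ⟨c, hc, v, rfl⟩ := hsum x
      have h3 : c = 0 := by
        apply W.nondeg
        intro b
        obtain ⟨c', hc', v', rfl⟩ := hsum b
        rw [← bil_apply, map_add, h2 hc, add_zero]
        have h4 := mem_trans'.1 hx c' hc'
        rw [map_add, LinearMap.add_apply, h1 hc', add_zero] at h4
        exact h4
      exact ⟨v, by rw [h3, zero_add]⟩
    · rintro ⟨v, rfl⟩
      exact mem_trans'.2 fun c hc => h1 hc v
  refine ⟨hG, ?_, fun x hx => ?_, hf, hinj, htr⟩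
  · intro j hj z hz hdeg
    apply W.nondeg
    intro b
    obtain ⟨c', hc', v', rfl⟩ := hsum b
    have hzc : W.cl X z ∈ algSpan W X := alg_mem (j := j) ⟨z, hz, rfl⟩
    rw [← bil_apply, map_add, h2 hzc, add_zero]
    induction hc' using Submodule.span_induction with
    | mem c hc =>
      obtain ⟨i, w, hw, rfl⟩ := Set.mem_iUnion.1 hc
      rw [bil_apply]
      by_cases hi : i = X.dim - j
      · subst hi
        have h5 := hdeg w hw
        rw [← W.cl_mul]
        have h6 : X.IsCyc X.dim (ops.mul z w) := by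
          have h7 := ops.mul_mem hz hw
          rwa [show j + (X.dim - j) = X.dim by omega] at h7
        rw [W.tr_cl h6, h5, Rat.cast_zero]
      · exact W.tr_eq_zero (W.mul_mem (W.cl_mem hz) (W.cl_mem hw)) (by omega)
    | zero => exact map_zero _
    | add x y _ _ hx hy => rw [map_add, hx, hy, add_zero]
    | smul q x _ hx => rw [map_smul, hx, smul_zero]
  · obtain ⟨v, rfl⟩ := (htr x).1 hx
    exact hgr v

end

end Pool.Agent.U233.PW
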