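import Pool.Agent.U233.PW.Wt

/-!
# The number of the weights
-/

set_option autoImplicit false
set_option linter.unusedSectionVars false

namespace Pool.Agent.U233.PW

noncomputable section

variable {n : ℕ}

/-- the set of the weights is closed under the moves -/
structure Mv (W : (Fin n → ℤ) → Prop) : Prop where
  par : ∀ w, W w → ∀ i j, i ≠ j → Even (w i + w j)
  move : ∀ w, W w → ∀ i j, i ≠ j → ∀ s t : Bool, 0 < sg s * w i + sg t * w j →
    W fun l => w l - 2 * (sg s * dl l i + sg t * dl l j)

/-- two new coordinates -/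
def upd (c : Fin n → ℤ) (i j : Fin n) (a b : ℤ) : Fin n → ℤ :=
  fun l => if l = i then a else if l = j then b else c l

theorem upd_i (c : Fin n → ℤ) (i j : Fin n) (a b : ℤ) : upd c i j a b i = a := if_pos rfl

theorem upd_j {c : Fin n → ℤ} {i j : Fin n} (hij : i ≠ j) (a b : ℤ) : upd c i j a b j = b := by
  rw [upd, if_neg hij.symm, if_pos rfl]

theorem upd_o {c : Fin n → ℤ} {i j l : Fin n} (hi : l ≠ i) (hj : l ≠ j) (a b : ℤ) :
    upd c i j a b l = c l := by
  rw [upd, if_neg hi, if_neg hj]

theorem sum_upd (c : Fin n → ℤ) {i j : Fin n} (hij : i ≠ j) (a b : ℤ) (G : Fin n → ℤ → ℤ) :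
    ∑ l, G l (upd c i j a b l) = ∑ l, G l (c l) + (G i a - G i (c i)) + (G j b - G j (c j)) := by
  have h1 : ∑ l, G l (upd c i j a b l) - ∑ l, G l (c l) =
      ∑ l ∈ ({i, j} : Finset (Fin n)), (G l (upd c i j a b l) - G l (c l)) := by
    rw [← Finset.sum_sub_distrib]
    symm
    refine Finset.sum_subset (Finset.subset_univ _) fun l _ hl => ?_
    rw [Finset.mem_insert, Finset.mem_singleton, not_or] at hl
    rw [upd_o hl.1 hl.2, sub_self]
  rw [Finset.sum_pair hij, upd_i, upd_j hij] at h1
  linarith

theorem sgn_ex {x : ℤ} (hx : x ≠ 0) : ∃ s : Bool, sg s * x = |x| ∧ |x - sg s| = |x| - 1 := by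
  rcases lt_or_gt_of_ne hx with h | h
  · refine ⟨false, ?_, ?_⟩
    · rw [abs_of_neg h, sg]
      simp
    · rw [abs_of_neg h, sg]
      simp only [Bool.false_eq_true, if_false]
      rw [abs_of_nonpos (by omega)]
      ring
  · refine ⟨true, ?_, ?_⟩
    · rw [abs_of_pos h, sg]
      simp
    · rw [abs_of_pos h, sg]
      simp only [if_true]
      rw [abs_of_nonneg (by omega)]

theorem sg_sq (s : Bool) : sg s ^ 2 = 1 := by cases s <;> rfl

/-- closed under the moves for the halves -/
def M1 (W : (Fin n → ℤ) → Prop) : Prop := ∀ c, W c → ∀ i j, i ≠ j → ∀ s t : Bool,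
  0 < sg s * c i + sg t * c j → W (upd c i j (c i - sg s) (c j - sg t))

theorem Mv.half {W : (Fin n → ℤ) → Prop} (h : Mv W) : M1 fun c => W fun l => 2 * c l := by
  intro c hc i j hij s t hpos
  have h1 := h.move _ hc i j hij s t (by
    have h2 : sg s * (2 * c i) + sg t * (2 * c j) = 2 * (sg s * c i + sg t * c j) := by ring
    rw [h2]
    omega)
  have h2 : (fun l => 2 * c l - 2 * (sg s * dl l i + sg t * dl l j)) =
      fun l => 2 * upd c i j (c i - sg s) (c j - sg t) l := by
    funext l
    by_cases hi : l = i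
    · subst hi
      rw [upd_i, dl, if_pos rfl, dl, if_neg hij]
      ring
    · by_cases hj : l = j
      · subst hj
        rw [upd_j hij, dl, if_neg hi, dl, if_pos rfl]
        ring
      · rw [upd_o hi hj, dl, if_neg hi, dl, if_neg hj]
        ring
  rw [h2] at h1
  exact h1

section even

variable {W : (Fin n → ℤ) → Prop}

/-- the reduction -/
theorem red1 (hn : 5 ≤ n) (hm : M1 W) : ∀ (N : ℕ) (c : Fin n → ℤ), W c → ∑ l, c l ^ 2 ≤ N →
    2 ≤ ∑ l, |c l| → ∃ c', W c' ∧ (∀ l, |c' l| ≤ 1) ∧ (∑ l, |c' l| = 2 ∨ ∑ l, |c' l| = 3) := by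
  intro N
  induction N with
  | zero =>
    intro c _ h1 h2
    exfalso
    have h3 : ∑ l, |c l| ≤ ∑ l, c l ^ 2 := Finset.sum_le_sum fun l _ => by
      rw [← sq_abs]
      have h4 := abs_nonneg (c l)
      nlinarith [Int.le_self_sq |c l|]
    push_cast at h1
    omega
  | succ N ih =>
    intro c hc h1 h2
    push_cast at h1
    -- reduction of two coordinates
    have hred : ∀ i j, i ≠ j → c i ≠ 0 → c j ≠ 0 → 4 ≤ ∑ l, |c l| → ∃ c', W c' ∧
        (∀ l, |c' l| ≤ 1) ∧ (∑ l, |c' l| = 2 ∨ ∑ l, |c' l| = 3) := by
      intro i j hij hi hj h4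
      obtain ⟨s, hs1, hs2⟩ := sgn_ex hi
      obtain ⟨t, ht1, ht2⟩ := sgn_ex hj
      have hi' := abs_pos.2 hi
      have hj' := abs_pos.2 hj
      refine ih _ (hm c hc i j hij s t (by omega)) ?_ ?_
      · rw [sum_upd c hij _ _ fun _ x => x ^ 2]
        have e1 : (c i - sg s) ^ 2 = c i ^ 2 - 2 * |c i| + 1 := by
          rw [← hs1]
          linear_combination sg_sq s
        have e2 : (c j - sg t) ^ 2 = c j ^ 2 - 2 * |c j| + 1 := by
          rw [← ht1]
          linear_combination sg_sq t
        rw [e1, e2]
        omega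
      · rw [sum_upd c hij _ _ fun _ x => |x|, hs2, ht2]
        omega
    by_cases hbig : ∃ i, 2 ≤ |c i|
    · obtain ⟨i, hi⟩ := hbig
      have hi0 : c i ≠ 0 := by
        intro h0
        rw [h0, abs_zero] at hi
        omega
      by_cases hz : ∃ j, c j = 0
      · obtain ⟨j, hj⟩ := hz
        have hij : i ≠ j := by
          rintro rfl
          exact hi0 hj
        obtain ⟨s, hs1, hs2⟩ := sgn_ex hi0
        refine ih _ (hm c hc i j hij s true (by rw [hj, mul_zero]; omega)) ?_ ?_
        · rw [sum_upd c hij _ _ fun _ x => x ^ 2]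
          have e1 : (c i - sg s) ^ 2 = c i ^ 2 - 2 * |c i| + 1 := by
            rw [← hs1]
            linear_combination sg_sq s
          have e2 : (c j - sg true) ^ 2 = 1 := by
            rw [hj, sg]
            norm_num
          rw [e1, e2, hj]
          omega
        · rw [sum_upd c hij _ _ fun _ x => |x|, hs2]
          have e2 : |c j - sg true| = 1 := by
            rw [hj, sg]
            norm_num
          rw [e2, hj, abs_zero]
          omega
      · push Not at hz
        obtain ⟨j, hij⟩ : ∃ j, i ≠ j := by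
          by_cases h0 : i = ⟨0, by omega⟩
          · refine ⟨⟨1, by omega⟩, fun h => ?_⟩
            rw [h0] at h
            exact absurd (congrArg Fin.val h) (by norm_num)
          · exact ⟨_, h0⟩
        refine hred i j hij hi0 (hz j) ?_
        have h5 : ∑ _l : Fin n, (1 : ℤ) ≤ ∑ l, |c l| := Finset.sum_le_sum fun l _ =>
          Int.one_le_abs (hz l)
        rw [Finset.sum_const, Finset.card_univ, Fintype.card_fin, nsmul_eq_mul, mul_one] at h5
        omega
    · push Not at hbig
      by_cases h3 : ∑ l, |c l| ≤ 3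
      · exact ⟨c, hc, fun l => by have := hbig l; omega, by omega⟩
      · push Not at h3
        obtain ⟨i, hi⟩ : ∃ i, c i ≠ 0 := by
          by_contra hall
          push Not at hall
          have h4 : ∑ l, |c l| = 0 := Finset.sum_eq_zero fun l _ => by rw [hall l, abs_zero]
          omega
        obtain ⟨j, hj, hij⟩ : ∃ j, c j ≠ 0 ∧ i ≠ j := by
          by_contra hall
          push Not at hall
          have h4 : ∑ l, |c l| = |c i| := by
            refine Finset.sum_eq_single i (fun l _ hl => ?_) fun h => absurd (Finset.mem_univ i) h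
            by_contra h0
            exact hl (hall l (fun h => h0 (by rw [h, abs_zero]))).symm
          have := hbig i
          omega
        exact hred i j hij hi hj (by omega)

/-- the vectors with `k` coordinates `±1` -/
def R (k : ℤ) (c : Fin n → ℤ) : Prop := (∀ l, |c l| ≤ 1) ∧ ∑ l, |c l| = k

theorem one_of {x : ℤ} (h : |x| ≤ 1) (h0 : x ≠ 0) : |x| = 1 := by
  have := Int.one_le_abs h0
  omega

theorem sg_of {x : ℤ} (h : |x| = 1) : ∃ s : Bool, sg s = x := by
  rcases (abs_eq (by norm_num : (0 : ℤ) ≤ 1)).1 h with h | h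
  · exact ⟨true, h.symm⟩
  · exact ⟨false, h.symm⟩

theorem abs_sg (s : Bool) : |sg s| = 1 := by cases s <;> rfl

/-- moving a coordinate to a free place -/
theorem slide (hm : M1 W) {k : ℤ} {c : Fin n → ℤ} (hc : W c) (hR : R k c) {i j : Fin n}
    (hi : c i ≠ 0) (hj : c j = 0) (t : Bool) :
    W (upd c i j 0 (sg t)) ∧ R k (upd c i j 0 (sg t)) := by
  have hij : i ≠ j := by
    rintro rfl
    exact hi hj
  obtain ⟨s, hs⟩ := sg_of (one_of (hR.1 i) hi)
  constructor
  · have h1 := hm c hc i j hij s (!t) (by rw [hj, ← hs, sg_mul]; norm_num)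
    rw [hj, hs, sub_self, sg_not, zero_sub, neg_neg] at h1
    exact h1
  · refine ⟨fun l => ?_, ?_⟩
    · by_cases hli : l = i
      · subst hli
        rw [upd_i, abs_zero]
        norm_num
      · by_cases hlj : l = j
        · subst hlj
          rw [upd_j hij, abs_sg]
        · rw [upd_o hli hlj]
          exact hR.1 l
    · rw [sum_upd c hij _ _ fun _ x => |x|, abs_zero, abs_sg, hj, abs_zero, hR.2,
        one_of (hR.1 i) hi]
      ring

theorem reach (hm : M1 W) {k : ℤ} (hk : k < n) : ∀ (N : ℕ) (c c' : Fin n → ℤ), W c → R k c →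
    R k c' → ∑ l, |c l - c' l| ≤ N → W c' := by
  intro N
  induction N with
  | zero =>
    intro c c' hc _ _ h0
    have h1 : c = c' := by
      funext l
      have h2 : |c l - c' l| ≤ ∑ l, |c l - c' l| :=
        Finset.single_le_sum (f := fun l => |c l - c' l|) (fun l _ => abs_nonneg _)
          (Finset.mem_univ l)
      push_cast at h0
      have h3 := abs_nonneg (c l - c' l)
      exact sub_eq_zero.1 (abs_eq_zero.1 (by omega))
    rw [← h1]
    exact hc
  | succ N ih =>
    intro c c' hc hR hR' hN
    push_cast at hN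
    by_cases hj : ∃ j, c' j ≠ 0 ∧ c j = 0
    · obtain ⟨j, hj', hj⟩ := hj
      obtain ⟨i, hi, hi'⟩ : ∃ i, c i ≠ 0 ∧ c' i = 0 := by
        by_contra hall
        push Not at hall
        have h1 : ∑ l, |c l| < ∑ l, |c' l| := by
          refine Finset.sum_lt_sum (fun l _ => ?_) ⟨j, Finset.mem_univ j, ?_⟩
          · by_cases hl : c l = 0
            · rw [hl, abs_zero]
              exact abs_nonneg _
            · rw [one_of (hR.1 l) hl, one_of (hR'.1 l) (hall l hl)]
          · rw [hj, abs_zero]
            exact abs_pos.2 hj'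
        rw [hR.2, hR'.2] at h1
        exact lt_irrefl _ h1
      have hij : i ≠ j := by
        rintro rfl
        exact hi hj
      obtain ⟨t, ht⟩ := sg_of (one_of (hR'.1 j) hj')
      obtain ⟨h1, h2⟩ := slide hm hc hR hi hj t
      refine ih _ c' h1 h2 hR' ?_
      have e1 : |(0 : ℤ) - c' i| = 0 := by rw [hi', sub_zero, abs_zero]
      have e2 : |c i - c' i| = 1 := by
        rw [hi', sub_zero]
        exact one_of (hR.1 i) hi
      have e3 : |sg t - c' j| = 0 := by rw [ht, sub_self, abs_zero]
      have e4 : |c j - c' j| = 1 := by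
        rw [hj, zero_sub, abs_neg]
        exact one_of (hR'.1 j) hj'
      rw [sum_upd c hij _ _ fun l x => |x - c' l|, e1, e2, e3, e4]
      omega
    · push Not at hj
      have hle : ∀ l, |c' l| ≤ |c l| := fun l => by
        by_cases hl : c' l = 0
        · rw [hl, abs_zero]
          exact abs_nonneg _
        · rw [one_of (hR'.1 l) hl, one_of (hR.1 l) (hj l hl)]
      have heq : ∀ l, |c' l| = |c l| := by
        by_contra hall
        push Not at hall
        obtain ⟨l, hl⟩ := hall
        have h1 : ∑ l, |c' l| < ∑ l, |c l| := Finset.sum_lt_sum (fun l _ => hle l)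
          ⟨l, Finset.mem_univ l, lt_of_le_of_ne (hle l) hl⟩
        rw [hR.2, hR'.2] at h1
        exact lt_irrefl _ h1
      by_cases hcc : c = c'
      · rw [← hcc]
        exact hc
      obtain ⟨i, hi⟩ : ∃ i, c i ≠ c' i := by
        by_contra hall
        push Not at hall
        exact hcc (funext hall)
      have hi0 : c i ≠ 0 := by
        intro h0
        have h1 := heq i
        rw [h0, abs_zero, abs_eq_zero] at h1
        exact hi (by rw [h0, h1])
      have hi0' : c' i ≠ 0 := by
        intro h0
        have h1 := heq i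
        rw [h0, abs_zero] at h1
        exact hi0 (abs_eq_zero.1 h1.symm)
      obtain ⟨j, hj0⟩ : ∃ j, c j = 0 := by
        by_contra hall
        push Not at hall
        have h1 : ∑ l, |c l| = ∑ _l : Fin n, (1 : ℤ) :=
          Finset.sum_congr rfl fun l _ => one_of (hR.1 l) (hall l)
        rw [Finset.sum_const, Finset.card_univ, Fintype.card_fin, nsmul_eq_mul, mul_one,
          hR.2] at h1
        omega
      have hij : i ≠ j := by
        rintro rfl
        exact hi0 hj0
      obtain ⟨h1, h2⟩ := slide hm hc hR hi0 hj0 true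
      obtain ⟨t, ht⟩ := sg_of (one_of (hR'.1 i) hi0')
      obtain ⟨h3, h4⟩ := slide hm h1 h2 (i := j) (j := i) (by
        rw [upd_j hij]
        norm_num [sg]) (upd_i _ _ _ _ _) t
      refine ih _ c' h3 h4 hR' ?_
      have h5 : upd (upd c i j 0 (sg true)) j i 0 (sg t) = upd c i j (c' i) 0 := by
        funext l
        by_cases hli : l = i
        · subst hli
          rw [upd_j hij.symm, upd_i, ht]
        · by_cases hlj : l = j
          · subst hlj
            rw [upd_i, upd_j hij]
          · rw [upd_o hlj hli, upd_o hli hlj, upd_o hli hlj]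
      have hj0' : c' j = 0 := by
        have h6 := heq j
        rw [hj0, abs_zero] at h6
        exact abs_eq_zero.1 h6
      rw [h5, sum_upd c hij _ _ fun l x => |x - c' l|, hj0, hj0', sub_self, sub_self, abs_zero]
      have h6 := abs_pos.2 (sub_ne_zero.2 hi)
      omega

end even

end

end Pool.Agent.U233.PW
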