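import Pool.Agent.U233.PW.Comb

/-!
# The number of the weights: families
-/

set_option autoImplicit false
set_option linter.unusedSectionVars false

namespace Pool.Agent.U233.PW

noncomputable section

section odd

variable {n : ℕ} {W : (Fin n → ℤ) → Prop}

theorem Mv.moveU (hm : Mv W) {w : Fin n → ℤ} (hw : W w) {i j : Fin n} (hij : i ≠ j) (s t : Bool)
    (hpos : 0 < sg s * w i + sg t * w j) : W (upd w i j (w i - 2 * sg s) (w j - 2 * sg t)) := by
  have h1 := hm.move _ hw i j hij s t hpos
  have h2 : (fun l => w l - 2 * (sg s * dl l i + sg t * dl l j)) =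
      upd w i j (w i - 2 * sg s) (w j - 2 * sg t) := by
    funext l
    by_cases hi : l = i
    · subst hi
      rw [upd_i, dl, if_pos rfl, dl, if_neg hij]
      ring
    · by_cases hj : l = j
      · subst hj
        rw [upd_j hij, dl, if_neg hi, dl, if_pos rfl]
        ring
      · rw [upd_o hi hj, dl, if_neg hi, dl, if_neg hj]
        ring
  rw [h2] at h1
  exact h1

theorem redOdd (hn : 2 ≤ n) (hm : Mv W) : ∀ (N : ℕ) (w : Fin n → ℤ), W w → (∀ l, Odd (w l)) →
    ∑ l, |w l| ≤ N → ∃ w', W w' ∧ ∀ l, |w' l| = 1 := by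
  intro N
  induction N with
  | zero =>
    intro w _ ho h0
    exfalso
    let i : Fin n := ⟨0, by omega⟩
    have h2 : |w i| ≤ ∑ l, |w l| :=
      Finset.single_le_sum (f := fun l => |w l|) (fun l _ => abs_nonneg _) (Finset.mem_univ i)
    push_cast at h0
    have h3 := abs_nonneg (w i)
    have h4 : w i = 0 := abs_eq_zero.1 (by omega)
    have h5 := ho i
    rw [h4] at h5
    exact absurd h5 (by decide)
  | succ N ih =>
    intro w hw ho hN
    push_cast at hN
    by_cases hall : ∀ l, |w l| = 1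
    · exact ⟨w, hw, hall⟩
    push Not at hall
    obtain ⟨i, hi⟩ := hall
    obtain ⟨j, hij⟩ : ∃ j, i ≠ j := by
      by_cases h0 : i = ⟨0, by omega⟩
      · refine ⟨⟨1, by omega⟩, fun h => ?_⟩
        rw [h0] at h
        exact absurd (congrArg Fin.val h) (by norm_num)
      · exact ⟨_, h0⟩
    have hne : ∀ l, w l ≠ 0 := fun l h0 => by
      have h5 := ho l
      rw [h0] at h5
      exact absurd h5 (by decide)
    obtain ⟨s, hs1, hs2⟩ := sgn_ex (hne i)
    obtain ⟨t, ht1, ht2⟩ := sgn_ex (hne j)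
    have hi1 := Int.one_le_abs (hne i)
    have hj1 := Int.one_le_abs (hne j)
    refine ih _ (hm.moveU hw hij s t (by omega)) (fun l => ?_) ?_
    · by_cases hli : l = i
      · subst hli
        rw [upd_i]
        exact (ho l).sub_even (even_two_mul _)
      · by_cases hlj : l = j
        · subst hlj
          rw [upd_j hij]
          exact (ho l).sub_even (even_two_mul _)
        · rw [upd_o hli hlj]
          exact ho l
    · rw [sum_upd w hij _ _ fun _ x => |x|]
      have e1 : |w i - 2 * sg s| = |w i| - 2 := by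
        rcases abs_choice (w i) with h | h <;> cases s <;>
          simp only [sg, if_true, if_false, Bool.false_eq_true, one_mul, neg_mul] at hs1 hs2 ⊢ <;>
          (rcases abs_cases (w i) with ⟨h1, h2⟩ | ⟨h1, h2⟩) <;> 
          (first | (rw [abs_of_nonneg (by omega)]; omega) | (rw [abs_of_nonpos (by omega)]; omega) | omega)
      have e2 : |w j - 2 * sg t| ≤ |w j| := by
        cases t <;> simp only [sg, if_true, if_false, Bool.false_eq_true, one_mul, neg_mul] at ht1 ht2 ⊢ <;>
          (rcases abs_cases (w j) with ⟨h1, h2⟩ | ⟨h1, h2⟩) <;>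
          exact abs_le.2 ⟨by omega, by omega⟩
      omega

theorem flip (hm : Mv W) {w : Fin n → ℤ} (hw : W w) {i j : Fin n} (hij : i ≠ j)
    (hi : |w i| = 1) (hj : |w j| = 1) : W (upd w i j (-w i) (-w j)) := by
  obtain ⟨s, hs⟩ := sg_of hi
  obtain ⟨t, ht⟩ := sg_of hj
  have h1 := hm.moveU hw hij s t (by rw [← hs, ← ht, sg_mul, sg_mul]; norm_num)
  rw [hs, ht, show w i - 2 * w i = -w i by ring, show w j - 2 * w j = -w j by ring] at h1
  exact h1

end odd

section fam

variable {m : ℕ} {W : (Fin (m + 1) → ℤ) → Prop}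

/-- the vectors with changed signs -/
def FO (w : Fin (m + 1) → ℤ) (S : Finset (Fin m)) : Fin (m + 1) → ℤ :=
  Fin.cons ((-1) ^ S.card * w 0) fun l => if l ∈ S then -w l.succ else w l.succ

theorem FO_mem (hm : Mv W) {w : Fin (m + 1) → ℤ} (hw : W w) (h1 : ∀ l, |w l| = 1)
    (S : Finset (Fin m)) : W (FO w S) := by
  classical
  induction S using Finset.induction_on with
  | empty =>
    have h2 : FO w ∅ = w := by
      funext l
      refine Fin.cases ?_ (fun l => ?_) l
      · simp [FO]
      · simp [FO]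
    rw [h2]
    exact hw
  | insert a S ha ih =>
    have h2 : |FO w S 0| = 1 := by
      rw [FO, Fin.cons_zero, abs_mul, abs_pow, abs_neg, abs_one, one_pow, one_mul, h1]
    have h3 : |FO w S a.succ| = 1 := by
      rw [FO, Fin.cons_succ, if_neg ha, h1]
    have h4 := flip hm ih (Fin.succ_ne_zero a).symm h2 h3
    have h5 : upd (FO w S) 0 a.succ (-FO w S 0) (-FO w S a.succ) = FO w (insert a S) := by
      funext l
      refine Fin.cases ?_ (fun l => ?_) l
      · rw [upd_i, FO, FO, Fin.cons_zero, Fin.cons_zero, Finset.card_insert_of_notMem ha]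
        ring
      · by_cases hl : l = a
        · subst hl
          rw [upd_j (Fin.succ_ne_zero l).symm, FO, FO, Fin.cons_succ, Fin.cons_succ, if_neg ha,
            if_pos (Finset.mem_insert_self _ _)]
        · rw [upd_o (Fin.succ_ne_zero l) (fun h => hl (Fin.succ_injective _ h)), FO, FO,
            Fin.cons_succ, Fin.cons_succ]
          simp only [Finset.mem_insert, hl, false_or]
    rw [h5] at h4
    exact h4

theorem FO_inj {w : Fin (m + 1) → ℤ} (h1 : ∀ l, |w l| = 1) : Function.Injective (FO w) := by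
  intro S S' h
  ext l
  have h2 := congrFun h l.succ
  rw [FO, FO, Fin.cons_succ, Fin.cons_succ] at h2
  have h3 : w l.succ ≠ -w l.succ := by
    intro h4
    have h5 := h1 l.succ
    have h6 : w l.succ = 0 := by omega
    rw [h6] at h5
    norm_num at h5
  by_cases hS : l ∈ S <;> by_cases hS' : l ∈ S'
  · exact ⟨fun _ => hS', fun _ => hS⟩
  · rw [if_pos hS, if_neg hS'] at h2
    exact absurd h2.symm h3
  · rw [if_neg hS, if_pos hS'] at h2
    exact absurd h2 h3
  · exact ⟨fun h => absurd h hS, fun h => absurd h hS'⟩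

end fam

/-- pairs of different indices, and a sign -/
abbrev K2 (n : ℕ) : Type := ((Finset.univ : Finset (Fin n)).offDiag : Finset (Fin n × Fin n)) × Bool

theorem card_K2 (n : ℕ) : Fintype.card (K2 n) = (n * n - n) * 2 := by
  rw [Fintype.card_prod, Fintype.card_coe, Finset.offDiag_card, Finset.card_univ, Fintype.card_fin,
    Fintype.card_bool]

/-- the vectors with two coordinates `±1` -/
def F2 {n : ℕ} (a : K2 n) : Fin n → ℤ :=
  upd 0 (min a.1.1.1 a.1.1.2) (max a.1.1.1 a.1.1.2) (if a.1.1.1 < a.1.1.2 then 1 else -1) (sg a.2)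

theorem mm {n : ℕ} (a : K2 n) : min a.1.1.1 a.1.1.2 < max a.1.1.1 a.1.1.2 := by
  have h1 := (Finset.mem_offDiag.1 a.1.2).2.2
  exact min_lt_max.2 h1

theorem F2_R {n : ℕ} (a : K2 n) : R 2 (F2 a) := by
  have h1 := (mm a).ne
  have h2 : |(if a.1.1.1 < a.1.1.2 then 1 else -1 : ℤ)| = 1 := by split_ifs <;> rfl
  constructor
  · intro l
    by_cases hi : l = min a.1.1.1 a.1.1.2
    · rw [F2, hi, upd_i, h2]
    · by_cases hj : l = max a.1.1.1 a.1.1.2
      · rw [F2, hj, upd_j h1, abs_sg]
      · rw [F2, upd_o hi hj]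
        norm_num
  · rw [F2, sum_upd 0 h1 _ _ fun _ x => |x|, h2, abs_sg]
    simp

theorem upd_inj {n : ℕ} {i j i' j' : Fin n} {a b a' b' : ℤ} (hij : i < j) (hij' : i' < j')
    (ha : a ≠ 0) (hb : b ≠ 0) (ha' : a' ≠ 0) (hb' : b' ≠ 0)
    (h : upd 0 i j a b = upd 0 i' j' a' b') : i = i' ∧ j = j' ∧ a = a' ∧ b = b' := by
  have key : ∀ (i j i' j' : Fin n) (a b a' b' : ℤ), i < j → i' < j' → a ≠ 0 → b ≠ 0 →
      upd 0 i j a b = upd 0 i' j' a' b' → (i = i' ∨ i = j') ∧ (j = i' ∨ j = j') := by
    intro i j i' j' a b a' b' hij hij' ha hb h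
    constructor
    · by_contra hcon
      push Not at hcon
      have h1 := congrFun h i
      rw [upd_i, upd_o hcon.1 hcon.2] at h1
      exact ha h1
    · by_contra hcon
      push Not at hcon
      have h1 := congrFun h j
      rw [upd_j hij.ne, upd_o hcon.1 hcon.2] at h1
      exact hb h1
  obtain ⟨h1, h2⟩ := key i j i' j' a b a' b' hij hij' ha hb h
  obtain ⟨h3, h4⟩ := key i' j' i j a' b' a b hij' hij ha' hb' h.symm
  have h5 : i = i' ∧ j = j' := by
    rcases h1 with h1 | h1 <;> rcases h2 with h2 | h2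
    · exact absurd (h1.trans h2.symm) hij.ne
    · exact ⟨h1, h2⟩
    · rw [h1, h2] at hij
      exact absurd hij hij'.asymm
    · exact absurd (h1.trans h2.symm) hij.ne
  obtain ⟨rfl, rfl⟩ := h5
  refine ⟨rfl, rfl, ?_, ?_⟩
  · have h6 := congrFun h i
    rwa [upd_i, upd_i] at h6
  · have h6 := congrFun h j
    rwa [upd_j hij.ne, upd_j hij.ne] at h6

theorem sg_ne (s : Bool) : sg s ≠ 0 := by cases s <;> decide

theorem sg_inj {s t : Bool} (h : sg s = sg t) : s = t := by
  cases s <;> cases t
  · rfl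
  · exact absurd h (by decide)
  · exact absurd h (by decide)
  · rfl

theorem F2_inj {n : ℕ} : Function.Injective (F2 (n := n)) := by
  rintro ⟨⟨⟨i, j⟩, hij⟩, b⟩ ⟨⟨⟨i', j'⟩, hij'⟩, b'⟩ h
  have hne : i ≠ j := (Finset.mem_offDiag.1 hij).2.2
  have hne' : i' ≠ j' := (Finset.mem_offDiag.1 hij').2.2
  obtain ⟨h1, h2, h3, h4⟩ := upd_inj (min_lt_max.2 hne) (min_lt_max.2 hne')
    (by split_ifs <;> decide) (sg_ne _) (by split_ifs <;> decide) (sg_ne _) h
  have h5 := sg_inj h4
  simp only at h1 h2 h3 h5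
  subst h5
  have h6 : i = i' ∧ j = j' := by
    rcases lt_or_gt_of_ne hne with hlt | hlt <;> rcases lt_or_gt_of_ne hne' with hlt' | hlt'
    · rw [min_eq_left hlt.le, min_eq_left hlt'.le] at h1
      rw [max_eq_right hlt.le, max_eq_right hlt'.le] at h2
      exact ⟨h1, h2⟩
    · rw [if_pos hlt, if_neg hlt'.asymm] at h3
      exact absurd h3 (by decide)
    · rw [if_neg hlt.asymm, if_pos hlt'] at h3
      exact absurd h3 (by decide)
    · rw [min_eq_right hlt.le, min_eq_right hlt'.le] at h1
      rw [max_eq_left hlt.le, max_eq_left hlt'.le] at h2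
      exact ⟨h2, h1⟩
  obtain ⟨rfl, rfl⟩ := h6
  rfl

/-- the vectors with three coordinates `±1` -/
def F3 {m : ℕ} (a : K2 m × Bool) : Fin (m + 1) → ℤ := Fin.cons (sg a.2) (F2 a.1)

theorem F3_R {m : ℕ} (a : K2 m × Bool) : R 3 (F3 a) := by
  constructor
  · intro l
    refine Fin.cases ?_ (fun l => ?_) l
    · rw [F3, Fin.cons_zero, abs_sg]
    · rw [F3, Fin.cons_succ]
      exact (F2_R a.1).1 l
  · rw [Fin.sum_univ_succ, F3, Fin.cons_zero, abs_sg]
    simp only [Fin.cons_succ]
    rw [(F2_R a.1).2]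
    norm_num

theorem F3_inj {m : ℕ} : Function.Injective (F3 (m := m)) := by
  rintro ⟨a, b⟩ ⟨a', b'⟩ h
  have h1 := congrFun h 0
  rw [F3, F3, Fin.cons_zero, Fin.cons_zero] at h1
  have h2 : F2 a = F2 a' := by
    funext l
    have h3 := congrFun h l.succ
    rwa [F3, F3, Fin.cons_succ, Fin.cons_succ] at h3
  exact Prod.ext (F2_inj h2) (sg_inj h1)

/-- **The number of the weights.** -/
theorem count {n : ℕ} (hn : 5 ≤ n) {W : (Fin n → ℤ) → Prop} (hm : Mv W) {w : Fin n → ℤ}
    (hw : W w) (h0 : ¬∀ l, w l = 0) (h1 : ¬∃ i, |w i| = 2 ∧ ∀ l, l ≠ i → w l = 0) :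
    ∃ (κ : Type) (_ : Fintype κ) (F : κ → Fin n → ℤ), Function.Injective F ∧ (∀ a, W (F a)) ∧
      min (2 * (n * (n - 1))) (2 ^ (n - 1)) ≤ Fintype.card κ := by
  obtain ⟨m, rfl⟩ : ∃ m, n = m + 1 := ⟨n - 1, by omega⟩
  by_cases hodd : ∃ i, Odd (w i)
  · obtain ⟨i, hi⟩ := hodd
    have ho : ∀ l, Odd (w l) := by
      intro l
      by_cases hl : i = l
      · rw [← hl]
        exact hi
      · have h2 := hm.par w hw i l hl
        have h3 : w l = (w i + w l) - w i := by ring
        rw [h3]
        exact h2.sub_odd hi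
    obtain ⟨w', hw', h2⟩ := redOdd (by omega) hm (∑ l, |w l|).toNat w hw ho
      (Int.self_le_toNat _)
    refine ⟨Finset (Fin m), inferInstance, FO w', FO_inj h2, FO_mem hm hw' h2, ?_⟩
    rw [Fintype.card_finset, Fintype.card_fin]
    exact min_le_right _ _
  · push Not at hodd
    have heven : ∀ l, Even (w l) := fun l => Int.not_odd_iff_even.1 (hodd l)
    choose c hc using fun l => heven l
    have hwc : w = fun l => 2 * c l := by
      funext l
      rw [hc]
      ring
    have hM := hm.half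
    have hWc : W fun l => 2 * c l := hwc ▸ hw
    have hsum : 2 ≤ ∑ l, |c l| := by
      by_contra hlt
      push Not at hlt
      have hle : ∀ l, |c l| ≤ ∑ l, |c l| := fun l =>
        Finset.single_le_sum (f := fun l => |c l|) (fun l _ => abs_nonneg _) (Finset.mem_univ l)
      by_cases hz : ∀ l, c l = 0
      · exact h0 fun l => by rw [hc, hz, add_zero]
      · push Not at hz
        obtain ⟨i, hi⟩ := hz
        have hi1 := Int.one_le_abs hi
        have hi2 := hle i
        refine h1 ⟨i, ?_, fun l hl => ?_⟩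
        · rw [hc, ← two_mul, abs_mul]
          norm_num
          omega
        · have h3 : |c i| + |c l| ≤ ∑ l, |c l| := by
            rw [← Finset.sum_pair (f := fun l => |c l|) (Ne.symm hl)]
            exact Finset.sum_le_sum_of_subset_of_nonneg (Finset.subset_univ _)
              fun l _ _ => abs_nonneg _
          have h4 := abs_nonneg (c l)
          have h5 : c l = 0 := abs_eq_zero.1 (by omega)
          rw [hc, h5, add_zero]
    obtain ⟨c', hc', h2, h3⟩ := red1 hn hM (∑ l, c l ^ 2).toNat c hWc (Int.self_le_toNat _) hsum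
    have hmul : Function.Injective fun (c : Fin (m + 1) → ℤ) => fun l => 2 * c l := by
      intro a b hab
      funext l
      have h4 := congrFun hab l
      simp only at h4
      omega
    have hreach : ∀ (k : ℤ), k < ((m + 1 : ℕ) : ℤ) → R k c' → ∀ c'', R k c'' →
        W fun l => 2 * c'' l := fun k hk hR c'' hR'' =>
      reach hM hk (∑ l, |c' l - c'' l|).toNat c' c'' hc' hR hR'' (Int.self_le_toNat _)
    rcases h3 with h3 | h3
    · refine ⟨K2 (m + 1), inferInstance, fun a => fun l => 2 * F2 a l, hmul.comp F2_inj,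
        fun a => hreach 2 (by push_cast; omega) ⟨h2, h3⟩ _ (F2_R a), ?_⟩
      rw [card_K2]
      refine (min_le_left _ _).trans (le_of_eq ?_)
      rw [Nat.add_sub_cancel]
      have h4 : (m + 1) * (m + 1) - (m + 1) = (m + 1) * m := by
        rw [Nat.mul_succ, Nat.add_sub_cancel]
      rw [h4]
      ring
    · refine ⟨K2 m × Bool, inferInstance, fun a => fun l => 2 * F3 a l, hmul.comp F3_inj,
        fun a => hreach 3 (by push_cast; omega) ⟨h2, h3⟩ _ (F3_R a), ?_⟩
      rw [Fintype.card_prod, card_K2, Fintype.card_bool]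
      refine (min_le_left _ _).trans ?_
      rw [Nat.add_sub_cancel]
      obtain ⟨p, rfl⟩ : ∃ p, m = p + 1 := ⟨m - 1, by omega⟩
      have h4 : (p + 1) * (p + 1) - (p + 1) = (p + 1) * p := by
        rw [Nat.mul_succ, Nat.add_sub_cancel]
      rw [h4]
      nlinarith

end

end Pool.Agent.U233.PW
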