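import Pool.Agent.U233.HG.Def1

/-!
# The operators of type `(p, q)`: definitions
-/

set_option autoImplicit false

open TensorProduct

namespace Pool.Agent.U233.HG.St

open Pool.Agent.N179.DB.S (Cx tens bc)

noncomputable section

variable {K : Type} [Field K] [Algebra K ℂ]

/-- The extension of an operator to complex coefficients. -/
def OprV.ext {V : Type} [AddCommGroup V] [Module K V] (f : OprV K V) (v : Cx K V) : Cx K V :=
  bc f v

/-- The sum of the `c i ⊗ f i`. -/
def sumOp {V : Type} [AddCommGroup V] [Module K V] {n : ℕ} (c : Fin n → ℂ)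
    (f : Fin n → OprV K V) : Cx K (OprV K V) := ∑ i, tens (c i) (f i)

/-- The value `∑ c i f i(v)` of this sum at a vector. -/
def sumVal {V : Type} [AddCommGroup V] [Module K V] {n : ℕ} (c : Fin n → ℂ)
    (f : Fin n → OprV K V) (v : Cx K V) : Cx K V := ∑ i, c i • (f i).ext v

/-- The operators of type `(p, q)`: the elements `∑ c i ⊗ f i` of the space of the operators with
complex coefficients which map the vectors of type `(r, s)` to vectors of type `(p + r, q + s)`. -/
def opTypes (M : HS K) (p q : ℤ) : Set (Cx K (OprV K M.V)) :=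
  {x | ∃ (n : ℕ) (c : Fin n → ℂ) (f : Fin n → OprV K M.V), x = sumOp c f ∧
    ∀ r s v, M.has r s v → M.has (p + r) (q + s) (sumVal c f v)}

end

end Pool.Agent.U233.HG.St
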