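import Pool.Agent.U233.PW.DefG1
import Pool.Agent.U233.HG.Conv1

/-!
# The operators of type `(p, q)`: the decomposition
-/

set_option autoImplicit false

open TensorProduct

namespace Pool.Agent.U233.HG.St

open Pool.Agent.N179.DB.S (Cx tens gal bc cx_ind)

noncomputable section

variable {K : Type} [Field K] [Algebra K ℂ]

theorem opC_sum {V : Type} [AddCommGroup V] [Module K V] {n : ℕ} (c : Fin n → ℂ)
    (f : Fin n → OprV K V) (v : Cx K V) : OprV.act (sumOp c f) v = sumVal c f v := by
  have h2 : (opC (K := K) (V := V)) (∑ i, tens (c i) (show V →ₗ[K] V from f i)) =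
      ∑ i, c i • bc (show V →ₗ[K] V from f i) := by
    rw [map_sum]
    exact Finset.sum_congr rfl fun i _ => opC_tens _ _
  refine (LinearMap.congr_fun h2 v).trans ?_
  rw [LinearMap.sum_apply]
  rfl

theorem exists_sum {V : Type} [AddCommGroup V] [Module K V] (x : Cx K (OprV K V)) :
    ∃ (n : ℕ) (c : Fin n → ℂ) (f : Fin n → OprV K V), x = sumOp c f := by
  refine cx_ind (p := fun x => ∃ (n : ℕ) (c : Fin n → ℂ) (f : Fin n → OprV K V), x = sumOp c f)
    ⟨0, fun _ => 0, fun _ => 0, ?_⟩ (fun r w => ⟨1, fun _ => r, fun _ => w, ?_⟩) ?_ x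
  · unfold sumOp
    rw [Fin.sum_univ_zero]
  · unfold sumOp
    rw [Fin.sum_univ_one]
  · rintro a b ⟨n, c, f, rfl⟩ ⟨m, c', f', rfl⟩
    refine ⟨n + m, Fin.append c c', Fin.append f f', ?_⟩
    unfold sumOp
    rw [Fin.sum_univ_add]
    congr 1
    · exact Finset.sum_congr rfl fun i _ => by rw [Fin.append_left, Fin.append_left]
    · exact Finset.sum_congr rfl fun i _ => by rw [Fin.append_right, Fin.append_right]

theorem opTypes_eq (M : HS K) : opTypes M = oprPQ M := by
  funext p q
  ext x
  constructor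
  · rintro ⟨n, c, f, rfl, h⟩ r s v hv
    rw [opC_sum]
    exact h r s v hv
  · intro hx
    obtain ⟨n, c, f, rfl⟩ := exists_sum x
    refine ⟨n, c, f, rfl, fun r s v hv => ?_⟩
    rw [← opC_sum]
    exact hx r s v hv

theorem opTypes_dec0 (M : HS K) : IsDec (opTypes M) := by
  rw [opTypes_eq]
  exact opr_dec M

end

end Pool.Agent.U233.HG.St
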