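import Pool.Agent.U233.PW.DefG2

/-!
# The Hodge structure on the space of the operators
-/

set_option autoImplicit false

namespace Pool.Agent.U233.HG.St

noncomputable section

variable {K : Type} [Field K] [Algebra K ℂ]

theorem ops_fd (M : HS K) : FiniteDimensional K (OprV K M.V) := OprV.fd M

theorem ops_dec (M : HS K) : IsDec (opTypes M) := opTypes_dec0 M

/-- The Hodge structure on the space of the linear operators. -/
def HS.ops (M : HS K) : HS K where
  V := OprV K M.V
  fd := ops_fd M
  pq := opTypes M
  dec := ops_dec M

/-- The value of the operator. -/
def OprV.ev {V : Type} [AddCommGroup V] [Module K V] (X : OprV K V) (x : V) : V :=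
  (show V →ₗ[K] V from X) x

end

end Pool.Agent.U233.HG.St
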