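import Pool.Agent.U233.PW.DefP0

/-!
# Full Hodge groups, powers, and varieties of dimension at most `3`: definitions
-/

set_option autoImplicit false

open CategoryTheory AlgebraicGeometry TensorProduct

universe u

namespace Pool.Agent.U233.HG.St

open Pool.Agent.H914 Pool.Agent.H914.VarClass Pool.Agent.H914.VarClass.Obj

noncomputable section

section K

variable {K : Type} [Field K] [Algebra K ℂ]

/-- The types `(p, q)` with `h^(p,q) ≠ 0` satisfy `0 ≤ p, q ≤ n`. -/
def HS.Effective (M : HS K) (n : ℕ) : Prop :=
  ∀ p q : ℤ, M.hodgeNum p q ≠ 0 → 0 ≤ p ∧ p ≤ n ∧ 0 ≤ q ∧ q ≤ n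

/-- The Hodge conjecture in codimension `j`. -/
def HA.HCin (X : HA K) (j : ℕ) : Prop := X.hodgeDeg j ⊆ X.cl j

/-- An index `i` is not exceptional with respect to the algebra if `n < d i` and `V i` is big in
comparison with the dimension of the algebra. -/
def HA.Avoids {ι : Type} (X : HA K) (n : ℕ) (V : ι → HS K) (d : ι → ℕ) (E : HS K → Set ι) : Prop :=
  ∀ i, n < d i → Big (d i) (V i) X.str.dim → i ∉ E X.str

end K

variable {k : Type u} [Field k] {𝒱 : VarClass k} {ops : CycleOps 𝒱} (T : Theory ops)

/-- Let `P_a` be varieties as in `Factors`. The Hodge classes on `P_1 × (P_2 × (⋯ × Z))` are the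
linear combinations of the products of the pull-backs of Hodge classes on `P_1` and on
`P_2 × (⋯ × Z)`, if `H(P_1)` is polarisable; and the Hodge conjecture holds for the product if and
only if it holds for `Z` and for those `P_a` which are not powers. -/
structure Decomposes {ι : Type} (V : ι → HS T.F) (E : Set ι) (Z : 𝒱.Obj) : Prop where
  kunneth : ∀ (i : ι) (P : 𝒱.Obj) (L : List (ι × 𝒱.Obj)), Factors T V E ((i, P) :: L) →
    (cohF T P).str.Polarisable → HodgeKun T P (prd L Z)
  conjecture : ∀ L : List (ι × 𝒱.Obj), Factors T V E L →
    ((cohF T (prd L Z)).HC ↔ (cohF T Z).HC ∧ ∀ x ∈ L, IsPower T (V x.1) x.2 ∨ (cohF T x.2).HC)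

/-- `E U` is the set of the exceptional indices with respect to the Hodge structure `U`.

* See `Exceptions`.
* For every variety `Z`, the number of the exceptional indices with respect to the cohomology of `Z`
  is at most one half of `b - b'`, where `b` is the sum of the Betti numbers and `b'` is the dimension
  of the part with complex multiplication, and the theorem `Decomposes` holds for the products of `Z`
  with powers and with varieties generated by the `V i` and by Hodge classes, without exceptional
  indices.
* The same is true if `Z` is generated by finitely many structures `U a`, without indices in the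
  `E (U a)`. -/
structure FullDec {ι : Type} (V : ι → HS T.F) (d : ι → ℕ) (E : HS T.F → Set ι) :
    Prop where
  exceptions : Exceptions V d E
  variety : ∀ Z : 𝒱.Obj, (cohF T Z).Bound (E (cohF T Z).str) ∧
    Decomposes T V (E (cohF T Z).str) Z
  splits : ∀ (m : ℕ) (U : Fin m → HS T.F) (Z : 𝒱.Obj), (cohF T Z).GenBy U →
    Decomposes T V (⋃ a, E (U a)) Z

/-- Classical theorems which hold in the main case: the cohomology is polarisable, the types `(p, q)`
of the nonzero classes satisfy `0 ≤ p, q ≤ dim X`, and the Hodge conjecture holds in codimension `1`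
and in codimension `dim X - 1` (Lefschetz). -/
structure Classical : Prop where
  polarisable : ∀ X : 𝒱.Obj, (cohF T X).str.Polarisable
  effective : ∀ X : 𝒱.Obj, (cohF T X).str.Effective X.dim
  divisors : ∀ X : 𝒱.Obj, (cohF T X).HCin 1
  curves : ∀ (X : 𝒱.Obj) n, X.dim = n + 1 → (cohF T X).HCin n

/-- The Hodge conjecture for the products `P_1 × ⋯ × P_n × Z`, where `Z` is an arbitrary variety of
dimension at most `3` and the `P_a` are powers with respect to `V i_a`, for pairwise different indices
which are not exceptional with respect to the cohomology of `Z`. An index `i` is not exceptional if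
the dimension of `Z` is smaller than `d i` (and `V i` is big in comparison with the sum of the Betti
numbers of `Z`). -/
structure Threefolds {ι : Type} (V : ι → HS T.F) (d : ι → ℕ) (E : HS T.F → Set ι) : Prop where
  indices : ∀ Z : 𝒱.Obj, (cohF T Z).Avoids Z.dim V d E
  conjecture : ∀ (Z : 𝒱.Obj) (L : List (ι × 𝒱.Obj)), Z.dim ≤ 3 → (L.map Prod.fst).Nodup →
    (∀ x ∈ L, x.1 ∉ E (cohF T Z).str ∧ IsPower T (V x.1) x.2) → (cohF T (prd L Z)).HC

end

end Pool.Agent.U233.HG.St
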