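import Pool.Agent.U233.FG.DefF0
import Pool.Agent.U233.PW.DefG3

/-!
# Full Hodge groups and powers: definitions
-/

set_option autoImplicit false

open CategoryTheory AlgebraicGeometry TensorProduct

universe u

namespace Pool.Agent.U233.HG.St

open Pool.Agent.H914 Pool.Agent.H914.VarClass Pool.Agent.H914.VarClass.Obj

noncomputable section

section K

variable {K : Type} [Field K] [Algebra K ℂ]

/-- The Hodge number `h^(p,q)`. -/
def HS.hodgeNum (M : HS K) (p q : ℤ) : ℕ := Set.finrank ℂ {x | M.has p q x}

/-- The number `min(2 n (n - 1), 2 ^ (n - 1))`, where `n` is the integral part of `N / 2`. (For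
example `16`, `32`, `64` for `N = 10`, `12`, `14`, and `2 n (n - 1)` for `N ≥ 18`.) -/
def bound (N : ℕ) : ℕ := min (2 * (N / 2 * (N / 2 - 1))) (2 ^ (N / 2 - 1))

/-- The Lie algebra of the isometries of the form: the operators `X` with
`ψ(X x, y) + ψ(x, X y) = 0`. -/
def isom {M : HS K} (ψ : Form M) : Set M.ops.V :=
  {X | ∀ x y, ψ.ev (OprV.ev X x) y + ψ.ev x (OprV.ev X y) = 0}

/-- A pure Hodge structure `M` of level `d > 0` with full Hodge group: there is a polarisation `ψ`,
alternating for odd `d` and symmetric for even `d`, such that the Hodge structure on the Lie algebra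
`isom ψ` has only scalar endomorphisms. (This is the case if the Hodge group is the full symplectic
or special orthogonal group of `ψ`.) The level is odd, or the dimension is at least `10`. -/
structure HasFull {M : HS K} (d : ℕ) (ψ : Form M) : Prop where
  pos : 0 < d
  pure : ∃ w, M.IsPure w
  level : M.Level d
  extreme : ∃ p q : ℤ, p - q = d ∧ M.hodgeNum p q ≠ 0
  pol : IsPol ψ
  symm : ∀ x y, ψ.ev x y = (-1) ^ d * ψ.ev y x
  full : ∀ f : Map M.ops M.ops, IsHom f → (∀ X, f.ev X ∈ isom ψ) →
    ∃ c : K, ∀ X ∈ isom ψ, f.ev X = c • X
  large : Odd d ∨ 10 ≤ M.dim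

/-- A family of structures with full Hodge groups, of levels `d i`, without nonzero homomorphisms
between the Tate twists of different members. -/
structure FullFam {ι : Type} (V : ι → HS K) (d : ι → ℕ) : Prop where
  full : ∀ i, ∃ ψ : Form (V i), HasFull (d i) ψ
  apart : ∀ i j, i ≠ j → Apart (V i) (V j)

/-- The size of `V`, in comparison with `N`: the level `d` is odd, or the extreme Hodge number is at
least `5`, or the dimension is at least `10` and `N` is smaller than the `bound`. -/
def Big (d : ℕ) (V : HS K) (N : ℕ) : Prop :=
  Odd d ∨ (∃ p q : ℤ, p - q = d ∧ 5 ≤ V.hodgeNum p q) ∨ (10 ≤ V.dim ∧ N < bound V.dim)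

/-- The Hodge structure `U` is polarisable of level at most `d`, and `V` does not occur in it, up to
Tate twists; and `V` is big. -/
structure ByLevel (d : ℕ) (V U : HS K) : Prop where
  polarisable : U.Polarisable
  weights : U.Weights
  level : U.Level d
  apart : Apart V U
  big : Big d V U.dim

/-- The Hodge structure `U` is polarisable, its dimension is smaller than that of `V`, and the
dimension of `V` is at least `10`. -/
structure BySize (V U : HS K) : Prop where
  polarisable : U.Polarisable
  large : 10 ≤ V.dim
  dim : U.dim < V.dim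

/-- The Hodge structure `U` is polarisable, its dimension is smaller than the `bound` for `V`, and the
Hodge numbers of no Tate twist of `U` (with arbitrary pairs of integers) dominate those of `V`. -/
structure ByNumbers (V U : HS K) : Prop where
  polarisable : U.Polarisable
  large : 10 ≤ V.dim
  dim : U.dim < bound V.dim
  numbers : ∀ a b : ℤ, ∃ p q : ℤ, U.hodgeNum (p + a) (q + b) < V.hodgeNum p q

section raw

variable {A : Type} [Ring A] [Algebra K A]

/-- The elements of `S` belong to the subspace. -/
def Inside (G : Submodule K A) (S : Set A) : Prop := ∀ s ∈ S, s ∈ G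

/-- Every element is the sum of a linear combination of elements of the sets `C j` and of an element
of `S`. -/
def IsSum (K : Type) [Field K] {A : Type} [Ring A] [Algebra K A] (C : ℕ → Set A) (S : Set A) :
    Prop :=
  ∀ x, ∃ c ∈ Submodule.span K {c | ∃ j, c ∈ C j}, ∃ s ∈ S, x = c + s

end raw

/-- The image of the homomorphism. -/
def HA.image (X : HA K) {V : HS K} (f : Map V X.str) : Set X.A := Set.range f.ev

/-- The algebra is the sum of the span of the algebraic classes and of a copy of `V` in degree `n`:
the image of an injective homomorphism of Hodge structures. -/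
def HA.Model (X : HA K) (n : ℕ) (V : HS K) : Prop :=
  ∃ f : Map V X.str, IsHom f ∧ Function.Injective f.ev ∧ Inside (X.gr n) (X.image f) ∧
    IsSum K X.cl (X.image f)

/-- The sets `E U` of the exceptional indices are finite (`Few`), and `E U` does not contain an index
`i` which satisfies one of the conditions `ByLevel`, `BySize` and `ByNumbers` for `U`. -/
structure Exceptions {ι : Type} (V : ι → HS K) (d : ι → ℕ) (E : HS K → Set ι) : Prop where
  few : Few V E
  level : ∀ U i, ByLevel (d i) (V i) U → i ∉ E U
  size : ∀ U i, BySize (V i) U → i ∉ E U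
  numbers : ∀ U i, ByNumbers (V i) U → i ∉ E U

end K

variable {k : Type u} [Field k] {𝒱 : VarClass k}

/-- The power `X ^ (n + 1)`. -/
def pow (X : 𝒱.Obj) : ℕ → 𝒱.Obj
  | 0 => X
  | n + 1 => X.prod (pow X n)

variable {ops : CycleOps 𝒱} (T : Theory ops)

/-- The coefficients: the rational numbers. -/
def Theory.F : Type := T.W.K

instance Theory.fieldF : Field T.F := T.W.field

instance Theory.algF : Algebra T.F ℂ := T.alg

/-- The cohomology of the variety `X`. -/
def cohF (X : 𝒱.Obj) : HA T.F := coho T X

/-- `P` is a power `X ^ (n + 1)` of a variety `X` whose cohomology is the sum of algebraic classes and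
of `V` in the middle degree; if the dimension of `X` is even, then `n + 1 < dim V`. -/
def IsPower (V : HS T.F) (P : 𝒱.Obj) : Prop :=
  ∃ (X : 𝒱.Obj) (n : ℕ), (cohF T X).Model X.dim V ∧ (Even X.dim → n + 1 < V.dim) ∧ P = pow X n

/-- The list `L` of the pairs `(i_a, P_a)`: the indices are pairwise different and not in `E`, and
`H(P_a)` is generated by `V i_a` and by Hodge classes, or `P_a` is a power with respect to `V i_a`. -/
def Factors {ι : Type} (V : ι → HS T.F) (E : Set ι) (L : List (ι × 𝒱.Obj)) : Prop :=
  (L.map Prod.fst).Nodup ∧ ∀ x ∈ L, x.1 ∉ E ∧ ((cohF T x.2).Gens (V x.1) ∨ IsPower T (V x.1) x.2)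

end

end Pool.Agent.U233.HG.St
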