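import Pool.Agent.U233.PW.Comb2
import Pool.Agent.U233.TF.It

/-!
# Small representations of the orthogonal and symplectic Lie algebras
-/

set_option autoImplicit false
set_option linter.unusedSectionVars false

namespace Pool.Agent.U233.PW

open Module Pool.Agent.U233.TF Pool.Agent.U233.FG

noncomputable section

variable {K : Type} [Field K] [CharZero K]

section hyp

variable {V : Type} [AddCommGroup V] [Module K V] {ψ : V →ₗ[K] V →ₗ[K] K} {E : K} {n : ℕ}
  {e f : Fin n → V}

/-- the element of the Cartan subalgebra -/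
def th (ψ : V →ₗ[K] V →ₗ[K] K) (E : K) (e f : Fin n → V) : Module.End K V := ∑ i, hL ψ E e f i

variable (hE : E * E = 1) (hs : ∀ x y, ψ x y = E * ψ y x) (h : Hyp ψ e f)

include hE hs h

theorem th_mem : th ψ E e f ∈ skew ψ := Submodule.sum_mem _ fun i _ => hL_mem hE hs h i

theorem th_bs (i : Fin n) (s : Bool) : th ψ E e f (bs e f s i) = sg s • bs e f s i := by
  rw [th, LinearMap.sum_apply, Finset.sum_eq_single i]
  · rw [hL_bs hE hs h, dl, if_pos rfl, mul_one]
  · intro j _ hj
    rw [hL_bs hE hs h, dl, if_neg hj, mul_zero, zero_smul]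
  · exact fun h => absurd (Finset.mem_univ i) h

theorem th_e (i : Fin n) : th ψ E e f (e i) = e i := by
  have h1 := th_bs hE hs h i true
  simpa [bs, sg] using h1

theorem th_f (i : Fin n) : th ψ E e f (f i) = -f i := by
  have h1 := th_bs hE hs h i false
  simpa [bs, sg] using h1

omit hE hs h in
/-- the orthogonal complement is in degree `0` -/
theorem th_zero {v : V} (hv : ∀ i, ψ (e i) v = 0 ∧ ψ (f i) v = 0) : th ψ E e f v = 0 := by
  rw [th, LinearMap.sum_apply]
  refine Finset.sum_eq_zero fun i _ => ?_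
  rw [hL, LinearMap.neg_apply, SZ_apply, (hv i).1, (hv i).2, zero_smul, zero_smul, smul_zero,
    sub_zero, neg_zero]

/-- the decomposition of a vector -/
theorem hyp_dec (v : V) : ∃ v₀, (∀ i, ψ (e i) v₀ = 0 ∧ ψ (f i) v₀ = 0) ∧
    v = ∑ i, (E * ψ (f i) v) • e i + ∑ i, ψ (e i) v • f i + v₀ := by
  refine ⟨v - (∑ i, (E * ψ (f i) v) • e i + ∑ i, ψ (e i) v • f i), fun l => ?_, by abel⟩
  have hfe : ∀ i, ψ (f i) (e i) = E := fun i => by rw [hs, h.one, mul_one]
  have hfe0 : ∀ i j, i ≠ j → ψ (f i) (e j) = 0 := fun i j hij => by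
    rw [hs, h.zero j i hij.symm, mul_zero]
  constructor
  · rw [map_sub, map_add, map_sum, map_sum, Finset.sum_eq_zero, zero_add,
      Finset.sum_eq_single l]
    · rw [map_smul, h.one, smul_eq_mul, mul_one, sub_self]
    · intro i _ hi
      rw [map_smul, h.zero l i hi.symm, smul_zero]
    · exact fun h => absurd (Finset.mem_univ l) h
    · intro i _
      rw [map_smul, h.ee, smul_zero]
  · rw [map_sub, map_add, map_sum, map_sum, Finset.sum_eq_single l, Finset.sum_eq_zero, add_zero]
    · rw [map_smul, hfe, smul_eq_mul]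
      linear_combination -(ψ (f l) v) * hE
    · intro i _
      rw [map_smul, h.ff, smul_zero]
    · intro i _ hi
      rw [map_smul, hfe0 l i hi.symm, smul_zero]
    · exact fun h => absurd (Finset.mem_univ l) h

/-- the decomposition into degrees -/
theorem hyp_dec' (v : V) : ∃ a b v₀, th ψ E e f a = a ∧ th ψ E e f b = -b ∧ th ψ E e f v₀ = 0 ∧
    (∀ i, ψ (e i) v₀ = 0 ∧ ψ (f i) v₀ = 0) ∧ v = a + b + v₀ := by
  obtain ⟨v₀, h0, h1⟩ := hyp_dec hE hs h v
  refine ⟨_, _, v₀, ?_, ?_, th_zero h0, h0, h1⟩
  · rw [map_sum]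
    exact Finset.sum_congr rfl fun i _ => by rw [map_smul, th_e hE hs h]
  · rw [map_sum, ← Finset.sum_neg_distrib]
    exact Finset.sum_congr rfl fun i _ => by rw [map_smul, th_f hE hs h, smul_neg]

theorem th_dia : Dia (th ψ E e f) := by
  intro v
  obtain ⟨a, b, v₀, h1, h2, h3, -, rfl⟩ := hyp_dec' hE hs h v
  refine Submodule.add_mem _ (Submodule.add_mem _ (Submodule.subset_span ⟨1, ?_⟩)
    (Submodule.subset_span ⟨-1, ?_⟩)) (Submodule.subset_span ⟨0, ?_⟩)
  · rw [h1, Int.cast_one, one_smul]
  · rw [h2, Int.cast_neg, Int.cast_one, neg_smul, one_smul]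
  · rw [h3, Int.cast_zero, zero_smul]

theorem th_cube (v : V) : th ψ E e f (th ψ E e f (th ψ E e f v)) = th ψ E e f v := by
  obtain ⟨a, b, v₀, h1, h2, h3, -, rfl⟩ := hyp_dec' hE hs h v
  simp only [map_add, map_neg, h1, h2, h3, neg_neg, map_zero]

theorem th_lev (k : ℤ) (hk : 1 < k ∨ k < -1) (v : V) (hv : v ∈ wt (th ψ E e f) k) : v = 0 := by
  have h1 := th_cube hE hs h v
  rw [mem_wt.1 hv, map_smul, mem_wt.1 hv, map_smul, map_smul, mem_wt.1 hv, smul_smul,
    smul_smul] at h1
  have h2 : (((k * k * k - k : ℤ)) : K) • v = 0 := by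
    push_cast
    rw [sub_smul, h1, sub_self]
  refine (smul_eq_zero.1 h2).resolve_left fun h3 => ?_
  have h4 : k * k * k - k = 0 := by exact_mod_cast h3
  have h5 : k * (k - 1) * (k + 1) = 0 := by linear_combination h4
  rcases mul_eq_zero.1 h5 with h6 | h6
  · rcases mul_eq_zero.1 h6 with h7 | h7 <;> omega
  · omega

/-- the hyperbolic family is linearly independent -/
theorem hyp_li : LinearIndependent K (Sum.elim e f) := by
  rw [Fintype.linearIndependent_iff]
  intro g hg
  rw [Fintype.sum_sum_type] at hg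
  simp only [Sum.elim_inl, Sum.elim_inr] at hg
  have hfe : ∀ i, ψ (f i) (e i) = E := fun i => by rw [hs, h.one, mul_one]
  have hfe0 : ∀ i j, i ≠ j → ψ (f i) (e j) = 0 := fun i j hij => by
    rw [hs, h.zero j i hij.symm, mul_zero]
  have hE0 : E ≠ 0 := by
    rintro rfl
    rw [zero_mul] at hE
    exact zero_ne_one hE
  rintro (i | i)
  · have h1 := congrArg (ψ (f i)) hg
    rw [map_add, map_sum, map_sum, map_zero, Finset.sum_eq_single i, Finset.sum_eq_zero,
      add_zero, map_smul, hfe, smul_eq_mul] at h1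
    · exact (mul_eq_zero.1 h1).resolve_right hE0
    · intro j _
      rw [map_smul, h.ff, smul_zero]
    · intro j _ hj
      rw [map_smul, hfe0 i j hj.symm, smul_zero]
    · exact fun h => absurd (Finset.mem_univ i) h
  · have h1 := congrArg (ψ (e i)) hg
    rw [map_add, map_sum, map_sum, map_zero, Finset.sum_eq_zero, zero_add,
      Finset.sum_eq_single i, map_smul, h.one, smul_eq_mul, mul_one] at h1
    · exact h1
    · intro j _ hj
      rw [map_smul, h.zero i j hj.symm, smul_zero]
    · exact fun h => absurd (Finset.mem_univ i) h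
    · intro j _
      rw [map_smul, h.ee, smul_zero]

theorem hyp_dim [FiniteDimensional K V] : 2 * n ≤ finrank K V := by
  have h1 := (hyp_li hE hs h).fintype_card_le_finrank
  rw [Fintype.card_sum, Fintype.card_fin] at h1
  omega

theorem top_dim [FiniteDimensional K V] : n ≤ finrank K (wt (th ψ E e f) 1) := by
  have h1 : LinearIndependent K e := (hyp_li hE hs h).comp Sum.inl Sum.inl_injective
  have h2 : LinearIndependent K (fun i => (⟨e i, by
      rw [mem_wt, th_e hE hs h, Int.cast_one, one_smul]⟩ : wt (th ψ E e f) 1)) := by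
    refine LinearIndependent.of_comp (wt (th ψ E e f) 1).subtype ?_
    exact h1
  have h3 := h2.fintype_card_le_finrank
  rwa [Fintype.card_fin] at h3

/-- in the symplectic case there is no part of degree zero -/
theorem zero_alt [FiniteDimensional K V] (halt : ∀ x, ψ x x = 0)
    (hnd : ∀ x, (∀ y, ψ x y = 0) → x = 0) (hdim : finrank K V < 2 * n + 2) (v : V)
    (hv : v ∈ wt (th ψ E e f) 0) : v = 0 := by
  obtain ⟨a, b, v₀, h1, h2, h3, h4, rfl⟩ := hyp_dec' hE hs h v
  have h5 := mem_wt.1 hv
  rw [Int.cast_zero, zero_smul, map_add, map_add, h1, h2, h3, add_zero] at h5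
  have h6 := congrArg (th ψ E e f) h5
  rw [map_add, map_neg, h1, h2, neg_neg, map_zero] at h6
  have h7 : a = 0 := by
    have h8 : (2 : K) • a = 0 := by
      rw [two_smul]
      have h9 : a + a = (a + -b) + (a + b) := by abel
      rw [h9, h5, h6, add_zero]
    exact (smul_eq_zero.1 h8).resolve_left two_ne_zero
  have h8 : b = 0 := by rwa [h7, zero_add] at h6
  subst h7 h8
  rw [add_zero, zero_add]
  by_contra h0
  obtain ⟨y, hy⟩ : ∃ y, ψ v₀ y ≠ 0 := by
    by_contra hall
    push Not at hall
    exact h0 (hnd _ hall)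
  obtain ⟨y₀, hy0, hy1⟩ := hyp_dec hE hs h y
  have hv' : ∀ i, ψ v₀ (e i) = 0 ∧ ψ v₀ (f i) = 0 := fun i => by
    rw [hs v₀, hs v₀, (h4 i).1, (h4 i).2, mul_zero]
    exact ⟨rfl, rfl⟩
  have hyy : ψ v₀ y₀ ≠ 0 := by
    intro h9
    apply hy
    rw [hy1, map_add, map_add, map_sum, map_sum, h9, add_zero, Finset.sum_eq_zero,
      Finset.sum_eq_zero, add_zero]
    · intro i _
      rw [map_smul, (hv' i).2, smul_zero]
    · intro i _
      rw [map_smul, (hv' i).1, smul_zero]
  have hy' : ∀ i, ψ y₀ (e i) = 0 ∧ ψ y₀ (f i) = 0 := fun i => by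
    rw [hs y₀, hs y₀, (hy0 i).1, (hy0 i).2, mul_zero]
    exact ⟨rfl, rfl⟩
  have hH : Hyp ψ (Fin.cons v₀ e : Fin (n + 1) → V)
      (Fin.cons ((ψ v₀ y₀)⁻¹ • y₀) f : Fin (n + 1) → V) := by
    refine ⟨fun i j => ?_, fun i j => ?_, fun i => ?_, fun i j => ?_⟩
    · refine Fin.cases ?_ (fun i => ?_) i <;> refine Fin.cases ?_ (fun j => ?_) j
      · exact halt _
      · exact (hv' _).1
      · exact (h4 _).1
      · exact h.ee i j
    · refine Fin.cases ?_ (fun i => ?_) i <;> refine Fin.cases ?_ (fun j => ?_) j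
      · exact halt _
      · simp only [Fin.cons_zero, Fin.cons_succ, map_smul, LinearMap.smul_apply, (hy' _).2,
          smul_zero]
      · simp only [Fin.cons_zero, Fin.cons_succ, map_smul, (hy0 _).2, smul_zero]
      · exact h.ff i j
    · refine Fin.cases ?_ (fun i => ?_) i
      · simp only [Fin.cons_zero, map_smul, smul_eq_mul]
        exact inv_mul_cancel₀ hyy
      · exact h.one i
    · refine Fin.cases ?_ (fun i => ?_) i <;> refine Fin.cases ?_ (fun j => ?_) j
      · exact fun h => absurd rfl h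
      · exact fun _ => (hv' _).2
      · intro _
        simp only [Fin.cons_zero, Fin.cons_succ, map_smul, (hy0 _).1, smul_zero]
      · exact fun hij => h.zero i j fun h => hij (congrArg Fin.succ h)
  have h9 := hyp_dim hE hs hH
  omega

end hyp

section gen

variable {U : Type} [AddCommGroup U] [Module K U] [FiniteDimensional K U]

/-- joint eigenvectors for different eigenvalues -/
theorem joint_li {n : ℕ} {H : Fin n → Module.End K U} {κ : Type} [Fintype κ]
    {F : κ → Fin n → ℤ} (hF : Function.Injective F) {u : κ → U} (hu : ∀ a, u a ≠ 0)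
    (hH : ∀ a l, H l (u a) = ((F a l : K) / 2) • u a) : Fintype.card κ ≤ finrank K U := by
  classical
  have key : ∀ (s : Finset κ) (g : κ → K), ∑ a ∈ s, g a • u a = 0 → ∀ a ∈ s, g a = 0 := by
    intro s
    induction s using Finset.induction_on with
    | empty => exact fun _ _ a ha => absurd ha (Finset.notMem_empty a)
    | insert a₀ s ha₀ ih =>
      intro g hg
      have h1 : ∀ b ∈ s, g b = 0 := by
        intro b hb
        have hne : F b ≠ F a₀ := fun h => ha₀ (hF h ▸ hb)
        obtain ⟨l, hl⟩ : ∃ l, F b l ≠ F a₀ l := by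
          by_contra hall
          push Not at hall
          exact hne (funext hall)
        have h2 := congrArg (fun x => H l x - ((F a₀ l : K) / 2) • x) hg
        simp only [map_zero, smul_zero, sub_zero] at h2
        rw [map_sum, Finset.smul_sum, ← Finset.sum_sub_distrib, Finset.sum_insert ha₀, map_smul,
          hH, smul_comm, sub_self, zero_add] at h2
        have h3 : ∑ a ∈ s, (g a * ((F a l : K) / 2 - (F a₀ l : K) / 2)) • u a = 0 := by
          rw [← h2]
          refine Finset.sum_congr rfl fun a _ => ?_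
          rw [map_smul, hH]
          module
        have h4 := ih _ h3 b hb
        refine (mul_eq_zero.1 h4).resolve_right fun h5 => hl ?_
        have h6 : (F b l : K) = F a₀ l := by
          have h7 : (F b l : K) / 2 = (F a₀ l : K) / 2 := sub_eq_zero.1 h5
          rwa [div_left_inj' two_ne_zero] at h7
        exact_mod_cast h6
      intro a ha
      rcases Finset.mem_insert.1 ha with rfl | ha
      · rw [Finset.sum_insert ha₀, Finset.sum_eq_zero fun b hb => by rw [h1 b hb, zero_smul],
          add_zero] at hg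
        exact (smul_eq_zero.1 hg).resolve_right (hu a)
      · exact h1 a ha
  have hli : LinearIndependent K u := Fintype.linearIndependent_iff.2 fun g hg a =>
    key Finset.univ g hg a (Finset.mem_univ a)
  exact hli.fintype_card_le_finrank

/-- a generalized eigenvector gives an eigenvector -/
theorem eig_of_gen {η : Module.End K U} {μ : K} {x : U} (hx : x ∈ η.maxGenEigenspace μ)
    (hx0 : x ≠ 0) : η.HasEigenvalue μ := by
  classical
  rw [Module.End.mem_maxGenEigenspace] at hx
  have h0 : Nat.find hx ≠ 0 := by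
    intro h0
    have h1 := Nat.find_spec hx
    rw [h0] at h1
    exact hx0 h1
  obtain ⟨l, hl⟩ := Nat.exists_eq_succ_of_ne_zero h0
  have h1 : ((η - μ • (1 : Module.End K U)) ^ (l + 1)) x = 0 := by
    have h1 := Nat.find_spec hx
    rwa [hl] at h1
  have h2 : ((η - μ • (1 : Module.End K U)) ^ l) x ≠ 0 := Nat.find_min hx (by omega)
  refine Module.End.hasEigenvalue_of_hasEigenvector
    (x := ((η - μ • (1 : Module.End K U)) ^ l) x) ⟨Module.End.mem_eigenspace_iff.2 ?_, h2⟩
  rw [pow_succ', Module.End.mul_apply, LinearMap.sub_apply, LinearMap.smul_apply,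
    Module.End.one_apply] at h1
  exact sub_eq_zero.1 h1

/-- the generalized weight spaces -/
def gw (η : Module.End K U) (k : ℤ) : Submodule K U := η.maxGenEigenspace (k : K)

theorem gw_dec [IsAlgClosed K] {η : Module.End K U}
    (h : ∀ μ, η.HasEigenvalue μ → ∃ k : ℤ, μ = k) : Dec (gw η) := by
  intro x
  have h1 : x ∈ ⨆ k : ℤ, gw η k := by
    have h2 : (⨆ μ : K, η.maxGenEigenspace μ) ≤ ⨆ k : ℤ, gw η k := by
      refine iSup_le fun μ => ?_
      by_cases hμ : η.HasEigenvalue μ
      · obtain ⟨k, rfl⟩ := h μ hμ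
        exact le_iSup (gw η) k
      · intro y hy
        by_cases hy0 : y = 0
        · rw [hy0]
          exact Submodule.zero_mem _
        · exact absurd (eig_of_gen hy hy0) hμ
    apply h2
    rw [Module.End.iSup_maxGenEigenspace_eq_top]
    trivial
  obtain ⟨f, hf, hx⟩ := (Submodule.mem_iSup_iff_exists_finsupp _ _).1 h1
  exact ⟨f.support, f, hf, hx.symm⟩

/-- operators of degree `k` -/
theorem gw_deg {η X : Module.End K U} {k m : ℤ} (h : η * X - X * η = (k : K) • X) {u : U}
    (hu : u ∈ gw η m) : X u ∈ gw η (k + m) := by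
  rw [gw, Module.End.mem_maxGenEigenspace] at hu ⊢
  obtain ⟨N, hN⟩ := hu
  refine ⟨N, ?_⟩
  have key : ∀ N : ℕ, ((η - ((k + m : ℤ) : K) • (1 : Module.End K U)) ^ N) * X =
      X * (η - (m : K) • (1 : Module.End K U)) ^ N := by
    intro N
    induction N with
    | zero => rw [pow_zero, pow_zero, one_mul, mul_one]
    | succ N ih =>
      rw [pow_succ', mul_assoc, ih, pow_succ', ← mul_assoc, ← mul_assoc]
      congr 1
      have h2 : η * X = X * η + (k : K) • X := by rw [← h]; abel
      rw [sub_mul, h2, mul_sub, smul_mul_assoc, mul_smul_comm, one_mul, mul_one]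
      push_cast
      module
  rw [← Module.End.mul_apply, key, Module.End.mul_apply, hN, map_zero]

end gen

end

end Pool.Agent.U233.PW
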