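import Pool.Agent.U233.TF.Pow2

/-!
# Representations such that the skew operators are strongly irreducible
-/

set_option autoImplicit false
set_option linter.unusedSectionVars false

open CategoryTheory AlgebraicGeometry Finset

universe u

namespace Pool.Agent.U233.PW

open Module Pool.Agent.N179.GR Pool.Agent.U233.FG Pool.Agent.U233.TF

noncomputable section

variable {K : Type} [Field K] {Γ : Type} [Group Γ]
  {V : Type} [AddCommGroup V] [Module K V] [FiniteDimensional K V]
  {r : Γ →* Module.End K V} {ψ : V →ₗ[K] V →ₗ[K] K} {μ : Γ →* Kˣ}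

/-- A representation `V` with a form such that the skew operators form a strongly irreducible
representation. -/
structure FullN (r : Γ →* Module.End K V) (ψ : V →ₗ[K] V →ₗ[K] K) (μ : Γ →* Kˣ) : Prop where
  nd : ∀ x, (∀ y, ψ x y = 0) → x = 0
  inv : ∀ g x y, ψ (r g x) (r g y) = (μ g : K) * ψ x y
  irr : ∀ Δ : Subgroup Γ, Δ.FiniteIndex → ∀ A, (∀ g ∈ Δ, ∀ X ∈ A, cj r g X ∈ A) →
    A ≤ TF.skew ψ → A = ⊥ ∨ A = TF.skew ψ
  big : ((∀ x y, ψ x y = -ψ y x) ∧ 1 ≤ finrank K V) ∨
    ((∀ x y, ψ x y = ψ y x) ∧ 3 ≤ finrank K V)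

namespace FullN

theorem irr' (h : FullN r ψ μ) (A : Submodule K (Module.End K V)) (hA : Stab (cj r) A)
    (hle : A ≤ TF.skew ψ) : A = ⊥ ∨ A = TF.skew ψ :=
  h.irr ⊤ inferInstance A (fun g _ X hX => hA g X hX) hle

variable [CharZero K]

theorem exists_ne (h : FullN r ψ μ) : ∃ x : V, x ≠ 0 := by
  have h1 : 0 < finrank K V := by
    rcases h.big with ⟨-, h1⟩ | ⟨-, h1⟩ <;> omega
  have h2 : Nontrivial V := Module.finrank_pos_iff.1 h1
  exact _root_.exists_ne 0

/-- two independent skew operators -/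
theorem exists_two (h : FullN r ψ μ) : ∃ X ∈ TF.skew ψ, ∃ Y ∈ TF.skew ψ,
    ∀ a b : K, a • X + b • Y = 0 → a = 0 ∧ b = 0 := by
  rcases h.big with ⟨hs, h1⟩ | ⟨hs, h3⟩
  · have hs' : ∀ x y, ψ x y = (-1) * ψ y x := fun x y => by rw [hs, neg_one_mul]
    obtain ⟨x, hx⟩ := h.exists_ne
    obtain ⟨y, hy⟩ : ∃ y, ψ x y ≠ 0 := by
      by_contra hall
      push Not at hall
      exact hx (h.nd x hall)
    have hy' : ψ y x ≠ 0 := by
      rw [hs]
      exact neg_ne_zero.2 hy
    have hy0 : y ≠ 0 := by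
      rintro rfl
      exact hy (map_zero _)
    have hxx : ψ x x = 0 := by
      have h2 := hs x x
      have h3 : (2 : K) * ψ x x = 0 := by linear_combination h2
      exact (mul_eq_zero.1 h3).resolve_left two_ne_zero
    have hyy : ψ y y = 0 := by
      have h2 := hs y y
      have h3 : (2 : K) * ψ y y = 0 := by linear_combination h2
      exact (mul_eq_zero.1 h3).resolve_left two_ne_zero
    refine ⟨_, SZ_mem (by norm_num) hs' x x, _, SZ_mem (by norm_num) hs' y y, fun a b hab => ?_⟩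
    constructor
    · have h2 := LinearMap.congr_fun hab y
      rw [LinearMap.add_apply, LinearMap.smul_apply, LinearMap.smul_apply, SZ_apply, SZ_apply, hyy,
        zero_smul, smul_zero, sub_zero, smul_zero, add_zero, neg_one_smul, sub_neg_eq_add,
        ← add_smul, smul_smul, LinearMap.zero_apply] at h2
      have h3 := (smul_eq_zero.1 h2).resolve_right hx
      refine (mul_eq_zero.1 h3).resolve_right ?_
      rw [← two_mul]
      exact mul_ne_zero two_ne_zero hy
    · have h2 := LinearMap.congr_fun hab x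
      rw [LinearMap.add_apply, LinearMap.smul_apply, LinearMap.smul_apply, SZ_apply, SZ_apply, hxx,
        zero_smul, smul_zero, sub_zero, smul_zero, zero_add, neg_one_smul, sub_neg_eq_add,
        ← add_smul, smul_smul, LinearMap.zero_apply] at h2
      have h3 := (smul_eq_zero.1 h2).resolve_right hy0
      refine (mul_eq_zero.1 h3).resolve_right ?_
      rw [← two_mul]
      exact mul_ne_zero two_ne_zero hy'
  · have hs' : ∀ x y, ψ x y = 1 * ψ y x := fun x y => by rw [hs, one_mul]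
    obtain ⟨b, hb⟩ : ∃ b : Fin 3 → V, LinearIndependent K b :=
      exists_linearIndependent_of_le_finrank h3
    refine ⟨_, SZ_mem (by norm_num) hs' (b 0) (b 1), _, SZ_mem (by norm_num) hs' (b 0) (b 2),
      fun p q hpq => ?_⟩
    obtain ⟨v, hv⟩ : ∃ v, ψ (b 0) v ≠ 0 := by
      by_contra hall
      push Not at hall
      exact hb.ne_zero 0 (h.nd _ hall)
    have h2 := LinearMap.congr_fun hpq v
    rw [LinearMap.add_apply, LinearMap.smul_apply, LinearMap.smul_apply, SZ_apply, SZ_apply,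
      LinearMap.zero_apply] at h2
    have h4 := Fintype.linearIndependent_iff.1 hb
      ![-(p * ψ (b 1) v) - q * ψ (b 2) v, p * ψ (b 0) v, q * ψ (b 0) v] (by
      rw [Fin.sum_univ_three]
      simp only [Matrix.cons_val_zero, Matrix.cons_val_one, Matrix.cons_val]
      refine Eq.trans ?_ h2
      module)
    have h5 := h4 1
    have h6 := h4 2
    simp only [Matrix.cons_val_one, Matrix.cons_val] at h5 h6
    exact ⟨(mul_eq_zero.1 h5).resolve_right hv, (mul_eq_zero.1 h6).resolve_right hv⟩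

theorem noSemi (h : FullN r ψ μ) {X : Module.End K V} (hX : X ∈ TF.skew ψ)
    (hE : (N179.GR.full (Module.End K V) (cj r)).Eig X) : X = 0 := by
  by_contra hX0
  obtain ⟨Δ, hΔ, hg⟩ := hE
  have h1 := h.irr Δ hΔ (Submodule.span K {X}) (by
    intro g hgΔ Y hY
    obtain ⟨c, rfl⟩ := Submodule.mem_span_singleton.1 hY
    obtain ⟨a, ha⟩ := hg g hgΔ
    have ha' : cj r g X = a • X := ha
    rw [map_smul, ha']
    exact Submodule.smul_mem _ _ (Submodule.smul_mem _ _ (Submodule.mem_span_singleton_self _)))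
    ((Submodule.span_singleton_le_iff_mem _ _).2 hX)
  rcases h1 with h1 | h1
  · exact hX0 (Submodule.span_singleton_eq_bot.1 h1)
  obtain ⟨Y, hY, Z, hZ, hYZ⟩ := h.exists_two
  rw [← h1] at hY hZ
  obtain ⟨a, rfl⟩ := Submodule.mem_span_singleton.1 hY
  obtain ⟨b, rfl⟩ := Submodule.mem_span_singleton.1 hZ
  have h2 := hYZ b (-a) (by module)
  have h3 := hYZ 1 1 (by rw [neg_eq_zero.1 h2.2, h2.1]; module)
  exact one_ne_zero h3.1

theorem skewStab (h : FullN r ψ μ) : Stab (cj r) (TF.skew ψ) := TF.skew_stab h.inv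

/-- **The core.** -/
theorem core_eq [IsAlgClosed K] (h : FullN r ψ μ) :
    core (N179.GR.full V r) = TF.skew ψ := by
  refine (h.irr' _ (core_stab r) (TF.core_le_skew h.inv)).resolve_left fun hbot => ?_
  obtain ⟨k₀, hk₀⟩ := exists_stable (N179.GR.full V r) ∅
  have hkill : ∀ D : Der K Γ, InDer k₀ D → D.Θ (N179.GR.full V r) = 0 := by
    intro D hD
    have h1 : D.Θ (N179.GR.full V r) ∈ ak k₀ (N179.GR.full V r) ∅ := ⟨D, hD, by simp, rfl⟩
    rw [hk₀ k₀ le_rfl] at h1
    have h2 : D.Θ (N179.GR.full V r) ∈ core (N179.GR.full V r) := h1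
    rw [hbot] at h2
    exact (Submodule.mem_bot K).1 h2
  have hst := h.skewStab
  have hss : SemiS (subR (cj r) (TF.skew ψ) hst) := by
    intro A hA
    have h1 := h.irr' (A.map (TF.skew ψ).subtype) (by
      rintro g _ ⟨x, hx, rfl⟩
      exact ⟨_, hA g x hx, rfl⟩) (by
      rintro _ ⟨x, -, rfl⟩
      exact x.2)
    rcases h1 with h1 | h1
    · refine ⟨⊤, fun _ _ _ => trivial, ?_⟩
      have h2 : A = ⊥ := by
        rw [eq_bot_iff]
        intro x hx
        have h3 : (x : Module.End K V) ∈ A.map (TF.skew ψ).subtype := ⟨x, hx, rfl⟩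
        rw [h1, Submodule.mem_bot] at h3
        exact (Submodule.mem_bot K).2 (Subtype.ext h3)
      rw [h2]
      exact isCompl_bot_top
    · refine ⟨⊥, fun g x hx => ?_, ?_⟩
      · rw [Submodule.mem_bot] at hx
        rw [hx, map_zero]
        exact Submodule.zero_mem _
      · have h2 : A = ⊤ := by
          rw [eq_top_iff]
          rintro ⟨x, hx⟩ -
          rw [← h1] at hx
          obtain ⟨y, hy, h3⟩ := hx
          have h4 : y = ⟨x, ‹_›⟩ := Subtype.ext h3
          rwa [h4] at hy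
        rw [h2]
        exact isCompl_top_bot
  have h1 := le_eigSpan hss (A := ⊤) (fun _ _ _ => trivial) (k := k₀) fun D hD x _ => by
    refine Subtype.ext ?_
    rw [sub_Θ, cj_Θ, hkill D hD, zero_mul, mul_zero, sub_zero]
    rfl
  have h2 : eigSpan (subR (cj r) (TF.skew ψ) hst) ⊤ = ⊥ := by
    unfold eigSpan
    rw [Submodule.span_eq_bot]
    rintro x ⟨-, hx⟩
    exact Subtype.ext (h.noSemi x.2 (eig_sub hx))
  rw [h2] at h1
  obtain ⟨X, hX, Y, hY, hXY⟩ := h.exists_two
  have h3 : (⟨X, hX⟩ : TF.skew ψ) ∈ (⊥ : Submodule K (TF.skew ψ)) := h1 trivial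
  have h4 : X = 0 := congrArg Subtype.val ((Submodule.mem_bot K).1 h3)
  have h5 := hXY 1 0 (by rw [h4]; module)
  exact one_ne_zero h5.1

/-- the representation is irreducible under the skew operators -/
theorem irrV (h : FullN r ψ μ) {A : Submodule K V} (hA : ∀ X ∈ TF.skew ψ, ∀ a ∈ A, X a ∈ A) :
    A = ⊥ ∨ A = ⊤ := by
  by_contra hcon
  push Not at hcon
  obtain ⟨hbot, htop⟩ := hcon
  obtain ⟨a, ha, ha0⟩ := Submodule.exists_mem_ne_zero_of_ne_bot hbot
  obtain ⟨x, hx⟩ : ∃ x, x ∉ A := by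
    by_contra hall
    push Not at hall
    exact htop (eq_top_iff.2 fun x _ => hall x)
  rcases h.big with ⟨hs, -⟩ | ⟨hs, h5⟩
  · have hs' : ∀ x y, ψ x y = (-1) * ψ y x := fun x y => by rw [hs, neg_one_mul]
    have key : ∀ y, ψ y a ≠ 0 → y ∈ A := by
      intro y hy
      have h1 := hA _ (SZ_mem (by norm_num) hs' y y) a ha
      rw [SZ_apply, neg_one_smul, sub_neg_eq_add, ← two_smul K, smul_smul] at h1
      have h2 := A.smul_mem (2 * ψ y a)⁻¹ h1
      rwa [smul_smul, inv_mul_cancel₀ (mul_ne_zero two_ne_zero hy), one_smul] at h2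
    obtain ⟨z, hz⟩ : ∃ z, ψ z a ≠ 0 := by
      by_contra hall
      push Not at hall
      exact ha0 (nd2 h.nd hs' a hall)
    by_cases hxa : ψ x a = 0
    · have h1 : x + z ∈ A := key _ (by
        rw [map_add, LinearMap.add_apply, hxa, zero_add]
        exact hz)
      exact hx ((A.add_mem_iff_left (key z hz)).1 h1)
    · exact hx (key x hxa)
  · have hs' : ∀ x y, ψ x y = 1 * ψ y x := fun x y => by rw [hs, one_mul]
    have perp : ∀ b ∈ A, b ≠ 0 → ∀ y, ψ y b = 0 → y ∈ A := by
      intro b hb hb0 y hy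
      obtain ⟨z, hz⟩ : ∃ z, ψ z b ≠ 0 := by
        by_contra hall
        push Not at hall
        exact hb0 (nd2 h.nd hs' b hall)
      have h1 := hA _ (SZ_mem (by norm_num) hs' z y) b hb
      rw [SZ_apply, hy, zero_smul, smul_zero, sub_zero] at h1
      have h2 := A.smul_mem (ψ z b)⁻¹ h1
      rwa [smul_smul, inv_mul_cancel₀ hz, one_smul] at h2
    have hinj : Function.Injective ((ψ x).domRestrict A) := by
      rw [injective_iff_map_eq_zero]
      intro b hb
      by_contra hb0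
      exact hx (perp b b.2 (fun h0 => hb0 (Subtype.ext h0)) x hb)
    have h1 : finrank K A ≤ 1 := by
      have := LinearMap.finrank_le_finrank_of_injective hinj
      rwa [finrank_self] at this
    have h2 : LinearMap.ker (ψ a) ≤ A := by
      intro y hy
      refine perp a ha ha0 y ?_
      rw [hs]
      exact hy
    have h3 : finrank K (LinearMap.ker (ψ a)) ≤ 1 := (Submodule.finrank_mono h2).trans h1
    have h4 := LinearMap.finrank_range_add_finrank_ker (ψ a)
    have h6 : finrank K (LinearMap.range (ψ a)) ≤ 1 := by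
      have := Submodule.finrank_le (LinearMap.range (ψ a))
      rwa [finrank_self] at this
    omega

/-- **The representation is semisimple.** -/
theorem semiS [IsAlgClosed K] (h : FullN r ψ μ) : SemiS r := by
  intro A hA
  have h1 := h.irrV (A := A) fun X hX a ha => by
    rw [← h.core_eq] at hX
    obtain ⟨D, -, rfl⟩ := mem_core.1 hX 1
    exact Θ_mem D hA ha
  rcases h1 with rfl | rfl
  · exact ⟨⊤, fun _ _ _ => trivial, isCompl_bot_top⟩
  · refine ⟨⊥, fun g x hx => ?_, isCompl_top_bot⟩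
    rw [Submodule.mem_bot] at hx
    rw [hx, map_zero]
    exact Submodule.zero_mem _

/-- **Schur's lemma for the forms.** -/
theorem schur [IsAlgClosed K] (h : FullN r ψ μ) {ψ' : V →ₗ[K] V →ₗ[K] K}
    (hψ' : ∀ X ∈ TF.skew ψ, ∀ x y, ψ' (X x) y + ψ' x (X y) = 0) : ∃ c : K, ψ' = c • ψ := by
  have hinj : Function.Injective ψ := by
    rw [injective_iff_map_eq_zero]
    intro x hx
    exact h.nd x fun y => by rw [hx, LinearMap.zero_apply]
  let e : V ≃ₗ[K] Module.Dual K V := LinearEquiv.ofBijective ψ ⟨hinj,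
    (LinearMap.injective_iff_surjective_of_finrank_eq_finrank
      (Subspace.dual_finrank_eq).symm).1 hinj⟩
  let A : Module.End K V := e.symm.toLinearMap ∘ₗ ψ'
  have hA : ∀ x, ψ (A x) = ψ' x := fun x => e.apply_symm_apply (ψ' x)
  have hcomm : ∀ X ∈ TF.skew ψ, ∀ x, A (X x) = X (A x) := by
    intro X hX x
    apply hinj
    refine LinearMap.ext fun y => ?_
    rw [hA]
    have h1 := hψ' X hX x y
    have h2 := hX (A x) y
    rw [hA] at h2
    linear_combination h1 - h2
  have hnt : Nontrivial V := by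
    obtain ⟨x, hx⟩ := h.exists_ne
    exact nontrivial_of_ne x 0 hx
  obtain ⟨c, hc⟩ := Module.End.exists_eigenvalue A
  have h1 : A.eigenspace c = ⊤ := by
    refine (h.irrV (A := A.eigenspace c) fun X hX a ha => ?_).resolve_left hc
    rw [Module.End.mem_eigenspace_iff] at ha ⊢
    rw [hcomm X hX, ha, map_smul]
  refine ⟨c, LinearMap.ext fun x => ?_⟩
  have h2 : x ∈ A.eigenspace c := h1 ▸ Submodule.mem_top
  rw [Module.End.mem_eigenspace_iff] at h2
  rw [← hA, h2, map_smul]
  rfl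

end FullN

section trans

open Pool.Agent.H914 Pool.Agent.H914.VarClass Pool.Agent.H914.VarClass.Obj
  Pool.Agent.H914.WeilCohomology Pool.Agent.H281R3.HT Pool.Agent.W552 Pool.Agent.TH125.Gal

variable {k : Type u} [Field k] {𝒱 : VarClass k} {ops : CycleOps 𝒱}
  {W : WeilCohomology.{u, 0} ops} {Γ : Type} [Group Γ]
  {P : Polarized 𝒱} {Z : 𝒱.Obj} {χ : Γ →* W.Kˣ}
  {ρ : Γ →* (W.H P.X ≃ₐ[W.K] W.H P.X)} {τ : Γ →* (W.H Z ≃ₐ[W.K] W.H Z)}
  [IsAlgClosed W.K]
  {V : Type} [AddCommGroup V] [Module W.K V] [FiniteDimensional W.K V]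
  {r : Γ →* Module.End W.K V} {f : V →ₗ[W.K] W.H P.X}
  {ψ : V →ₗ[W.K] V →ₗ[W.K] W.K} {μ : Γ →* W.Kˣ}

/-- **The skew operators on the transcendental part.** -/
theorem allSkewN (hf : TransF χ P.X ρ r f) (hV : FullN r ψ μ)
    (hspl : Spl (full V r) {full _ (algR τ)}) : AllSkew (P := P) ρ τ := by
  -- the form on `V`
  let ψ' : V →ₗ[W.K] V →ₗ[W.K] W.K := (bil W P.X).compl₁₂ f f
  have hψ'a : ∀ x y, ψ' x y = bil W P.X (f x) (f y) := fun x y => rfl
  have hψ' : ∀ X ∈ TF.skew ψ, ∀ x y, ψ' (X x) y + ψ' x (X y) = 0 := by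
    intro X hX x y
    rw [← hV.core_eq] at hX
    obtain ⟨D, hD, rfl⟩ := mem_core.1 hX 1
    have h3 : ∀ v, f (D.Θ (full V r) v) = D.Θ (full _ (algR ρ)) (f v) := fun v =>
      D.lin (full V r) (full _ (algR ρ)) f ⟨⊤, inferInstance, fun g _ v => hf.equi g v⟩ v
    rw [hψ'a, hψ'a, h3, h3]
    exact bil_skew hf.gal hD _ _
  obtain ⟨c, hc⟩ := hV.schur hψ'
  have hc0 : c ≠ 0 := by
    rintro rfl
    rw [zero_smul] at hc
    obtain ⟨x, hx⟩ := hV.exists_ne
    have h1 : f x ∈ transcendental W P.X := (hf.range _).2 ⟨x, rfl⟩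
    have h2 : (⟨f x, h1⟩ : transcendental W P.X) = 0 := by
      refine trans_nondeg hf.hen _ fun b => ?_
      obtain ⟨y, hy⟩ := (hf.range _).1 b.2
      rw [rform_apply, hy, ← hψ'a, hc]
      rfl
    exact hx (hf.inj ((congrArg Subtype.val h2).trans (map_zero f).symm))
  intro X hX
  -- the operator on `V`
  have hmem : ∀ v, f v ∈ transcendental W P.X := fun v => (hf.range _).2 ⟨v, rfl⟩
  let e : V ≃ₗ[W.K] transcendental W P.X := LinearEquiv.ofBijective
    (f.codRestrict (transcendental W P.X) hmem) ⟨fun a b hab => hf.inj (congrArg Subtype.val hab),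
      fun t => by
        obtain ⟨v, hv⟩ := (hf.range _).1 t.2
        exact ⟨v, Subtype.ext hv.symm⟩⟩
  have he : ∀ v, (e v : W.H P.X) = f v := fun v => rfl
  let Y : Module.End W.K V := e.symm.toLinearMap ∘ₗ X ∘ₗ e.toLinearMap
  have hY : ∀ v, f (Y v) = (X (e v) : W.H P.X) := fun v => by
    rw [← he]
    exact congrArg Subtype.val (e.apply_symm_apply (X (e v)))
  have hYs : Y ∈ TF.skew ψ := by
    intro x y
    have h1 := hX (e x) (e y)
    rw [rform_apply, rform_apply, ← hY, ← hY, he, he, ← hψ'a, ← hψ'a, hc] at h1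
    have h2 : c * (ψ (Y x) y + ψ x (Y y)) = 0 := by
      rw [mul_add]
      exact h1
    exact (mul_eq_zero.1 h2).resolve_left hc0
  rw [← hV.core_eq] at hYs
  obtain ⟨D, hD, hDZ, hDV⟩ := mem_aI.1 (hspl hYs) 1
  refine ⟨D, hD, hDZ _ rfl, fun t => ?_⟩
  obtain ⟨v, rfl⟩ := e.surjective t
  have h3 : f (D.Θ (full V r) v) = D.Θ (full _ (algR ρ)) (f v) :=
    D.lin (full V r) (full _ (algR ρ)) f ⟨⊤, inferInstance, fun g _ v => hf.equi g v⟩ v
  rw [hDV, hY] at h3
  exact h3.symm

end trans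

end

end Pool.Agent.U233.PW
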