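import Pool.Agent.U233.PW.Dim
import Pool.Agent.U233.PW.FullN

/-!
# Representations of small dimension
-/

set_option autoImplicit false
set_option linter.unusedSectionVars false

namespace Pool.Agent.U233.PW

open Module Pool.Agent.U233.TF Pool.Agent.U233.FG Pool.Agent.N179.GR

noncomputable section

/-- the bound for the dimension -/
def bd (N : ℕ) : ℕ := min (2 * (N / 2 * (N / 2 - 1))) (2 ^ (N / 2 - 1))

variable {K : Type} [Field K] [CharZero K] [IsAlgClosed K]

section alg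

variable {V : Type} [AddCommGroup V] [Module K V] [FiniteDimensional K V]
  {U : Type} [AddCommGroup U] [Module K U] [FiniteDimensional K U]
  {ψ : V →ₗ[K] V →ₗ[K] K} {E : K} {Φ : Module.End K V →ₗ[K] Module.End K U}

section eig

variable {n : ℕ} {e f : Fin n → V} (hE : E * E = 1) (hs : ∀ x y, ψ x y = E * ψ y x)
  (h : Hyp ψ e f) (hΦ : ∀ X ∈ skew ψ, ∀ Y ∈ skew ψ, Φ (X * Y - Y * X) = Φ X * Φ Y - Φ Y * Φ X)

include hE hs h hΦ

theorem mv : Mv (WtU (hU ψ E e f Φ)) where
  par _ hw _ _ hij := wtU_par hE hs h hΦ hw hij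
  move _ hw _ _ hij s t hpos := wtU_move hE hs h hΦ hw hij s t hpos

/-- **The eigenvalues on a small representation.** -/
theorem eig_small (hn : 5 ≤ n) (hdim : finrank K U < min (2 * (n * (n - 1))) (2 ^ (n - 1)))
    {μ : K} (hμ : (Φ (th ψ E e f)).HasEigenvalue μ) : μ = 0 ∨ μ = 1 ∨ μ = -1 := by
  have hη : Φ (th ψ E e f) = ∑ i, hU ψ E e f Φ i := by
    rw [th, map_sum]
    rfl
  obtain ⟨u, hu, hu0, c, hc⟩ := exists_common (hU ψ E e f Φ)
    (fun i j => hU_comm hE hs h hΦ i j) Finset.univ ((Φ (th ψ E e f)).eigenspace μ) hμ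
    (fun i x hx => Module.End.mem_eigenspace_iff.2 (by
      have h1 := Module.End.mem_eigenspace_iff.1 hx
      have h2 : Φ (th ψ E e f) * hU ψ E e f Φ i = hU ψ E e f Φ i * Φ (th ψ E e f) := by
        rw [hη, Finset.sum_mul, Finset.mul_sum]
        exact Finset.sum_congr rfl fun j _ => hU_comm hE hs h hΦ j i
      rw [← Module.End.mul_apply, h2, Module.End.mul_apply, h1, map_smul]))
  have h01 : (⟨0, by omega⟩ : Fin n) ≠ ⟨1, by omega⟩ := by
    intro h1
    exact absurd (congrArg Fin.val h1) (by norm_num)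
  obtain ⟨w, hw, hW⟩ := exists_wtU hE hs h hΦ h01 hu0 (fun l => hc l (Finset.mem_univ l))
  have hμw : μ = ∑ l, (w l : K) / 2 := by
    have h1 := Module.End.mem_eigenspace_iff.1 hu
    rw [hη, LinearMap.sum_apply, Finset.sum_congr rfl fun l _ => hc l (Finset.mem_univ l),
      ← Finset.sum_smul] at h1
    have h2 : (∑ l, c l - μ) • u = 0 := by rw [sub_smul, h1, sub_self]
    have h3 := sub_eq_zero.1 ((smul_eq_zero.1 h2).resolve_right hu0)
    rw [← h3]
    exact Finset.sum_congr rfl fun l _ => hw l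
  have hcase : (∀ l, w l = 0) ∨ ∃ i, |w i| = 2 ∧ ∀ l, l ≠ i → w l = 0 := by
    by_contra hcon
    push Not at hcon
    obtain ⟨κ, hκ, F, hF, hFW, hcard⟩ := count hn (mv hE hs h hΦ) hW (fun h0 => by
      obtain ⟨l, hl⟩ := hcon.1
      exact hl (h0 l)) (fun ⟨i, hi, hi'⟩ => by
      obtain ⟨l, hl, hl'⟩ := hcon.2 i hi
      exact hl' (hi' l hl))
    choose v hv0 hv using hFW
    have h1 := joint_li hF hv0 hv
    omega
  rcases hcase with h0 | ⟨i, hi, h0⟩
  · left
    rw [hμw]
    exact Finset.sum_eq_zero fun l _ => by rw [h0, Int.cast_zero, zero_div]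
  · right
    rw [hμw, Finset.sum_eq_single i (fun l _ hl => by rw [h0 l hl, Int.cast_zero, zero_div])
      (fun h => absurd (Finset.mem_univ i) h)]
    rcases (abs_eq (by norm_num : (0 : ℤ) ≤ 2)).1 hi with h1 | h1
    · left
      rw [h1]
      norm_num
    · right
      rw [h1]
      norm_num

/-- the grading of a small representation -/
theorem gradedD (hn : 5 ≤ n) (hdim : finrank K U < min (2 * (n * (n - 1))) (2 ^ (n - 1))) :
    Graded ψ (SU ψ E Φ) (wt (th ψ E e f)) (gw (Φ (th ψ E e f))) 1 where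
  pos := one_pos
  decV := (th_dia hE hs h).dec
  decU := gw_dec fun μ hμ => by
    rcases eig_small hE hs h hΦ hn hdim hμ with rfl | rfl | rfl
    · exact ⟨0, Int.cast_zero.symm⟩
    · exact ⟨1, Int.cast_one.symm⟩
    · exact ⟨-1, by rw [Int.cast_neg, Int.cast_one]⟩
  le m hm u hu := by
    by_contra hu0
    have h1 := eig_of_gen hu hu0
    rcases eig_small hE hs h hΦ hn hdim h1 with h2 | h2 | h2
    · have h3 : m = 0 := by exact_mod_cast h2
      omega
    · have h3 : m = 1 := by exact_mod_cast h2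
      omega
    · have h3 : m = -1 := by exact_mod_cast h2
      omega
  deg k l m a ha b hb u hu := by
    refine gw_deg (k := k + l) ?_ hu
    have h1 := hΦ _ (th_mem hE hs h) _ (SZ_mem hE hs a b)
    rw [br_SZ (th_mem hE hs h), mem_wt.1 ha, mem_wt.1 hb, map_smul, map_smul,
      LinearMap.smul_apply, ← add_smul, map_smul] at h1
    rw [SU_apply, ← h1]
    push_cast
    rfl
  orth k l a ha b hb hkl := orth_wt (th_mem hE hs h) ha hb hkl

end eig

theorem half_bd {N n : ℕ} (h : N / 2 = n) : bd N = min (2 * (n * (n - 1))) (2 ^ (n - 1)) := by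
  rw [bd, h]

/-- **Small representations contain the standard representation.** -/
theorem exists_small (hE : E * E = 1) (hs : ∀ x y, ψ x y = E * ψ y x)
    (hnd : ∀ x, (∀ y, ψ x y = 0) → x = 0)
    (hΦ : ∀ X ∈ skew ψ, ∀ Y ∈ skew ψ, Φ (X * Y - Y * X) = Φ X * Φ Y - Φ Y * Φ X)
    (hinj : ∀ X ∈ skew ψ, Φ X = 0 → X = 0) (hV : 10 ≤ finrank K V)
    (hU : finrank K U < bd (finrank K V)) :
    ∃ f ∈ IT ψ E Φ, f ≠ 0 := by
  obtain ⟨n, hn⟩ : ∃ n, finrank K V / 2 = n := ⟨_, rfl⟩
  rw [half_bd hn] at hU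
  have hn5 : 5 ≤ n := by omega
  obtain ⟨e, f, h⟩ := exists_hyp hE n V ψ hs hnd (by omega)
  have hg := gradedD hE hs h hΦ hn5 hU
  have htop := top_dim hE hs h
  rcases mul_self_eq_one_iff.1 hE with rfl | rfl
  · have hsy : ∀ x y, ψ x y = ψ y x := fun x y => by rw [hs, one_mul]
    obtain ⟨u, c, hD⟩ := exists_dual hnd hs (th_mem hE hs h) (th_dia hE hs h) 1
    let i : Fin (finrank K (wt (th ψ 1 e f) 1)) := ⟨0, by omega⟩
    let j : Fin (finrank K (wt (th ψ 1 e f) 1)) := ⟨1, by omega⟩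
    have hij : i ≠ j := by
      intro h1
      have h2 := congrArg Fin.val h1
      exact absurd h2 (by norm_num [i, j])
    obtain ⟨g, hg0, h2⟩ := exists_so (soRel hsy hΦ) hg
      (fun m hm v hv => th_lev hE hs h m (by omega) v hv)
      hD (by rw [Fintype.card_fin]; omega) hij (by
      intro h3
      have h4 := hinj _ (SZ_mem (by norm_num) hs (u i) (u j)) h3
      have h5 := LinearMap.congr_fun h4 (c i)
      rw [SZ_apply, hD.one, hD.zero j i hij.symm, LinearMap.zero_apply] at h5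
      have h7 : u j = 0 := by
        rw [← h5]
        module
      have h8 := hD.one j
      rw [h7, map_zero, LinearMap.zero_apply] at h8
      exact zero_ne_one h8)
    refine ⟨g, fun x y v => ?_, hg0⟩
    rw [h2, SZ_apply, one_smul]
  · have hal : ∀ x y, ψ x y = -ψ y x := fun x y => by rw [hs, neg_one_mul]
    have halt : ∀ x, ψ x x = 0 := fun x => by
      have h1 := hal x x
      have h2 : (2 : K) * ψ x x = 0 := by linear_combination h1
      exact (mul_eq_zero.1 h2).resolve_left two_ne_zero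
    have i : Fin n := ⟨0, by omega⟩
    have hb : e i ∈ wt (th ψ (-1) e f) 1 := by
      rw [mem_wt, th_e hE hs h, Int.cast_one, one_smul]
    have hc : -f i ∈ wt (th ψ (-1) e f) (-1) := by
      rw [mem_wt, map_neg, th_f hE hs h, Int.cast_neg, Int.cast_one, neg_smul, one_smul]
    have hcb : ψ (-f i) (e i) = 1 := by
      rw [map_neg, LinearMap.neg_apply, hal, neg_neg, h.one]
    obtain ⟨g, hg0, h2⟩ := exists_sp (spRel hal hΦ) hg hnd
      (fun v hv => zero_alt hE hs h halt hnd (by omega) v hv) hb hc hcb (by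
      intro h3
      have h4 := hinj _ (SZ_mem (by norm_num) hs (e i) (e i)) h3
      have h5 := LinearMap.congr_fun h4 (f i)
      rw [SZ_apply, h.one, LinearMap.zero_apply] at h5
      have h6 : (2 : K) • e i = 0 := by
        rw [← h5]
        module
      have h7 := (smul_eq_zero.1 h6).resolve_left two_ne_zero
      rw [h7, map_zero] at hcb
      exact zero_ne_one hcb)
    refine ⟨g, fun x y v => ?_, hg0⟩
    rw [h2, SZ_apply]
    congr 1
    module

/-- the evaluation is injective -/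
theorem IT_injD (hE : E * E = 1) (hs : ∀ x y, ψ x y = E * ψ y x)
    (hnd : ∀ x, (∀ y, ψ x y = 0) → x = 0) (hV : 10 ≤ finrank K V) : Inj (IT ψ E Φ) := by
  intro m g v hg hli h0
  obtain ⟨n, hn⟩ : ∃ n, finrank K V / 2 = n := ⟨_, rfl⟩
  obtain ⟨e, f, h⟩ := exists_hyp hE n V ψ hs hnd (by omega)
  obtain ⟨u, c, hD⟩ := exists_dual hnd hs (th_mem hE hs h) (th_dia hE hs h) 1
  have htop := top_dim hE hs h
  exact IT_inj hs hE hnd (fun a ha b hb => orth_wt (th_mem hE hs h) ha hb (by norm_num)) hD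
    (Or.inr (by omega)) hg hli h0

end alg

section grp

variable {Γ : Type} [Group Γ] {V : Type} [AddCommGroup V] [Module K V] [FiniteDimensional K V]
  {U : Type} [AddCommGroup U] [Module K U] [FiniteDimensional K U]
  {r : Γ →* Module.End K V} {t : Γ →* Module.End K U}

/-- **Representations of small dimension.** If `V` does not split off from `U` then `U` contains
some `V ⊗ H`. -/
theorem spl_dim {ψ : V →ₗ[K] V →ₗ[K] K} {μ : Γ →* Kˣ} (h : FullN r ψ μ)
    (hss : SemiS (cj t)) (hV : 10 ≤ finrank K V) (hU : finrank K U < bd (finrank K V))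
    (hocc : ∀ H : Submodule K (V →ₗ[K] U), (∀ g, ∀ f ∈ H, t g ∘ₗ f ∘ₗ r g⁻¹ ∈ H) →
      Inj H → H = ⊥) :
    Spl (full V r) {full U t} := by
  by_contra hn
  obtain ⟨Φ, hΦ1, hΦ2, hΦ3⟩ := exists_phi (r := r) (t := t) hss
  obtain ⟨hcore, hinj⟩ := phi_inj hΦ1 (core_le_skew h.inv) h.irr' hn
  rw [hcore] at hΦ2 hΦ3
  have hbr : ∀ X ∈ skew ψ, ∀ Y ∈ skew ψ, Φ (X * Y - Y * X) = Φ X * Φ Y - Φ Y * Φ X := hΦ3
  obtain ⟨E, hE, hs⟩ : ∃ E : K, E * E = 1 ∧ ∀ x y, ψ x y = E * ψ y x := by
    rcases h.big with ⟨hs, -⟩ | ⟨hs, -⟩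
    · exact ⟨-1, by norm_num, fun x y => by rw [hs, neg_one_mul]⟩
    · exact ⟨1, by norm_num, fun x y => by rw [hs, one_mul]⟩
  obtain ⟨f, hf, hf0⟩ := exists_small hE hs h.nd hbr hinj hV hU
  have h2 := hocc (IT ψ E Φ) (IT_stab (t := t) h.inv hE hs hΦ2) (IT_injD hE hs h.nd hV)
  exact hf0 ((Submodule.mem_bot K).1 (h2 ▸ hf))

end grp

end

end Pool.Agent.U233.PW
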