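import Pool.Agent.U233.PW.HSmall
import Pool.Agent.U233.PW.HTow
import Pool.Agent.U233.FG.Asm

/-!
# Hodge groups and powers: the assembly
-/

set_option autoImplicit false
set_option linter.unusedSectionVars false

open CategoryTheory AlgebraicGeometry TensorProduct

universe u

namespace Pool.Agent.U233.PW.FullN

open Module Pool.Agent.U233.TF Pool.Agent.U233.FG Pool.Agent.N179.GR

variable {K : Type} [Field K] [CharZero K] [IsAlgClosed K] {Γ : Type} [Group Γ]
  {V : Type} [AddCommGroup V] [Module K V] [FiniteDimensional K V]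
  {r : Γ →* Module.End K V} {ψ : V →ₗ[K] V →ₗ[K] K} {μ : Γ →* Kˣ}

/-- the representation is irreducible -/
theorem irrG (h : FullN r ψ μ) {A : Submodule K V} (hA : Stab r A) : A = ⊥ ∨ A = ⊤ :=
  h.irrV (A := A) fun X hX a ha => by
    rw [← h.core_eq] at hX
    obtain ⟨D, -, rfl⟩ := mem_core.1 hX 1
    exact Θ_mem D hA ha

end Pool.Agent.U233.PW.FullN

namespace Pool.Agent.U233.HG

open Module Pool.Agent.N179 Pool.Agent.N179.DB Pool.Agent.N179.GR.S
open Pool.Agent.N179.DB.S (Cx tens gal bc cx_ind tens_add tens_smul smul_tens exists_tens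
  inF_tens bx_apply bc_tens bc_gal gal_add gal_tens galB gal_mul gr' gr'_eq gal_gr' mem_of_base
  span_alg algS algT base_mul)
open Pool.Agent.H914 Pool.Agent.H914.VarClass Pool.Agent.H914.VarClass.Obj
  Pool.Agent.H914.WeilCohomology Pool.Agent.TH125.Gal
open Pool.Agent.U233.HG.St (Theory coho prd)
open Pool.Agent.Y133.Per (Base baseMap baseTr tm base_ind baseTr_tm)
open Pool.Agent.N179.GR (algR SemiS inv InDer full Der Θ_mul Θ_one Spl)
open Pool.Agent.U233.FG Pool.Agent.U233.PW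

noncomputable section

section HS

variable {K : Type} [Field K] [Algebra K ℂ] [CharZero K] {M U : HS K} {d : ℤ}
  {ψ : M.V →ₗ[K] M.V →ₗ[K] K}

/-- a derivation which acts by the operator `p - q` -/
theorem exists_derX (h : FullX M d ψ) {τ : ℂ ≃+* ℂ} (hτ : FixK K τ) :
    ∃ D : Der ℂ (HGp K), InDer 1 D ∧
      D.Θ (full (Cx K M.V) (hM M)) = ND M.b M.e M.t τ := by
  obtain ⟨w, hw⟩ := h.sim
  obtain ⟨μ, hμ⟩ := h.fullN
  have h1 : (show Module.End ℂ (Cx K M.V) from ND M.b M.e M.t τ) ∈ TF.skew (formC ψ) :=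
    ND_skew hw hτ
  rw [← hμ.core_eq, GR.mem_core] at h1
  exact h1 1

theorem tw_Dg {j : ℤ} {P : M.V →ₗ[K] U.V} (hP : IsTw (M := M) (N := U) j P) {τ : ℂ ≃+* ℂ}
    (hτ : FixK K τ) (z w : ℂˣ) (x : Cx K M.V) :
    Dg U.b U.e U.t τ z w (bc P x) =
      ((mon z w (j, j) : ℂˣ) : ℂ) • bc P (Dg M.b M.e M.t τ z w x) := by
  have h3 : (Dg U.b U.e U.t τ z w).toLinearMap.comp (bc P) =
      ((mon z w (j, j) : ℂˣ) : ℂ) • (bc P).comp (Dg M.b M.e M.t τ z w).toLinearMap := by
    refine (mv M.b M.e τ).ext fun k => ?_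
    change Dg U.b U.e U.t τ z w (bc P (mv M.b M.e τ k)) =
      ((mon z w (j, j) : ℂˣ) : ℂ) • bc P (Dg M.b M.e M.t τ z w (mv M.b M.e τ k))
    have h4 : bc P (mv M.b M.e τ k) = sl U.b τ (bc P (M.e k)) := by
      rw [mv_apply, ← M.gal_eq hτ, ← U.gal_eq hτ]
      exact bc_gal P τ hτ _
    have h5 : Typ U.e U.t ((M.t k).1 + j, (M.t k).2 + j) (bc P (M.e k)) :=
      (U.mem _ _ _).1 (hP _ _ _ ((M.mem' _ _).2 (Typ.basis k)))
    rw [Dg_mv, map_smul, h4, h5.dg, smul_smul, ← Units.val_mul]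
    congr 2
    unfold mon
    rw [zpow_add, zpow_add]
    exact mul_mul_mul_comm _ _ _ _ |>.trans (mul_comm _ _)
  exact LinearMap.congr_fun h3 x

/-- a homomorphism to a twist of a structure of smaller level is zero -/
theorem apart_lvl (h : FullX M d ψ) {d' : ℤ} (hU : Lvl U d') (hd : d' < d) : Apart M U := by
  intro j P hP
  obtain ⟨μ, hμ⟩ := h.fullN
  obtain ⟨x, y, hx, hx0, -⟩ := h.extr
  let A : Submodule ℂ (Cx K M.V) := LinearMap.ker (bc P)
  have hof : ∀ (a : HP K) (x : Cx K M.V), bc P (rM M (FreeGroup.of a) x) = 0 ↔ bc P x = 0 := by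
    rintro ⟨τ, hτ, z, u⟩ x
    have h1 := tw_Dg hP hτ z u x
    have h2 : rM M (FreeGroup.of (⟨τ, hτ, z, u⟩ : HP K)) x = Dg M.b M.e M.t τ z u x := by
      rw [rM, rho_of]
    rw [h2]
    constructor
    · intro h3
      rw [h3, smul_zero] at h1
      exact (map_eq_zero_iff _ (Dg U.b U.e U.t τ z u).injective).1 h1
    · intro h3
      rw [h3, map_zero] at h1
      exact (smul_eq_zero.1 h1.symm).resolve_left (Units.ne_zero _)
  have hA : GR.Stab (hM M) A := by
    intro g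
    change ∀ x ∈ A, rM M g x ∈ A
    induction g using FreeGroup.induction_on with
    | C1 =>
      intro x hx
      have h1 : rM M 1 x = x := by
        rw [rM, map_one]
        rfl
      rw [h1]
      exact hx
    | of a => exact fun x hx => (hof a x).2 hx
    | inv_of a ih =>
      intro x hx
      refine (hof a _).1 ?_
      have h1 : rM M (FreeGroup.of a) (rM M (FreeGroup.of a)⁻¹ x) = x := by
        rw [rM, rM, map_inv]
        exact LinearEquiv.apply_symm_apply _ x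
      rw [h1]
      exact hx
    | mul a b ha hb =>
      intro x hx
      have h1 : rM M (a * b) x = rM M a (rM M b x) := by
        rw [rM, map_mul]
        rfl
      rw [h1]
      exact ha _ (hb _ hx)
  have hxA : x ∈ A := by
    have h1 : bc P x ∈ DG U (RingEquiv.refl ℂ) d := by
      have h2 := tw_Dg hP (τ := RingEquiv.refl ℂ) (fun _ => rfl) two two⁻¹ x
      have h3 : Dg M.b M.e M.t (RingEquiv.refl ℂ) two two⁻¹ x = ((two ^ d : ℂˣ) : ℂ) • x := hx
      rw [h3, map_smul, mon_diff, sub_self, zpow_zero, Units.val_one, one_smul] at h2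
      exact h2
    rw [LinearMap.mem_ker]
    refine (mv U.b U.e (RingEquiv.refl ℂ)).ext_elem fun k => ?_
    rw [map_zero, Finsupp.zero_apply]
    refine (mem_EG' mon_diff).1 h1 k fun hk => ?_
    have h4 := hU k
    omega
  have h5 : A = ⊤ := (hμ.irrG hA).resolve_left fun h6 => hx0 ((Submodule.mem_bot ℂ).1 (h6 ▸ hxA))
  refine LinearMap.ext fun v => ?_
  rw [LinearMap.zero_apply]
  have h6 : (tens 1 v : Cx K M.V) ∈ A := h5 ▸ Submodule.mem_top
  have h7 : (tens 1 (P v) : Cx K U.V) = 0 := by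
    have h8 : bc P (tens 1 v : Cx K M.V) = 0 := h6
    rwa [bc_tens] at h8
  exact tens_inj U h7

end HS

variable {k : Type u} [Field k] {𝒱 : VarClass k} {ops : CycleOps 𝒱} (T : Theory ops)

/-- **The semi-invariant classes are combinations of Hodge classes.** -/
theorem twisted_der [CharZero T.W.K] {V : HS T.W.K}
    (hder : ∀ τ : ℂ ≃+* ℂ, FixK T.W.K τ → ∃ D : Der ℂ (HGp T.W.K), InDer 1 D ∧
      D.Θ (full (Cx T.W.K V.V) (hM V)) = ND V.b V.e V.t τ) {P : 𝒱.Obj} (hg : Gens T V P) :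
    GR.S.Twisted (W := baseW T.W ℂ) (ch T) (var T P) := by
  have hfd := finB T P
  intro z hz
  by_cases hz0 : (show Cx T.W.K (T.W.H P) from z) = 0
  · have h1 : z = 0 := hz0
    rw [h1]
    exact Submodule.zero_mem _
  have hpure : Pure (coh T P).b (coh T P).e (coh T P).t T.W.K
      (show Cx T.W.K (T.W.H P) from z) := mem_pures.1 ((mem_pureCl T).2 hz)
  -- the types of the conjugates
  have h1 : ∀ τ : ℂ ≃+* ℂ, FixK T.W.K τ → ∃ j : ℤ, Typ (coh T P).e (coh T P).t (j, j)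
      (sl (coh T P).b τ.symm (show Cx T.W.K (T.W.H P) from z)) := by
    intro τ hτ
    obtain ⟨r, hr⟩ := hpure τ.symm (FixK.symm hτ)
    obtain ⟨D, hD, hDV⟩ := hder τ hτ
    have h2 := der_coh T hg hτ hD hDV (show Base T.W.K (T.W.H P) from z)
    have h3 : D.Θ (full (Base T.W.K (T.W.H P)) (algR (ta T P)))
        (show Base T.W.K (T.W.H P) from z) = 0 :=
      hD.kill (M := full (Base T.W.K (T.W.H P)) (algR (ta T P))) hz
    have h4 := hr.nd (b := (coh T P).b) τ
    rw [sl_symm'] at h4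
    have h5 : ND (coh T P).b (coh T P).e (coh T P).t τ (show Cx T.W.K (T.W.H P) from z) = 0 :=
      h2.symm.trans h3
    rw [h5] at h4
    have h6 := (smul_eq_zero.1 h4.symm).resolve_right hz0
    have h7 : r.1 - r.2 = 0 := by exact_mod_cast h6
    refine ⟨r.1, ?_⟩
    have h8 : r = (r.1, r.1) := Prod.ext rfl (by simp only; omega)
    rwa [← h8]
  obtain ⟨j, hj⟩ := h1 (RingEquiv.refl ℂ) fun _ => rfl
  have h2 : ∀ τ : ℂ ≃+* ℂ, FixK T.W.K τ → Typ (coh T P).e (coh T P).t (j, j)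
      (sl (coh T P).b τ (show Cx T.W.K (T.W.H P) from z)) := by
    intro τ hτ
    obtain ⟨i, hi⟩ := h1 τ.symm (FixK.symm hτ)
    have h3 := hi.dg (b := (coh T P).b) τ.symm two two
    rw [sl_symm', mon_sum] at h3
    have h4 := hj.dg (b := (coh T P).b) (RingEquiv.refl ℂ) two two
    rw [sl_symm', mon_sum] at h4
    rw [wt_coh T P τ.symm (FixK.symm hτ), h4] at h3
    have h5 : (((two ^ (j + j) : ℂˣ) : ℂ) - ((two ^ (i + i) : ℂˣ) : ℂ)) •
        (show Cx T.W.K (T.W.H P) from z) = 0 := by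
      rw [sub_smul, sub_eq_zero]
      exact h3
    have h6 := two_inj' (sub_eq_zero.1 ((smul_eq_zero.1 h5).resolve_right hz0))
    have h7 : i = j := by omega
    subst h7
    have h8 : τ.symm.symm = τ := RingEquiv.symm_symm τ
    rwa [h8] at hi
  have h3 : (show Cx T.W.K (T.W.H P) from z) ∈ pqC T P j j := by
    have h4 := h2 (RingEquiv.refl ℂ) fun _ => rfl
    rw [sl_refl] at h4
    exact ((coh T P).mem j j _).2 h4
  obtain ⟨i, rfl, hi⟩ := gr_of_diag T h3 hz0
  refine Submodule.subset_span ⟨i, hi, ⊤, inferInstance, fun g _ => ?_⟩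
  have h4 := rho_diag (K := T.W.K) (j := (i : ℤ)) (b := (coh T P).b) (e := (coh T P).e)
    (t := (coh T P).t) h2 g
  have h5 : ((chi T.W.K g ^ (i : ℤ) : ℂˣ) : ℂ) = (chi T.W.K g : ℂ) ^ i := by
    rw [zpow_natCast, Units.val_pow_eq_pow_val]
  rw [h5] at h4
  exact h4

/-- **The type of a variety.** -/
theorem typeX [CharZero T.W.K] {V : HS T.W.K} {d : ℤ} {ψ : V.V →ₗ[T.W.K] V.V →ₗ[T.W.K] T.W.K}
    (h : FullX V d ψ) {P : 𝒱.Obj} (hg : Gens T V P) (hp : Polarisable (coh T P)) :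
    TypeG T V P :=
  ⟨⟨gen_var T (gens_gen T hg), ss_var T hp⟩, twisted_der T (fun _ hτ => exists_derX h hτ) hg⟩

section fam

variable {ι : Type} {V : ι → HS T.W.K} {d : ι → ℤ}

theorem famX [CharZero T.W.K] (hV : ∀ i, ∃ ψ, FullX (V i) (d i) ψ)
    (hap : ∀ i j, i ≠ j → Apart (V i) (V j)) : FG.Fam (fun i => rep (V i)) where
  semisimple i := by
    obtain ⟨ψ, hψ⟩ := hV i
    exact hψ.pol.semisimple_endo
  pair i j hij := by
    obtain ⟨ψ, hψ⟩ := hV i
    obtain ⟨ψ', hψ'⟩ := hV j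
    exact spl_pairX hψ hψ' (hap i j hij) (hap j i hij.symm)

theorem fullsX [CharZero T.W.K] (hV : ∀ i, ∃ ψ, FullX (V i) (d i) ψ) (i : ι) :
    Fulls T (V i) := by
  obtain ⟨ψ, hψ⟩ := hV i
  obtain ⟨μ, hμ⟩ := hψ.fullN
  exact ⟨ψ, μ, hμ⟩

end fam

/-- The classical theorems on the Hodge structures of smooth projective varieties. -/
structure Cls : Prop where
  pol : ∀ X, Polarisable (coh T X)
  eff : ∀ X p q, ∀ x ∈ pqC T X p q, x ≠ 0 → 0 ≤ p ∧ p ≤ X.dim ∧ 0 ≤ q ∧ q ≤ X.dim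
  div : ∀ X c, IsHodge T X 1 c → ∃ z, X.IsCyc 1 z ∧ T.W.cl X z = c
  cur : ∀ (X : 𝒱.Obj) (n : ℕ) c, X.dim = n + 1 → IsHodge T X n c → ∃ z, X.IsCyc n z ∧ T.W.cl X z = c

/-- **Varieties of dimension at most `3`.** -/
theorem low (h : Cls T) {Z : 𝒱.Obj} (hZ : Z.dim ≤ 3) : HodgeConjecture T Z := by
  intro j c hc
  by_cases h0 : j = 0
  · subst h0
    have h1 := hc.1
    rw [mul_zero, T.W.gr_zero] at h1
    obtain ⟨s, rfl⟩ := Submodule.mem_span_singleton.1 h1
    refine alg_of_span T (Submodule.smul_mem _ _ (Submodule.subset_span ?_))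
    exact ⟨0, rfl, Z.V.fundCycle, Z.V.fundCycle_mem, T.W.cl_fund Z⟩
  by_cases h1 : j = 1
  · subst h1
    exact h.div Z c hc
  by_cases h2 : Z.dim = j + 1
  · exact h.cur Z j c h2 hc
  by_cases h3 : j = Z.dim
  · subst h3
    obtain ⟨w, hw, -, htop⟩ := exists_top T Z
    obtain ⟨s, rfl⟩ := htop c hc.1
    refine alg_of_span T (Submodule.smul_mem _ _ (Submodule.subset_span ?_))
    exact ⟨Z.dim, rfl, w, hw, rfl⟩
  · have h4 := hc.1
    rw [T.W.gr_eq_bot Z _ (by omega)] at h4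
    rw [(Submodule.mem_bot _).1 h4]
    exact alg_of_span T (Submodule.zero_mem _)

/-- the level of the cohomology -/
theorem lvl_coh (h : Cls T) (Z : 𝒱.Obj) : Lvl (coh T Z) Z.dim := by
  intro k
  have h1 := h.eff Z _ _ _ ((coh T Z).mem' _ _ |>.2 (Typ.basis k)) ((coh T Z).e.ne_zero k)
  constructor <;> omega

end

end Pool.Agent.U233.HG
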