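import Pool.Agent.U233.PW.Irr

/-!
# Full Hodge groups: strong irreducibility
-/

set_option autoImplicit false
set_option linter.unusedSectionVars false

open TensorProduct

namespace Pool.Agent.U233.HG

open Module Pool.Agent.N179.DB Pool.Agent.N179.GR Pool.Agent.U233.FG
open Pool.Agent.N179.GR.S (GRep fl semiS_endo)
open Pool.Agent.N179.DB.S (Cx tens gal bc cx_ind tens_add tens_smul smul_tens exists_tens
  inF_tens bx_apply bc_tens bc_gal gal_add gal_tens)

noncomputable section

variable {K : Type} [Field K] [Algebra K ℂ]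

section

variable {M : HS K} {w : ℤ} {ψ : M.V →ₗ[K] M.V →ₗ[K] K} (h : Sim M w ψ) {ε : K}
  (hε : ε * ε = 1) (hs : ∀ x y, ψ x y = ε * ψ y x)

include h hε hs

variable [CharZero K]

/-- equivariant operators with values in the skew operators are scalars -/
theorem scal (hfull : ∀ f : M.endo.V →ₗ[K] M.endo.V, IsHom (M := M.endo) (N := M.endo) f →
      (∀ X, f X ∈ skewK ψ) → ∃ c : K, ∀ X ∈ skewK ψ, f X = c • X)
    (Δ : Subgroup (HGp K)) (hΔ : Δ.FiniteIndex)
    (q : Module.End ℂ (Module.End ℂ (Cx K M.V)))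
    (hq3 : ∀ g ∈ Δ, ∀ x, q (cj (hM M) g x) = cj (hM M) g (q x))
    (hq2 : ∀ x, q x ∈ skewC ψ) : ∃ c : ℂ, ∀ X ∈ skewC ψ, q X = c • X := by
  let F : Cx K M.endo.V →ₗ[ℂ] Cx K M.endo.V :=
    ((opM M).symm.toLinearMap.comp
      (show (Cx K M.V →ₗ[ℂ] Cx K M.V) →ₗ[ℂ] (Cx K M.V →ₗ[ℂ] Cx K M.V) from q)).comp (opL M)
  have hF : ∀ y, (show Module.End ℂ (Cx K M.V) from opM M (F y)) =
      q (show Module.End ℂ (Cx K M.V) from opM M y) := fun y => (opM M).apply_symm_apply _
  have hequi : ∀ g ∈ Δ, ∀ y, F (rM M.endo g y) = rM M.endo g (F y) := by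
    intro g hg y
    apply (opM M).injective
    have h6 : (show Module.End ℂ (Cx K M.V) from opM M (F (rM M.endo g y))) =
        q (cj (hM M) g (show Module.End ℂ (Cx K M.V) from opM M y)) :=
      (hF _).trans (congrArg q (opM_cj M g y))
    have h7 : (show Module.End ℂ (Cx K M.V) from opM M (rM M.endo g (F y))) =
        cj (hM M) g (q (show Module.End ℂ (Cx K M.V) from opM M y)) :=
      (opM_cj M g (F y)).trans (congrArg (cj (hM M) g) (hF y))
    have h8 := h6.trans ((hq3 g hg _).trans h7.symm)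
    exact h8
  have h1 := pot_hom (M := M.endo) (N := M.endo) F Δ hΔ (by
    intro g hg (y : Cx K M.endo.V)
    have h2 : (rep M.endo).ap g y = rM M.endo g y := rfl
    have h3 : (rep M.endo).ap g (F y) = rM M.endo g (F y) := rfl
    exact (congrArg F h2).trans ((hequi g hg y).trans h3.symm))
  -- the composition with the projection is a multiple of the identity on the skew operators
  let N : Submodule ℂ (Cx K M.endo.V →ₗ[ℂ] Cx K M.endo.V) :=
    { carrier := {f | ∃ c : ℂ, ∀ X, (show Module.End ℂ (Cx K M.V) from opM M X) ∈ skewC ψ →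
        pC h.nd (f X) = c • X}
      zero_mem' := ⟨0, fun X _ => by rw [LinearMap.zero_apply, map_zero, zero_smul]⟩
      add_mem' := by
        rintro f f' ⟨c, hc⟩ ⟨c', hc'⟩
        exact ⟨c + c', fun X hX => by rw [LinearMap.add_apply, map_add, hc X hX, hc' X hX,
          add_smul]⟩
      smul_mem' := by
        rintro a f ⟨c, hc⟩
        exact ⟨a * c, fun X hX => by rw [LinearMap.smul_apply, map_smul, hc X hX, smul_smul]⟩ }
  have hN : F ∈ N := by
    refine (Submodule.span_le.2 ?_) h1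
    rintro _ ⟨P, hP, rfl⟩
    obtain ⟨c, hc⟩ := hfull ((pK h.nd).comp P) (fun p r x hx => by
      have h2 : bc ((pK h.nd).comp P) x = pC h.nd (bc P x) := by
        refine cx_ind (p := fun x => bc ((pK h.nd).comp P) x = pC h.nd (bc P x)) ?_ (fun r c => rfl)
          (fun a b ha hb => ?_) x
        · rw [map_zero, map_zero, map_zero]
        · rw [map_add, map_add, map_add, ha, hb]
      rw [h2]
      exact pK_hom h hε hs p r _ (hP p r x hx)) fun X => pK_mem h.nd hε hs _
    refine ⟨algebraMap K ℂ c, fun X hX => ?_⟩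
    -- a skew operator is a combination of rational ones
    have key : ∀ Y : Cx K M.endo.V, pC h.nd (bc P (pC h.nd Y)) =
        algebraMap K ℂ c • pC h.nd Y := by
      intro Y
      refine endo_ind (p := fun Y => pC h.nd (bc P (pC h.nd Y)) =
        algebraMap K ℂ c • pC h.nd Y) ?_ (fun r Y => ?_) (fun a b ha hb => ?_) Y
      · rw [map_zero, map_zero, map_zero, smul_zero]
      · have h2 : (pK h.nd).comp P (pK h.nd Y) = c • pK h.nd Y := hc _ (pK_mem h.nd hε hs Y)
        have h3 : pC h.nd (tens r Y : Cx K (M.V →ₗ[K] M.V)) = tens r (pK h.nd Y) := rfl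
        have h4 : pC h.nd (bc P (tens r (pK h.nd Y))) = tens r (pK h.nd (P (pK h.nd Y))) := rfl
        rw [h3, h4]
        have h5 : pK h.nd (P (pK h.nd Y)) = c • pK h.nd Y := h2
        rw [h5, tens_smul, smul_tens]
      · rw [map_add, map_add, map_add, ha, hb, smul_add]
    have h2 := key X
    rwa [pC_fix h.nd hε hs hX] at h2
  obtain ⟨c, hc⟩ := hN
  refine ⟨c, fun Y hY => ?_⟩
  obtain ⟨X, hX⟩ := (opM M).surjective (show Cx K M.V →ₗ[ℂ] Cx K M.V from Y)
  have hX' : (show Module.End ℂ (Cx K M.V) from opM M X) = Y := hX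
  have h2 := hc X (by rw [hX']; exact hY)
  have h3 : pC h.nd (F X) = F X := by
    refine pC_fix h.nd hε hs ?_
    rw [hF]
    exact hq2 _
  rw [h3] at h2
  have h4 := hF X
  rw [h2, hX'] at h4
  rw [← h4]
  have h5 : opM M (c • X) = c • opM M X := map_smul _ _ _
  exact h5.trans (congrArg (fun Z => c • Z) hX)

end

/-- the skew operators -/
theorem skewC_eq {M : HS K} (ψ : M.V →ₗ[K] M.V →ₗ[K] K) : skewC ψ = TF.skew (formC ψ) := rfl

open Pool.Agent.U233.PW

/-- **Full Hodge groups give strongly irreducible representations.** -/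
theorem FullL.fullN [CharZero K] {M : HS K} {d : ℤ} {ψ : M.V →ₗ[K] M.V →ₗ[K] K}
    (h : FullL M d ψ) : ∃ μ : HGp K →* ℂˣ, FullN (hM M) (formC ψ) μ := by
  obtain ⟨w, hw⟩ := h.sim
  refine ⟨(chi K) ^ w, ⟨hw.nd, fun g x y => ?_, fun Δ hΔ A hA hle => ?_, ?_⟩⟩
  · rw [MonoidHom.zpow_apply]
    exact form_rho hw g x y
  · have hss : SemiS (cj (hM M)) := semiS_endo h.pol.semisimple_endo
    refine irr_fin (L := skewC ψ) (HG.skew_stab hw) h.irr hss (fun Δ' hΔ' q hq1 hq2 => ?_) hΔ
      (fun g hg x hx => hA g hg x hx) hle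
    rcases h.top with ⟨-, hs, -⟩ | ⟨hs, -⟩
    · exact scal hw (ε := -1) (by norm_num) (fun x y => by rw [hs, neg_one_mul]) h.full Δ' hΔ' q
        hq1 hq2
    · exact scal hw (ε := 1) (by norm_num) (fun x y => by rw [hs, one_mul]) h.full Δ' hΔ' q
        hq1 hq2
  · rcases h.symm with ⟨-, hs, h1⟩ | ⟨hs, h5⟩
    · exact Or.inl ⟨hs, h1.trans (Submodule.finrank_le _)⟩
    · have h6 := Submodule.finrank_le (DG M (RingEquiv.refl ℂ) d)
      exact Or.inr ⟨hs, by omega⟩

end

end Pool.Agent.U233.HG
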