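import Pool.Agent.U233.PW.DimF
import Pool.Agent.U233.PW.HFull

/-!
# The dimension criterion for Hodge structures
-/

set_option autoImplicit false
set_option linter.unusedSectionVars false

open TensorProduct

namespace Pool.Agent.U233.HG

open Module Pool.Agent.N179.DB Pool.Agent.N179.GR Pool.Agent.U233.FG Pool.Agent.U233.PW
open Pool.Agent.N179.GR.S (GRep fl semiS_endo)
open Pool.Agent.N179.DB.S (Cx tens gal bc cx_ind tens_add tens_smul smul_tens exists_tens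
  inF_tens bx_apply bc_tens bc_gal gal_add gal_tens)
open Pool.Agent.U233.TF (Inj)

noncomputable section

variable {K : Type} [Field K] [Algebra K ℂ]

section maps

variable {M U : HS K} {H : Submodule ℂ (Cx K M.V →ₗ[ℂ] Cx K U.V)}

theorem DH_mem (hH : ∀ g, ∀ f ∈ H, hM U g ∘ₗ f ∘ₗ hM M g⁻¹ ∈ H) {τ : ℂ ≃+* ℂ} (hτ : FixK K τ)
    (z u : ℂˣ) {f : Cx K M.V →ₗ[ℂ] Cx K U.V} (hf : f ∈ H) : DH M U τ z u f ∈ H := by
  have h1 := hH (FreeGroup.of (⟨τ, hτ, z, u⟩ : HP K)) f hf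
  have h2 : DH M U τ z u f = hM U (FreeGroup.of (⟨τ, hτ, z, u⟩ : HP K)) ∘ₗ f ∘ₗ
      hM M (FreeGroup.of (⟨τ, hτ, z, u⟩ : HP K))⁻¹ := by
    refine LinearMap.ext fun v => ?_
    have e1 := rho_hom' M.b M.e U.b U.e M.t U.t (FreeGroup.of (⟨τ, hτ, z, u⟩ : HP K)) f v
    rw [rho_of] at e1
    exact e1
  rw [h2]
  exact h1

/-- **A map of pure types.** -/
theorem pureOf (hwM : Wt M) (hwU : Wt U)
    (hH : ∀ τ : ℂ ≃+* ℂ, FixK K τ → ∀ z u, ∀ f ∈ H, DH M U τ z u f ∈ H)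
    (hdeg : ∀ τ : ℂ ≃+* ℂ, FixK K τ → ∀ m : ℤ, m ≠ 0 → ∀ f ∈ H,
      DH M U τ two two⁻¹ f = ((two ^ m : ℂˣ) : ℂ) • f → f = 0)
    {f₀ : Cx K M.V →ₗ[ℂ] Cx K U.V} (hf₀ : f₀ ∈ H)
    (h0 : f₀ ≠ 0) : ∃ (f : Cx K M.V →ₗ[ℂ] Cx K U.V) (j : ℤ), f ≠ 0 ∧
      ∀ τ : ℂ ≃+* ℂ, FixK K τ → Typ (M.e.linearMap U.e) (th M.t U.t) (j, j)
        (sl (M.b.linearMap U.b) τ f) := by
  -- the weight of the map
  obtain ⟨s, F, hF, hsum⟩ := dec_EG (b := M.b.linearMap U.b) (e := M.e.linearMap U.e)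
    (t := th M.t U.t) (τ := RingEquiv.refl ℂ) mon_sum f₀
  have hFm : ∀ k ∈ s, F k ∈ H := comp_mem
    (D := (DH M U (RingEquiv.refl ℂ) two two).toLinearMap)
    (fun x hx => hH _ (fun _ => rfl) _ _ x hx) s F (fun k _ => hF k)
    (by rw [← hsum]; exact hf₀)
  obtain ⟨k, hk, hk0⟩ : ∃ k ∈ s, F k ≠ 0 := by
    by_contra hcon
    push Not at hcon
    exact h0 (by rw [hsum]; exact Finset.sum_eq_zero hcon)
  let A : Submodule ℂ (Cx K M.V →ₗ[ℂ] Cx K U.V) := H ⊓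
    EG (M.b.linearMap U.b) (M.e.linearMap U.e) (th M.t U.t) (RingEquiv.refl ℂ) two two k
  have hfA : F k ∈ A := ⟨hFm k hk, hF k⟩
  have hτ1 : ∀ τ : ℂ ≃+* ℂ, FixK K τ → DH M U τ two two⁻¹ (F k) = F k := by
    intro τ hτ
    have hstab : ∀ x ∈ A, DH M U τ two two⁻¹ x ∈ A := by
      intro x hx
      refine ⟨hH τ hτ _ _ x hx.1, ?_⟩
      have h1 : DH M U (RingEquiv.refl ℂ) two two x = ((two ^ k : ℂˣ) : ℂ) • x := hx.2
      change DH M U (RingEquiv.refl ℂ) two two (DH M U τ two two⁻¹ x) =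
        ((two ^ k : ℂˣ) : ℂ) • DH M U τ two two⁻¹ x
      have h3 : DH M U τ two two (DH M U τ two two⁻¹ x) =
        DH M U τ two two⁻¹ (DH M U τ two two x) := Dg_comm _ _ _ _ _ _ _ _ _
      rw [← DH_wt hwM hwU hτ, h3, DH_wt hwM hwU hτ, h1, map_smul]
    obtain ⟨s', G, hG, hsum'⟩ := dec_EG (b := M.b.linearMap U.b) (e := M.e.linearMap U.e)
      (t := th M.t U.t) (τ := τ) mon_diff (F k)
    have hGm : ∀ m ∈ s', G m ∈ A := comp_mem
      (D := (DH M U τ two two⁻¹).toLinearMap) hstab s' G (fun m _ => hG m)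
      (by rw [← hsum']; exact hfA)
    have hG0 : ∀ m ∈ s', m ≠ 0 → G m = 0 := fun m hm hm0 =>
      hdeg τ hτ m hm0 (G m) (hGm m hm).1 (hG m)
    rw [hsum', map_sum]
    refine Finset.sum_congr rfl fun m hm => ?_
    by_cases hm0 : m = 0
    · have h1 : DH M U τ two two⁻¹ (G m) = ((two ^ m : ℂˣ) : ℂ) • G m := hG m
      rw [h1, hm0, zpow_zero, Units.val_one, one_smul]
    · rw [hG0 m hm hm0, map_zero]
  have hdiag : ∀ τ : ℂ ≃+* ℂ, FixK K τ → ∀ l,
      (mv (M.b.linearMap U.b) (M.e.linearMap U.e) τ).repr (F k) l ≠ 0 →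
      (th M.t U.t l).1 - (th M.t U.t l).2 = 0 ∧ (th M.t U.t l).1 + (th M.t U.t l).2 = k := by
    intro τ hτ l hl
    constructor
    · by_contra hcon
      refine hl ((mem_EG' (b := M.b.linearMap U.b) (e := M.e.linearMap U.e)
        (t := th M.t U.t) (τ := τ) mon_diff (m := 0)).1 ?_ l hcon)
      rw [mem_EG, zpow_zero, Units.val_one, one_smul]
      exact hτ1 τ hτ
    · by_contra hcon
      refine hl ((mem_EG' (b := M.b.linearMap U.b) (e := M.e.linearMap U.e)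
        (t := th M.t U.t) (τ := τ) mon_sum (m := k)).1 ?_ l hcon)
      rw [mem_EG]
      exact (DH_wt hwM hwU hτ _).trans hfA.2
  obtain ⟨l, hl⟩ : ∃ l, (mv (M.b.linearMap U.b) (M.e.linearMap U.e)
      (RingEquiv.refl ℂ)).repr (F k) l ≠ 0 := by
    by_contra hcon
    push Not at hcon
    exact hk0 ((mv (M.b.linearMap U.b) (M.e.linearMap U.e) (RingEquiv.refl ℂ)).ext_elem
      fun l => by rw [hcon, map_zero, Finsupp.zero_apply])
  have hl1 := hdiag _ (fun _ => rfl) l hl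
  refine ⟨F k, (th M.t U.t l).1, hk0, fun τ hτ i hi => ?_⟩
  have h1 := mv_repr' (b := M.b.linearMap U.b) (e := M.e.linearMap U.e) τ.symm (F k) i
  rw [RingEquiv.symm_symm] at h1
  rw [h1]
  by_contra hne
  apply hi
  have h2 := hdiag τ.symm (FixK.symm hτ) i (fun h3 => hne (by rw [h3, map_zero]))
  exact Prod.ext (by omega) (by omega)

/-- nonzero elements are injective -/
theorem inj_one (hI : Inj H) {f : Cx K M.V →ₗ[ℂ] Cx K U.V} (hf : f ∈ H) (h0 : f ≠ 0)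
    {v : Cx K M.V} (hv : f v = 0) : v = 0 := by
  refine hI 1 (fun _ => f) (fun _ => v) (fun _ => hf) ?_ ?_ 0
  · exact LinearIndependent.of_subsingleton 0 h0
  · rw [Finset.sum_const, hv, smul_zero]

/-- maps of degree different from zero vanish if the level does not increase -/
theorem inj_deg (hI : Inj H) {d : ℤ} (hU : Lvl U d) {x y : Cx K M.V}
    (hx : x ∈ DG M (RingEquiv.refl ℂ) d) (hx0 : x ≠ 0)
    (hy : y ∈ DG M (RingEquiv.refl ℂ) (-d)) (hy0 : y ≠ 0)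
    {τ : ℂ ≃+* ℂ} {m : ℤ} (hm : m ≠ 0)
    {f : Cx K M.V →ₗ[ℂ] Cx K U.V} (hf : f ∈ H)
    (hfm : DH M U τ two two⁻¹ f = ((two ^ m : ℂˣ) : ℂ) • f) : f = 0 := by
  by_contra hf0
  -- the values on the homogeneous vectors
  have hval : ∀ l, ∀ x ∈ DG M (RingEquiv.refl ℂ) l, x ≠ 0 → (d < m + l ∨ m + l < -d) → False := by
    intro l x hx hx0 hl
    have h1 : sl M.b τ x ∈ DG M τ l := by
      have h0 := sl_EG (σ := τ) mon_diff hx
      rw [refl_trans'] at h0
      exact h0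
    have h2 : f (sl M.b τ x) ∈ EG U.b U.e U.t τ two two⁻¹ (m + l) := by
      rw [mem_EG, ← DH_apply, hfm]
      have h3 : Dg M.b M.e M.t τ two two⁻¹ (sl M.b τ x) = ((two ^ l : ℂˣ) : ℂ) • sl M.b τ x := h1
      rw [h3, LinearMap.smul_apply, map_smul, smul_smul, zpow_add, Units.val_mul]
    have h4 : f (sl M.b τ x) = 0 := by
      refine (mv U.b U.e τ).ext_elem fun k => ?_
      rw [map_zero, Finsupp.zero_apply]
      refine (mem_EG' mon_diff).1 h2 k fun hk => ?_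
      have h3 := hU k
      rw [hk] at h3
      omega
    have h5 := inj_one hI hf hf0 h4
    apply hx0
    have h6 : sl M.b τ.symm (sl M.b τ x) = x := by
      rw [sl_comp]
      have h7 : τ.trans τ.symm = RingEquiv.refl ℂ := by
        ext z
        simp
      rw [h7, sl_refl]
    rw [← h6, h5, map_zero]
  rcases lt_or_gt_of_ne hm with hm | hm
  · exact hval _ y hy hy0 (by omega)
  · exact hval _ x hx hx0 (by omega)

/-- a bihomogeneous element -/
theorem exists_bi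
    (hH : ∀ z u, ∀ f ∈ H, DH M U (RingEquiv.refl ℂ) z u f ∈ H)
    {f₀ : Cx K M.V →ₗ[ℂ] Cx K U.V} (hf₀ : f₀ ∈ H) (h0 : f₀ ≠ 0) :
    ∃ f ∈ H, f ≠ 0 ∧ ∃ k m : ℤ, DH M U (RingEquiv.refl ℂ) two two f = ((two ^ k : ℂˣ) : ℂ) • f ∧
      DH M U (RingEquiv.refl ℂ) two two⁻¹ f = ((two ^ m : ℂˣ) : ℂ) • f := by
  obtain ⟨s, F, hF, hsum⟩ := dec_EG (b := M.b.linearMap U.b) (e := M.e.linearMap U.e)
    (t := th M.t U.t) (τ := RingEquiv.refl ℂ) mon_sum f₀
  have hFm : ∀ k ∈ s, F k ∈ H := comp_mem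
    (D := (DH M U (RingEquiv.refl ℂ) two two).toLinearMap)
    (fun x hx => hH _ _ x hx) s F (fun k _ => hF k)
    (by rw [← hsum]; exact hf₀)
  obtain ⟨k, hk, hk0⟩ : ∃ k ∈ s, F k ≠ 0 := by
    by_contra hcon
    push Not at hcon
    exact h0 (by rw [hsum]; exact Finset.sum_eq_zero hcon)
  let A : Submodule ℂ (Cx K M.V →ₗ[ℂ] Cx K U.V) := H ⊓
    EG (M.b.linearMap U.b) (M.e.linearMap U.e) (th M.t U.t) (RingEquiv.refl ℂ) two two k
  have hfA : F k ∈ A := ⟨hFm k hk, hF k⟩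
  have hstab : ∀ x ∈ A, DH M U (RingEquiv.refl ℂ) two two⁻¹ x ∈ A := by
    intro x hx
    refine ⟨hH _ _ x hx.1, ?_⟩
    have h1 : DH M U (RingEquiv.refl ℂ) two two x = ((two ^ k : ℂˣ) : ℂ) • x := hx.2
    change DH M U (RingEquiv.refl ℂ) two two (DH M U (RingEquiv.refl ℂ) two two⁻¹ x) =
      ((two ^ k : ℂˣ) : ℂ) • DH M U (RingEquiv.refl ℂ) two two⁻¹ x
    have h3 : DH M U (RingEquiv.refl ℂ) two two (DH M U (RingEquiv.refl ℂ) two two⁻¹ x) =
      DH M U (RingEquiv.refl ℂ) two two⁻¹ (DH M U (RingEquiv.refl ℂ) two two x) :=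
      Dg_comm _ _ _ _ _ _ _ _ _
    rw [h3, h1, map_smul]
  obtain ⟨s', G, hG, hsum'⟩ := dec_EG (b := M.b.linearMap U.b) (e := M.e.linearMap U.e)
    (t := th M.t U.t) (τ := RingEquiv.refl ℂ) mon_diff (F k)
  have hGm : ∀ m ∈ s', G m ∈ A := comp_mem
    (D := (DH M U (RingEquiv.refl ℂ) two two⁻¹).toLinearMap) hstab s' G (fun m _ => hG m)
    (by rw [← hsum']; exact hfA)
  obtain ⟨m, hm, hm0⟩ : ∃ m ∈ s', G m ≠ 0 := by
    by_contra hcon
    push Not at hcon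
    exact hk0 (by rw [hsum']; exact Finset.sum_eq_zero hcon)
  exact ⟨G m, (hGm m hm).1, hm0, k, m, (hGm m hm).2, hG m⟩

/-- **The Hodge numbers.** -/
theorem num_bot (hH : ∀ g, ∀ f ∈ H, hM U g ∘ₗ f ∘ₗ hM M g⁻¹ ∈ H) (hI : Inj H)
    (hn : ∀ a b : ℤ, ∃ p q : ℤ, finrank ℂ (U.pq (p + a) (q + b)) < finrank ℂ (M.pq p q)) :
    H = ⊥ := by
  rw [Submodule.eq_bot_iff]
  intro f₀ hf₀
  by_contra h0
  obtain ⟨f, hf, hf0, k, m, hk, hm⟩ := exists_bi
    (fun z u f hf => DH_mem hH (fun _ => rfl) z u hf) hf₀ h0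
  have hty : ∀ p q, ∀ x ∈ M.pq p q, ∀ l, ((U.t l).1 + (U.t l).2 ≠ k + (p + q) ∨
      (U.t l).1 - (U.t l).2 ≠ m + (p - q)) → U.e.repr (f x) l = 0 := by
    intro p q x hx l hl
    have h1 := ((M.mem p q x).1 hx).dg (b := M.b) (RingEquiv.refl ℂ) two two
    have h2 := ((M.mem p q x).1 hx).dg (b := M.b) (RingEquiv.refl ℂ) two two⁻¹
    rw [sl_refl, mon_sum] at h1
    rw [sl_refl, mon_diff] at h2
    simp only at h1 h2
    have h3 : f x ∈ EG U.b U.e U.t (RingEquiv.refl ℂ) two two (k + (p + q)) := by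
      rw [mem_EG, ← DH_apply, hk, h1, LinearMap.smul_apply, map_smul, smul_smul,
        zpow_add two k (p + q), Units.val_mul]
    have h4 : f x ∈ EG U.b U.e U.t (RingEquiv.refl ℂ) two two⁻¹ (m + (p - q)) := by
      rw [mem_EG, ← DH_apply, hm, h2, LinearMap.smul_apply, map_smul, smul_smul,
        zpow_add two m (p - q), Units.val_mul]
    rw [← mv_refl_repr (b := U.b)]
    rcases hl with hl | hl
    · exact (mem_EG' mon_sum).1 h3 l hl
    · exact (mem_EG' mon_diff).1 h4 l hl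
  by_cases hpar : (k + m) % 2 = 0
  · obtain ⟨p, q, hpq⟩ := hn ((k + m) / 2) ((k - m) / 2)
    have h1 : ∀ x ∈ M.pq p q, f x ∈ U.pq (p + (k + m) / 2) (q + (k - m) / 2) := by
      intro x hx
      refine (U.mem _ _ _).2 fun l hl => hty p q x hx l ?_
      by_contra hcon
      push Not at hcon
      exact hl (Prod.ext (by simp only; omega) (by simp only; omega))
    let g : M.pq p q →ₗ[ℂ] U.pq (p + (k + m) / 2) (q + (k - m) / 2) :=
      (f.domRestrict (M.pq p q)).codRestrict _ fun x => h1 x x.2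
    have hg : Function.Injective g := by
      refine (injective_iff_map_eq_zero g).2 fun x hx => Subtype.ext ?_
      exact inj_one hI hf hf0 (v := x) (congrArg Subtype.val hx)
    have := U.fdC
    have h2 := LinearMap.finrank_le_finrank_of_injective hg
    omega
  · apply hf0
    refine M.e.ext fun i => ?_
    rw [LinearMap.zero_apply]
    refine U.e.ext_elem fun l => ?_
    rw [map_zero, Finsupp.zero_apply]
    refine hty (M.t i).1 (M.t i).2 _ ((M.mem' _ _).2 (Typ.basis i)) l ?_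
    by_contra hcon
    push Not at hcon
    omega

end maps

/-- A structure of weight `w` and level `d` with a form, such that the skew operators have only
scalar endomorphisms; the level is odd or the dimension is at least `10`. -/
structure FullX (M : HS K) (d : ℤ) (ψ : M.V →ₗ[K] M.V →ₗ[K] K) : Prop where
  pos : 0 < d
  lev : Lvl M d
  sim : ∃ w, Sim M w ψ
  pol : Polarisable M
  full : ∀ f : M.endo.V →ₗ[K] M.endo.V, IsHom (M := M.endo) (N := M.endo) f →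
      (∀ X, f X ∈ skewK ψ) → ∃ c : K, ∀ X ∈ skewK ψ, f X = c • X
  ext : 1 ≤ finrank ℂ (DG M (RingEquiv.refl ℂ) d)
  top : (Odd d ∧ (∀ x y, ψ x y = -ψ y x)) ∨
    ((∀ x y, ψ x y = ψ y x) ∧ 10 ≤ finrank ℂ (Cx K M.V))

variable {M U : HS K} {d : ℤ} {ψ : M.V →ₗ[K] M.V →ₗ[K] K}

theorem FullX.sign (h : FullX M d ψ) : ∃ ε : K, ε * ε = 1 ∧ ∀ x y, ψ x y = ε * ψ y x := by
  rcases h.top with ⟨-, hs⟩ | ⟨hs, -⟩
  · exact ⟨-1, by norm_num, fun x y => by rw [hs, neg_one_mul]⟩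
  · exact ⟨1, by norm_num, fun x y => by rw [hs, one_mul]⟩

theorem FullX.irr [CharZero K] (h : FullX M d ψ)
    (A : Submodule ℂ (Module.End ℂ (Cx K M.V))) (hA : Stab (cj (hM M)) A) (hle : A ≤ skewC ψ) :
    A = ⊥ ∨ A = skewC ψ := by
  obtain ⟨w, hw⟩ := h.sim
  obtain ⟨ε, hε, hs⟩ := h.sign
  exact HG.irr hw hε hs h.full (semiS_endo h.pol.semisimple_endo) A hA hle

/-- **Full Hodge groups give strongly irreducible representations.** -/
theorem FullX.fullN [CharZero K] (h : FullX M d ψ) :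
    ∃ μ : HGp K →* ℂˣ, FullN (hM M) (formC ψ) μ := by
  obtain ⟨w, hw⟩ := h.sim
  obtain ⟨ε, hε, hs⟩ := h.sign
  refine ⟨(chi K) ^ w, ⟨hw.nd, fun g x y => ?_, fun Δ hΔ A hA hle => ?_, ?_⟩⟩
  · rw [MonoidHom.zpow_apply]
    exact form_rho hw g x y
  · exact irr_fin (L := skewC ψ) (HG.skew_stab hw) h.irr (semiS_endo h.pol.semisimple_endo)
      (fun Δ' hΔ' q hq1 hq2 => scal hw hε hs h.full Δ' hΔ' q hq1 hq2) hΔ
      (fun g hg x hx => hA g hg x hx) hle
  · rcases h.top with ⟨-, hs⟩ | ⟨hs, h5⟩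
    · refine Or.inl ⟨fun x y => ?_, h.ext.trans (Submodule.finrank_le _)⟩
      have h3 := formC_symm (ε := (-1 : K)) (ψ := ψ) (fun x y => by rw [hs, neg_one_mul]) x y
      rw [h3, map_neg, map_one, neg_one_mul]
    · refine Or.inr ⟨fun x y => ?_, by omega⟩
      have h3 := formC_symm (ε := (1 : K)) (ψ := ψ) (fun x y => by rw [hs, one_mul]) x y
      rw [h3, map_one, one_mul]

theorem FullX.toL (h : FullX M d ψ)
    (h5 : Odd d ∨ 5 ≤ finrank ℂ (DG M (RingEquiv.refl ℂ) d)) (hs' : Odd d → ∀ x y, ψ x y = -ψ y x)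
    : FullL M d ψ where
  pos := h.pos
  lev := h.lev
  sim := h.sim
  pol := h.pol
  full := h.full
  top := by
    by_cases ho : Odd d
    · exact Or.inl ⟨ho, hs' ho, h.ext⟩
    · rcases h.top with ⟨h1, -⟩ | ⟨hs, -⟩
      · exact absurd h1 ho
      · exact Or.inr ⟨hs, h5.resolve_left ho⟩

/-- the extreme vectors -/
theorem FullX.extr (h : FullX M d ψ) : ∃ x y : Cx K M.V, x ∈ DG M (RingEquiv.refl ℂ) d ∧ x ≠ 0 ∧
    y ∈ DG M (RingEquiv.refl ℂ) (-d) ∧ y ≠ 0 := by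
  obtain ⟨w, hw⟩ := h.sim
  obtain ⟨ε, hε, hs⟩ := h.sign
  have hs' : ∀ x y, formC ψ x y = algebraMap K ℂ ε * formC ψ y x := formC_symm hs
  obtain ⟨u, c, hD⟩ := exists_dual hw hs' d
  let i : Fin (finrank ℂ (DG M (RingEquiv.refl ℂ) d)) := ⟨0, h.ext⟩
  refine ⟨u i, c i, hD.memu i, ?_, hD.memc i, ?_⟩
  · intro h0
    have h1 := hD.one i
    simp only [h0, map_zero, LinearMap.zero_apply] at h1
    exact zero_ne_one h1
  · intro h0
    have h1 := hD.one i
    simp only [h0, map_zero, LinearMap.zero_apply] at h1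
    exact zero_ne_one h1

/-- **The dimension criterion, by the level.** -/
theorem spl_small [CharZero K] (h : FullX M d ψ) (hN : 10 ≤ finrank ℂ (Cx K M.V))
    (hdim : finrank ℂ (Cx K U.V) < bd (finrank ℂ (Cx K M.V)))
    (hpU : Polarisable U) (hwU : Wt U) (hU : Lvl U d) (hap : Apart M U) :
    Spl (full (Cx K M.V) (hM M)) {full (Cx K U.V) (hM U)} := by
  obtain ⟨μ, hμ⟩ := h.fullN
  obtain ⟨w, hw⟩ := h.sim
  obtain ⟨x, y, hx, hx0, hy, hy0⟩ := h.extr
  refine spl_dim hμ (semiS_endo hpU.semisimple_endo) hN hdim fun H hH hI => ?_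
  rw [Submodule.eq_bot_iff]
  intro f₀ hf₀
  by_contra h0
  obtain ⟨f, j, h1, h2⟩ := pureOf (H := H) (wt_of_pure hw.weight) hwU
    (fun τ hτ z u f hf => DH_mem hH hτ z u hf)
    (fun τ hτ m hm f hf hfm => inj_deg hI hU hx hx0 hy hy0 hm hf hfm) hf₀ h0
  exact exists_tw h1 h2 hap

/-- **The dimension criterion, by the Hodge numbers.** -/
theorem spl_num [CharZero K] (h : FullX M d ψ) (hN : 10 ≤ finrank ℂ (Cx K M.V))
    (hdim : finrank ℂ (Cx K U.V) < bd (finrank ℂ (Cx K M.V)))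
    (hpU : Polarisable U)
    (hn : ∀ a b : ℤ, ∃ p q : ℤ, finrank ℂ (U.pq (p + a) (q + b)) < finrank ℂ (M.pq p q)) :
    Spl (full (Cx K M.V) (hM M)) {full (Cx K U.V) (hM U)} := by
  obtain ⟨μ, hμ⟩ := h.fullN
  exact spl_dim hμ (semiS_endo hpU.semisimple_endo) hN hdim fun H hH hI => num_bot hH hI hn

theorem lt_bd {N : ℕ} (hN : 10 ≤ N) : N < bd N := by
  obtain ⟨n, hn⟩ : ∃ n, N / 2 = n := ⟨_, rfl⟩
  rw [half_bd hn]
  have h5 : 5 ≤ n := by omega
  refine lt_min ?_ ?_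
  · obtain ⟨m, rfl⟩ : ∃ m, n = m + 5 := ⟨n - 5, by omega⟩
    have h1 : m + 5 - 1 = m + 4 := rfl
    have h2 : N < 2 * (m + 5) + 2 := by omega
    rw [h1]
    nlinarith
  · have h1 : ∀ m, 4 ≤ m → 2 * (m + 1) + 1 < 2 ^ m := by
      intro m hm
      induction m, hm using Nat.le_induction with
      | base => norm_num
      | succ m hm ih => rw [pow_succ]; omega
    have h2 := h1 (n - 1) (by omega)
    omega

/-- **Structures of smaller dimension.** -/
theorem spl_lt [CharZero K] (h : FullX M d ψ) (hN : 10 ≤ finrank ℂ (Cx K M.V))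
    (hdim : finrank ℂ (Cx K U.V) < finrank ℂ (Cx K M.V)) (hpU : Polarisable U) :
    Spl (full (Cx K M.V) (hM M)) {full (Cx K U.V) (hM U)} := by
  obtain ⟨μ, hμ⟩ := h.fullN
  refine spl_dim hμ (semiS_endo hpU.semisimple_endo) hN (hdim.trans (lt_bd hN)) fun H hH hI => ?_
  rw [Submodule.eq_bot_iff]
  intro f hf
  by_contra h0
  have hinj : Function.Injective f :=
    (injective_iff_map_eq_zero f).2 fun x hx => inj_one hI hf h0 hx
  have h2 := LinearMap.finrank_le_finrank_of_injective hinj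
  omega

/-- **Two structures with full Hodge groups.** -/
theorem spl_pairX [CharZero K] {M U : HS K} {d d' : ℤ} {ψ : M.V →ₗ[K] M.V →ₗ[K] K}
    {ψ' : U.V →ₗ[K] U.V →ₗ[K] K} (h : FullX M d ψ) (h' : FullX U d' ψ') (hap : Apart M U)
    (hap' : Apart U M) : Spl (full (Cx K M.V) (hM M)) {full (Cx K U.V) (hM U)} := by
  obtain ⟨w, hw⟩ := h.sim
  obtain ⟨w', hw'⟩ := h'.sim
  by_cases hN : 10 ≤ finrank ℂ (Cx K M.V) ∨ 10 ≤ finrank ℂ (Cx K U.V)
  · rcases lt_trichotomy (finrank ℂ (Cx K M.V)) (finrank ℂ (Cx K U.V)) with hlt | heq | hlt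
    · exact spl_symm (spl_lt h' (by omega) hlt h.pol)
    · have h1 := lt_bd (N := finrank ℂ (Cx K U.V)) (by omega)
      rcases le_total d' d with hd | hd
      · refine spl_small h (by omega) (by rw [heq]; exact h1) h'.pol (wt_of_pure hw'.weight)
          (fun k => ?_) hap
        have h2 := h'.lev k
        omega
      · refine spl_symm (spl_small h' (by omega) (by rw [heq]; exact h1) h.pol
          (wt_of_pure hw.weight) (fun k => ?_) hap')
        have h2 := h.lev k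
        omega
    · exact spl_lt h (by omega) hlt h'.pol
  · push Not at hN
    obtain ⟨h1, h2⟩ : Odd d ∧ ∀ x y, ψ x y = -ψ y x := by
      rcases h.top with h3 | ⟨-, h3⟩
      · exact h3
      · omega
    obtain ⟨h1', h2'⟩ : Odd d' ∧ ∀ x y, ψ' x y = -ψ' y x := by
      rcases h'.top with h3 | ⟨-, h3⟩
      · exact h3
      · omega
    exact spl_full (h.toL (Or.inl h1) fun _ => h2) (h'.toL (Or.inl h1') fun _ => h2') hap hap'

end

end Pool.Agent.U233.HG
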