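import Pool.Agent.U233.PW.HFull
import Pool.Agent.U233.PW.Mk
import Pool.Agent.U233.FG.ConvF

/-!
# The transcendental part of a variety with full Hodge group
-/

set_option autoImplicit false
set_option linter.unusedSectionVars false

open CategoryTheory AlgebraicGeometry TensorProduct

universe u

namespace Pool.Agent.U233.HG

open Module Pool.Agent.N179 Pool.Agent.N179.DB Pool.Agent.N179.GR.S
open Pool.Agent.N179.GR (Der InDer SemiS algR full Spl)
open Pool.Agent.N179.DB.S (Cx tens gal bc cx_ind tens_add tens_smul smul_tens exists_tens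
  inF_tens bx_apply bc_tens bc_gal gal_add gal_tens galB gal_mul gr' gr'_eq gal_gr' mem_of_base
  span_alg algS algT base_mul)
open Pool.Agent.H914 Pool.Agent.H914.VarClass Pool.Agent.H914.VarClass.Obj
  Pool.Agent.H914.WeilCohomology Pool.Agent.TH125.Gal Pool.Agent.W552 Pool.Agent.H281R3.HT
open Pool.Agent.U233.HG.St (Theory coho prd)
open Pool.Agent.Y133.Per (Base baseMap baseTr tm base_ind baseTr_tm)
open Pool.Agent.U233.TF (TransF) 
open Pool.Agent.U233.PW

variable {k : Type u} [Field k] {𝒱 : VarClass k} {ops : CycleOps 𝒱} (T : Theory ops)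

noncomputable section

theorem mem_gr_iff {X : 𝒱.Obj} {i : ℕ} {x : Cx T.W.K (T.W.H X)} :
    x ∈ gr' T.W X i ↔ (bc (pj T X i) x : Cx T.W.K (T.W.H X)) = x := by
  constructor
  · intro hx
    have h3 : x ∈ Submodule.span ℂ {x : Base T.W.K (T.W.H X) | ∃ s ∈ T.W.gr X i, x = tm 1 s} := by
      rw [← gr'_eq]
      exact hx
    have h5 : Submodule.span ℂ {x : Base T.W.K (T.W.H X) | ∃ s ∈ T.W.gr X i, x = tm 1 s} ≤
        LinearMap.eqLocus (show Base T.W.K (T.W.H X) →ₗ[ℂ] Base T.W.K (T.W.H X) from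
          bc (pj T X i)) LinearMap.id := by
      refine Submodule.span_le.2 ?_
      rintro _ ⟨s, hs, rfl⟩
      have h6 : (bc (pj T X i) (tens 1 s) : Cx T.W.K (T.W.H X)) = tens 1 s := by
        rw [bc_tens, pj, proj_same _ hs]
      exact h6
    exact h5 h3
  · intro h
    rw [← h]
    exact pj_gr T X i x

/-- the action is like a Galois action -/
theorem isGal (X : 𝒱.Obj) :
    TH125.Gal.IsGalois (baseW T.W ℂ) (ch T) X (var T X).act where
  gr_mem g i a ha := by
    have h1 : (a : Cx T.W.K (T.W.H X)) ∈ gr' T.W X i := ha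
    have h2 := (mem_gr_iff T).1 h1
    have h3 := rr_pj T X i g a
    have h4 : (bc (pj T X i) (show Cx T.W.K (T.W.H X) from rr T X g a) :
        Cx T.W.K (T.W.H X)) = rr T X g a := h3.trans (congrArg _ h2)
    exact (mem_gr_iff T).2 h4
  tr_act g a := traceInv T X g a
  cl_act g j c hc := by
    obtain ⟨z, hz, rfl⟩ := hc
    exact ⟨_, ⟨z, hz, rfl⟩, hodge_tw T (j := j) ⟨T.W.cl_mem hz, T.cyc X j _ ⟨z, hz, rfl⟩⟩ g⟩
  cl_fix j c hc := by
    obtain ⟨z, hz, rfl⟩ := hc
    exact ⟨⊤, inferInstance, fun g _ =>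
      hodge_tw T (j := j) ⟨T.W.cl_mem hz, T.cyc X j _ ⟨z, hz, rfl⟩⟩ g⟩

/-- the cohomology of `X` is the sum of algebraic classes and of `V` in the middle degree -/
def ModelH (V : HS T.W.K) (X : 𝒱.Obj) : Prop :=
  ∃ f : V.V →ₗ[T.W.K] T.W.H X, IsHom (M := V) (N := coh T X) f ∧ (∀ v, f v = 0 → v = 0) ∧
    (∀ v, f v ∈ T.W.gr X X.dim) ∧ ∀ x, ∃ c ∈ algSpan T.W X, ∃ v, x = c + f v

theorem algSpan_base {X : 𝒱.Obj} {c : T.W.H X} (hc : c ∈ algSpan T.W X) :
    (tm 1 c : Base T.W.K (T.W.H X)) ∈ algSpan (baseW T.W ℂ) X := by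
  induction hc using Submodule.span_induction with
  | mem c hc =>
    obtain ⟨j, z, hz, rfl⟩ := Set.mem_iUnion.1 hc
    exact Submodule.subset_span (Set.mem_iUnion.2 ⟨j, z, hz, rfl⟩)
  | zero =>
    have h1 : (tm 1 (0 : T.W.H X) : Base T.W.K (T.W.H X)) = 0 := TensorProduct.tmul_zero _ _
    rw [h1]
    exact Submodule.zero_mem _
  | add x y _ _ hx hy =>
    have h1 : (tm 1 (x + y) : Base T.W.K (T.W.H X)) = tm 1 x + tm 1 y := tens_add 1 x y
    rw [h1]
    exact Submodule.add_mem _ hx hy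
  | smul q x _ hx =>
    have h1 : (tm 1 (q • x) : Base T.W.K (T.W.H X)) = algebraMap T.W.K ℂ q • tm 1 x := by
      have h2 := tens_smul (K := T.W.K) q x 1
      have h3 := smul_tens (K := T.W.K) (algebraMap T.W.K ℂ q) 1 x
      exact h2.trans h3.symm
    rw [h1]
    exact Submodule.smul_mem _ (algebraMap T.W.K ℂ q : (baseW T.W ℂ).K) hx

/-- the representation, over the coefficients of the theory -/
def repW (V : HS T.W.K) : GRep (baseW T.W ℂ).K (HGp T.W.K) := rep V

/-- the form on the representation -/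
def formW (V : HS T.W.K) (ψ : V.V →ₗ[T.W.K] V.V →ₗ[T.W.K] T.W.K) :
    (repW T V).V →ₗ[(baseW T.W ℂ).K] (repW T V).V →ₗ[(baseW T.W ℂ).K] (baseW T.W ℂ).K :=
  (show Cx T.W.K V.V →ₗ[ℂ] Cx T.W.K V.V →ₗ[ℂ] ℂ from formC ψ)

/-- **The transcendental part.** -/
theorem model_trans {V : HS T.W.K} {X : 𝒱.Obj} (h : ModelH T V X)
    {ψ : V.V →ₗ[T.W.K] V.V →ₗ[T.W.K] T.W.K} {μ : HGp T.W.K →* (baseW T.W ℂ).Kˣ}
    (hV : FullN (repW T V).hom (formW T V ψ) μ) :
    ∃ f : (repW T V).V →ₗ[(baseW T.W ℂ).K] (baseW T.W ℂ).H X,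
      TransF (W := baseW T.W ℂ) (ch T) X (var T X).act (repW T V).hom f := by
  obtain ⟨f₀, h1, h2, h3, h4⟩ := h
  have hcl : IsAlgClosed (baseW T.W ℂ).K := inferInstanceAs (IsAlgClosed ℂ)
  refine ⟨(show Cx T.W.K V.V →ₗ[ℂ] Cx T.W.K (T.W.H X) from bc f₀), ?_⟩
  refine transF_mk (W := baseW T.W ℂ) (V := (repW T V).V) (ψ := formW T V ψ) (μ := μ) (isGal T X) hV
    (fun g v => ?_) ?_ (fun v => ?_) (fun x => ?_)
  · exact rho_lin (M := V) (N := coh T X) f₀ h1 g v
  · have h5 : Function.Injective f₀ := (injective_iff_map_eq_zero _).2 h2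
    exact Module.Flat.lTensor_preserves_injective_linearMap (M := ℂ) f₀ h5
  · have key : ∀ v : Cx T.W.K V.V, (bc f₀ v : Cx T.W.K (T.W.H X)) ∈ gr' T.W X X.dim := by
      intro v
      refine cx_ind (p := fun v => (bc f₀ v : Cx T.W.K (T.W.H X)) ∈ gr' T.W X X.dim) ?_ ?_ ?_ v
      · rw [map_zero]
        exact Submodule.zero_mem _
      · intro r c
        rw [bc_tens]
        exact Submodule.tmul_mem_baseChange_of_mem r (h3 c)
      · intro a b ha hb
        rw [map_add]
        exact Submodule.add_mem _ ha hb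
    exact key v
  · have key : ∀ x : Cx T.W.K (T.W.H X), ∃ c : Base T.W.K (T.W.H X),
        c ∈ algSpan (baseW T.W ℂ) X ∧ ∃ v : Cx T.W.K V.V,
          (show Base T.W.K (T.W.H X) from x) = c + (show Base T.W.K (T.W.H X) from bc f₀ v) := by
      intro x
      refine cx_ind (p := fun x => ∃ c : Base T.W.K (T.W.H X),
        c ∈ algSpan (baseW T.W ℂ) X ∧ ∃ v : Cx T.W.K V.V,
          (show Base T.W.K (T.W.H X) from x) = c + (show Base T.W.K (T.W.H X) from bc f₀ v))
          ?_ ?_ ?_ x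
      · refine ⟨0, Submodule.zero_mem _, 0, ?_⟩
        have h6 : (bc f₀ (0 : Cx T.W.K V.V) : Cx T.W.K (T.W.H X)) = 0 := map_zero _
        rw [h6, zero_add]
      · intro r y
        obtain ⟨c, hc, v, rfl⟩ := h4 y
        refine ⟨r • (tm 1 c : Base T.W.K (T.W.H X)),
          Submodule.smul_mem _ (r : (baseW T.W ℂ).K) (algSpan_base T hc), tens r v, ?_⟩
        have h6 : (bc f₀ (tens r v) : Cx T.W.K (T.W.H X)) = tens r (f₀ v) := bc_tens _ _ _
        have h7 : (tens r (c + f₀ v) : Cx T.W.K (T.W.H X)) = tens r c + tens r (f₀ v) :=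
          tens_add r c (f₀ v)
        have h8 : (tens r c : Cx T.W.K (T.W.H X)) = r • tens 1 c := by rw [smul_tens, mul_one]
        have h9 : (show Base T.W.K (T.W.H X) from tens r (c + f₀ v)) =
            (show Base T.W.K (T.W.H X) from tens r c) +
              (show Base T.W.K (T.W.H X) from tens r (f₀ v)) := h7
        refine h9.trans ?_
        rw [h6]
        exact congrArg (· + (show Base T.W.K (T.W.H X) from tens r (f₀ v))) h8
      · rintro a b ⟨c, hc, v, ha⟩ ⟨c', hc', v', hb⟩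
        refine ⟨c + c', Submodule.add_mem _ hc hc', v + v', ?_⟩
        have h6 : (bc f₀ (v + v') : Cx T.W.K (T.W.H X)) = bc f₀ v + bc f₀ v' := map_add _ _ _
        have h7 : (show Base T.W.K (T.W.H X) from bc f₀ (v + v')) =
          (show Base T.W.K (T.W.H X) from bc f₀ v) +
            (show Base T.W.K (T.W.H X) from bc f₀ v') := h6
        rw [h7]
        have h8 : (show Base T.W.K (T.W.H X) from a + b) =
          (show Base T.W.K (T.W.H X) from a) + (show Base T.W.K (T.W.H X) from b) := rfl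
        rw [h8, ha, hb]
        abel
    exact key x

end

end Pool.Agent.U233.HG
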