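import Pool.Agent.U233.TF.Lin

/-!
# Hyperbolic families
-/

set_option autoImplicit false
set_option linter.unusedSectionVars false

namespace Pool.Agent.U233.PW

open Module

noncomputable section

variable {K : Type} [Field K]

/-- a hyperbolic family -/
structure Hyp {V : Type} [AddCommGroup V] [Module K V] (ψ : V →ₗ[K] V →ₗ[K] K) {n : ℕ}
    (e f : Fin n → V) : Prop where
  ee : ∀ i j, ψ (e i) (e j) = 0
  ff : ∀ i j, ψ (f i) (f j) = 0
  one : ∀ i, ψ (e i) (f i) = 1
  zero : ∀ i j, i ≠ j → ψ (e i) (f j) = 0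

section pair

variable {V : Type} [AddCommGroup V] [Module K V] [FiniteDimensional K V]
  {ψ : V →ₗ[K] V →ₗ[K] K} {E : K}

/-- an isotropic vector -/
theorem exists_iso [CharZero K] [IsAlgClosed K] (hE : E * E = 1) (hs : ∀ x y, ψ x y = E * ψ y x)
    (h2 : 2 ≤ finrank K V) : ∃ x : V, x ≠ 0 ∧ ψ x x = 0 := by
  have hE' : E = 1 ∨ E = -1 := mul_self_eq_one_iff.1 hE
  rcases hE' with rfl | rfl
  · obtain ⟨b, hb⟩ : ∃ b : Fin 2 → V, LinearIndependent K b :=
      exists_linearIndependent_of_le_finrank h2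
    have hsy : ψ (b 1) (b 0) = ψ (b 0) (b 1) := by rw [hs, one_mul]
    by_cases h0 : ψ (b 1) (b 1) = 0
    · exact ⟨b 1, hb.ne_zero 1, h0⟩
    · obtain ⟨t, ht⟩ := IsAlgClosed.exists_pow_nat_eq
        ((ψ (b 0) (b 1)) ^ 2 - ψ (b 0) (b 0) * ψ (b 1) (b 1)) (n := 2) (by norm_num)
      -- the root of the quadratic equation
      set s := (-(ψ (b 0) (b 1)) + t) / ψ (b 1) (b 1) with hsd
      have hs1 : s * ψ (b 1) (b 1) = -(ψ (b 0) (b 1)) + t := by
        rw [hsd, div_mul_cancel₀ _ h0]
      refine ⟨b 0 + s • b 1, fun h => ?_, ?_⟩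
      · have h3 := Fintype.linearIndependent_iff.1 hb ![1, s] (by
          rw [Fin.sum_univ_two]
          simp only [Matrix.cons_val_zero, Matrix.cons_val_one]
          rw [one_smul, h]) 0
        simp only [Matrix.cons_val_zero] at h3
        exact one_ne_zero h3
      · simp only [map_add, LinearMap.add_apply, map_smul, LinearMap.smul_apply, smul_eq_mul, hsy]
        have h3 : ψ (b 1) (b 1) * (ψ (b 0) (b 0) + s * ψ (b 0) (b 1) +
            s * (ψ (b 0) (b 1) + s * ψ (b 1) (b 1))) = 0 := by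
          rw [hs1]
          have h4 : ψ (b 1) (b 1) * (ψ (b 0) (b 0) + s * ψ (b 0) (b 1) +
            s * (ψ (b 0) (b 1) + (-(ψ (b 0) (b 1)) + t))) = ψ (b 1) (b 1) * ψ (b 0) (b 0) +
              (s * ψ (b 1) (b 1)) * (ψ (b 0) (b 1) + t) := by ring
          rw [h4, hs1]
          linear_combination ht
        have h5 := (mul_eq_zero.1 h3).resolve_left h0
        linear_combination h5
  · have : Nontrivial V := Module.finrank_pos_iff.1 (by omega : 0 < finrank K V)
    obtain ⟨x, hx⟩ := exists_ne (0 : V)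
    refine ⟨x, hx, ?_⟩
    have h3 := hs x x
    have h4 : (2 : K) * ψ x x = 0 := by linear_combination h3
    exact (mul_eq_zero.1 h4).resolve_left two_ne_zero

/-- a hyperbolic pair -/
theorem exists_pair [CharZero K] [IsAlgClosed K] (hE : E * E = 1)
    (hs : ∀ x y, ψ x y = E * ψ y x) (hnd : ∀ x, (∀ y, ψ x y = 0) → x = 0)
    (h2 : 2 ≤ finrank K V) : ∃ e f : V, ψ e e = 0 ∧ ψ f f = 0 ∧ ψ e f = 1 := by
  obtain ⟨x, hx, hxx⟩ := exists_iso hE hs h2
  obtain ⟨z, hz⟩ : ∃ z, ψ x z ≠ 0 := by
    by_contra hall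
    push Not at hall
    exact hx (hnd x hall)
  obtain ⟨y, hxy⟩ : ∃ y, ψ x y = 1 :=
    ⟨(ψ x z)⁻¹ • z, by rw [map_smul, smul_eq_mul, inv_mul_cancel₀ hz]⟩
  have hyx : ψ y x = E := by
    rw [hs, hxy, mul_one]
  have hE' : E = 1 ∨ E = -1 := mul_self_eq_one_iff.1 hE
  rcases hE' with rfl | rfl
  · refine ⟨x, y - (ψ y y / 2) • x, hxx, ?_, ?_⟩
    · simp only [map_sub, LinearMap.sub_apply, map_smul, LinearMap.smul_apply, smul_eq_mul, hxx,
        hxy, hyx]
      ring
    · simp only [map_sub, map_smul, hxx, smul_zero, sub_zero, hxy]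
  · refine ⟨x, y, hxx, ?_, hxy⟩
    have h3 := hs y y
    have h4 : (2 : K) * ψ y y = 0 := by linear_combination h3
    exact (mul_eq_zero.1 h4).resolve_left two_ne_zero

end pair

/-- **Hyperbolic families exist.** -/
theorem exists_hyp [CharZero K] [IsAlgClosed K] {E : K} (hE : E * E = 1) : ∀ (n : ℕ) (V : Type)
    [AddCommGroup V] [Module K V] [FiniteDimensional K V] (ψ : V →ₗ[K] V →ₗ[K] K),
    (∀ x y, ψ x y = E * ψ y x) → (∀ x, (∀ y, ψ x y = 0) → x = 0) → 2 * n ≤ finrank K V →
    ∃ e f : Fin n → V, Hyp ψ e f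
  | 0, V, _, _, _, ψ, _, _, _ => ⟨fun i => i.elim0, fun i => i.elim0,
      ⟨fun i => i.elim0, fun i => i.elim0, fun i => i.elim0, fun i => i.elim0⟩⟩
  | n + 1, V, _, _, _, ψ, hs, hnd, hn => by
    obtain ⟨a, b, haa, hbb, hab⟩ := exists_pair hE hs hnd (by omega)
    have hba : ψ b a = E := by rw [hs, hab, mul_one]
    let C : Submodule K V := LinearMap.ker ((ψ a).prod (ψ b))
    have hC : ∀ x, x ∈ C ↔ ψ a x = 0 ∧ ψ b x = 0 := by
      intro x
      rw [LinearMap.mem_ker]
      exact Prod.ext_iff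
    have hC' : ∀ x ∈ C, ψ x a = 0 ∧ ψ x b = 0 := fun x hx => by
      rw [hs x a, hs x b, ((hC x).1 hx).1, ((hC x).1 hx).2, mul_zero]
      exact ⟨rfl, rfl⟩
    have hdim : 2 * n ≤ finrank K C := by
      have h1 := LinearMap.finrank_range_add_finrank_ker ((ψ a).prod (ψ b))
      have h2 := Submodule.finrank_le (LinearMap.range ((ψ a).prod (ψ b)))
      rw [Module.finrank_prod, finrank_self] at h2
      change _ + finrank K C = _ at h1
      omega
    obtain ⟨e, f, h⟩ := exists_hyp hE n C (ψ.domRestrict₁₂ C C) (fun x y => hs x y) (fun x hx => by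
      apply Subtype.ext
      refine hnd _ fun v => ?_
      have h1 : v - E • ψ b v • a - ψ a v • b ∈ C := by
        rw [hC, map_sub, map_sub, map_sub, map_sub, map_smul, map_smul, map_smul, map_smul,
          map_smul, map_smul, haa, hab, hba, hbb]
        simp only [smul_eq_mul]
        constructor
        · ring
        · linear_combination -(ψ b v) * hE
      have h2 := hx ⟨_, h1⟩
      have h3 : ψ (x : V) (v - E • ψ b v • a - ψ a v • b) = 0 := h2
      rw [map_sub, map_sub, map_smul, map_smul, map_smul, (hC' x x.2).1, (hC' x x.2).2, smul_zero,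
        smul_zero, smul_zero, sub_zero, sub_zero] at h3
      exact h3) hdim
    have ha : ∀ x : C, ψ a x = 0 := fun x => ((hC x).1 x.2).1
    have hb : ∀ x : C, ψ b x = 0 := fun x => ((hC x).1 x.2).2
    have ha' : ∀ x : C, ψ x a = 0 := fun x => (hC' x x.2).1
    have hb' : ∀ x : C, ψ x b = 0 := fun x => (hC' x x.2).2
    refine ⟨Fin.cons a fun i => (e i : V), Fin.cons b fun i => (f i : V), ⟨?_, ?_, ?_, ?_⟩⟩
    · intro i j
      refine Fin.cases ?_ (fun i => ?_) i <;> refine Fin.cases ?_ (fun j => ?_) j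
      · exact haa
      · exact ha _
      · exact ha' _
      · exact h.ee i j
    · intro i j
      refine Fin.cases ?_ (fun i => ?_) i <;> refine Fin.cases ?_ (fun j => ?_) j
      · exact hbb
      · exact hb _
      · exact hb' _
      · exact h.ff i j
    · intro i
      refine Fin.cases ?_ (fun i => ?_) i
      · exact hab
      · exact h.one i
    · intro i j
      refine Fin.cases ?_ (fun i => ?_) i <;> refine Fin.cases ?_ (fun j => ?_) j
      · exact fun h => absurd rfl h
      · exact fun _ => ha _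
      · exact fun _ => hb' _
      · exact fun hij => h.zero i j fun h => hij (congrArg Fin.succ h)

end

end Pool.Agent.U233.PW
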