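import Pool.Agent.U233.FG.Spl
import Pool.Agent.U233.PW.FullN

/-!
# Irreducibility under subgroups of finite index
-/

set_option autoImplicit false
set_option linter.unusedSectionVars false

namespace Pool.Agent.U233.PW

open Module Pool.Agent.N179.GR Pool.Agent.U233.FG Pool.Agent.U233.TF

noncomputable section

variable {K : Type} [Field K] {Γ : Type} [Group Γ]
  {U : Type} [AddCommGroup U] [Module K U] [FiniteDimensional K U]

/-- **Irreducibility under subgroups of finite index.** -/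
theorem irr_fin {r : Γ →* Module.End K U} {L : Submodule K U} (hL : Stab r L)
    (hirr : ∀ A, Stab r A → A ≤ L → A = ⊥ ∨ A = L) (hss : SemiS r)
    (hsc : ∀ Δ : Subgroup Γ, Δ.FiniteIndex → ∀ q : Module.End K U,
      (∀ g ∈ Δ, ∀ x, q (r g x) = r g (q x)) → (∀ x, q x ∈ L) →
      ∃ c : K, ∀ x ∈ L, q x = c • x)
    {Δ : Subgroup Γ} (hΔ : Δ.FiniteIndex) {A : Submodule K U}
    (hA : ∀ g ∈ Δ, ∀ x ∈ A, r g x ∈ A) (hle : A ≤ L) : A = ⊥ ∨ A = L := by
  by_cases hA0 : A = ⊥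
  · exact Or.inl hA0
  right
  set N := Δ.normalCore with hN
  have hNn : N.Normal := Subgroup.normalCore_normal Δ
  have hNf : N.FiniteIndex := inferInstance
  have hNA : ∀ g ∈ N, ∀ x ∈ A, r g x ∈ A := fun g hg => hA g (Subgroup.normalCore_le Δ hg)
  -- a minimal stable subspace
  obtain ⟨A₀, ⟨h01, h02, h03⟩, hmin⟩ := (wellFounded_lt (α := Submodule K U)).has_min
    {B | B ≠ ⊥ ∧ (∀ g ∈ N, ∀ x ∈ B, r g x ∈ B) ∧ B ≤ A} ⟨A, hA0, hNA, le_rfl⟩
  -- a maximal stable subspace with trivial intersection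
  obtain ⟨B, ⟨hB1, hB2, hB3⟩, hmax⟩ := (wellFounded_gt (α := Submodule K U)).has_min
    {B | (∀ g ∈ N, ∀ x ∈ B, r g x ∈ B) ∧ B ≤ L ∧ B ⊓ A₀ = ⊥}
    ⟨⊥, fun g _ x hx => by
      rw [Submodule.mem_bot] at hx
      rw [hx, map_zero]
      exact Submodule.zero_mem _, bot_le, bot_inf_eq _⟩
  have hmul : ∀ g h x, r g (r h x) = r (g * h) x := fun g h x => by rw [map_mul]; rfl
  have hrr : ∀ g x, r g (r g⁻¹ x) = x := fun g x => by
    rw [hmul, mul_inv_cancel, map_one]
    rfl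
  have hrr' : ∀ g x, r g⁻¹ (r g x) = x := fun g x => by
    rw [hmul, inv_mul_cancel, map_one]
    rfl
  have hA₀L : A₀ ≤ L := h03.trans hle
  have hsup : A₀ ⊔ B = L := by
    by_contra hne
    have hT : ⨆ g, A₀.map (r g) = L := by
      refine (hirr _ (fun h x hx => ?_) (iSup_le fun g => ?_)).resolve_left fun hbot => ?_
      · have h1 : (⨆ g, A₀.map (r g)) ≤ (⨆ g, A₀.map (r g)).comap (r h) := by
          refine iSup_le fun g => ?_
          rintro _ ⟨y, hy, rfl⟩
          refine (le_iSup (fun g => A₀.map (r g)) (h * g)) ⟨y, hy, ?_⟩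
          rw [map_mul]
          rfl
        exact h1 hx
      · rintro _ ⟨y, hy, rfl⟩
        exact hL g _ (hA₀L hy)
      · apply h01
        rw [eq_bot_iff, ← hbot]
        intro x hx
        refine (le_iSup (fun g => A₀.map (r g)) 1) ⟨x, hx, ?_⟩
        rw [map_one]
        rfl
    obtain ⟨g, hg⟩ : ∃ g, ¬A₀.map (r g) ≤ A₀ ⊔ B := by
      by_contra hall
      push Not at hall
      refine hne (le_antisymm (sup_le hA₀L hB2) ?_)
      rw [← hT]
      exact iSup_le hall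
    set C := A₀.map (r g) with hC
    have hC1 : ∀ n ∈ N, ∀ x ∈ C, r n x ∈ C := by
      rintro n hn _ ⟨x, hx, rfl⟩
      refine ⟨r (g⁻¹ * n * g) x, h02 _ ?_ x hx, ?_⟩
      · have h1 := hNn.conj_mem n hn g⁻¹
        rwa [inv_inv] at h1
      · rw [hmul, hmul]
        congr 2
        group
    have hC2 : C ≤ L := by
      rintro _ ⟨x, hx, rfl⟩
      exact hL g _ (hA₀L hx)
    have hC0 : C ≠ ⊥ := by
      intro h0
      apply h01
      rw [eq_bot_iff]
      intro x hx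
      have h1 : r g x ∈ C := ⟨x, hx, rfl⟩
      rw [h0, Submodule.mem_bot] at h1
      rw [Submodule.mem_bot, ← hrr' g x, h1, map_zero]
    have hCmin : ∀ D : Submodule K U, (∀ n ∈ N, ∀ x ∈ D, r n x ∈ D) → D ≤ C → D ≠ ⊥ → D = C := by
      intro D hD1 hD2 hD3
      have h1 : D.map (r g⁻¹) = A₀ := by
        by_contra hne'
        refine hmin (D.map (r g⁻¹)) ⟨fun h0 => hD3 ?_, ?_, ?_⟩ (lt_of_le_of_ne ?_ hne')
        · rw [eq_bot_iff]
          intro x hx
          have h1 : r g⁻¹ x ∈ D.map (r g⁻¹) := ⟨x, hx, rfl⟩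
          rw [h0, Submodule.mem_bot] at h1
          rw [Submodule.mem_bot, ← hrr g x, h1, map_zero]
        · rintro n hn _ ⟨x, hx, rfl⟩
          refine ⟨r (g * n * g⁻¹) x, hD1 _ (hNn.conj_mem n hn g) x hx, ?_⟩
          rw [hmul, hmul]
          congr 2
          group
        · rintro _ ⟨x, hx, rfl⟩
          obtain ⟨y, hy, rfl⟩ := hD2 hx
          rw [hrr']
          exact h03 hy
        · rintro _ ⟨x, hx, rfl⟩
          obtain ⟨y, hy, rfl⟩ := hD2 hx
          rw [hrr']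
          exact hy
      rw [hC, ← h1, ← Submodule.map_comp]
      have h2 : (r g) ∘ₗ (r g⁻¹) = LinearMap.id := LinearMap.ext fun x => hrr g x
      rw [h2, Submodule.map_id]
    have hCi : C ⊓ (A₀ ⊔ B) = ⊥ := by
      by_contra h0
      have h1 := hCmin (C ⊓ (A₀ ⊔ B)) (fun n hn x hx => ⟨hC1 n hn x hx.1, ?_⟩) inf_le_left h0
      · exact hg (by rw [← h1]; exact inf_le_right)
      · obtain ⟨a, ha, b, hb, rfl⟩ := Submodule.mem_sup.1 hx.2
        rw [map_add]
        exact Submodule.add_mem_sup (h02 n hn a ha) (hB1 n hn b hb)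
    refine hmax (B ⊔ C) ⟨fun n hn x hx => ?_, sup_le hB2 hC2, ?_⟩ ?_
    · obtain ⟨b, hb, c, hc, rfl⟩ := Submodule.mem_sup.1 hx
      rw [map_add]
      exact Submodule.add_mem_sup (hB1 n hn b hb) (hC1 n hn c hc)
    · rw [eq_bot_iff]
      rintro x ⟨hx1, hx2⟩
      obtain ⟨b, hb, c, hc, rfl⟩ := Submodule.mem_sup.1 hx1
      have h1 : c ∈ C ⊓ (A₀ ⊔ B) := by
        refine ⟨hc, ?_⟩
        have h2 : c = (b + c) + -b := by abel
        rw [h2]
        exact Submodule.add_mem_sup hx2 (B.neg_mem hb)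
      rw [hCi, Submodule.mem_bot] at h1
      subst h1
      rw [add_zero] at hx2 ⊢
      rw [← hB3]
      exact ⟨hb, hx2⟩
    · refine lt_of_le_of_ne le_sup_left fun h1 => hC0 ?_
      rw [eq_bot_iff, ← hCi]
      refine le_inf le_rfl ?_
      have h2 : C ≤ B := by
        rw [h1]
        exact le_sup_right
      exact h2.trans le_sup_right
  -- the projector
  obtain ⟨B₂, hB₂, hc₂⟩ := hss L hL
  have hc : IsCompl A₀ (B ⊔ B₂) := by
    refine ⟨?_, ?_⟩
    · rw [disjoint_iff, eq_bot_iff]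
      rintro x ⟨hx1, hx2⟩
      obtain ⟨b, hb, b₂, hb₂, rfl⟩ := Submodule.mem_sup.1 hx2
      have h1 : b₂ ∈ L ⊓ B₂ := by
        refine ⟨?_, hb₂⟩
        have h2 : b₂ = (b + b₂) + -b := by abel
        rw [h2]
        exact L.add_mem (hA₀L hx1) (L.neg_mem (hB2 hb))
      rw [hc₂.inf_eq_bot, Submodule.mem_bot] at h1
      subst h1
      rw [add_zero] at hx1 ⊢
      rw [← hB3]
      exact ⟨hb, hx1⟩
    · rw [codisjoint_iff, ← sup_assoc, hsup]
      exact hc₂.sup_eq_top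
  let q : Module.End K U := A₀.subtype ∘ₗ Submodule.projectionOnto A₀ (B ⊔ B₂) hc
  have hq1 : ∀ x ∈ A₀, q x = x := by
    intro x hx
    exact congrArg Subtype.val (Submodule.projectionOnto_apply_left hc ⟨x, hx⟩)
  have hq2 : ∀ x ∈ B ⊔ B₂, q x = 0 := by
    intro x hx
    change A₀.subtype (Submodule.projectionOnto A₀ (B ⊔ B₂) hc x) = 0
    rw [Submodule.projectionOnto_apply_of_mem_right hc hx]
    rfl
  have hq3 : ∀ x, q x ∈ A₀ := fun x => (Submodule.projectionOnto A₀ (B ⊔ B₂) hc x).2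
  obtain ⟨c, hcq⟩ := hsc N hNf q (fun g hg x => by
    obtain ⟨a, ha, b, hb, rfl⟩ := Submodule.mem_sup.1
      (show x ∈ A₀ ⊔ (B ⊔ B₂) by rw [hc.sup_eq_top]; trivial)
    have h1 : r g b ∈ B ⊔ B₂ := by
      obtain ⟨b₁, hb₁, b₂, hb₂, rfl⟩ := Submodule.mem_sup.1 hb
      rw [map_add]
      exact Submodule.add_mem_sup (hB1 g hg b₁ hb₁) (hB₂ g b₂ hb₂)
    rw [map_add, map_add, map_add, hq1 a ha, hq2 b hb, hq1 _ (h02 g hg a ha), hq2 _ h1, map_add,
      map_zero]) fun x => hA₀L (hq3 x)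
  obtain ⟨x, hx, hx0⟩ := Submodule.exists_mem_ne_zero_of_ne_bot h01
  have hc1 : c = 1 := by
    have h1 := hcq x (hA₀L hx)
    rw [hq1 x hx] at h1
    have h2 : (c - 1) • x = 0 := by rw [sub_smul, one_smul, ← h1, sub_self]
    exact sub_eq_zero.1 ((smul_eq_zero.1 h2).resolve_right hx0)
  have hB0 : B = ⊥ := by
    rw [eq_bot_iff]
    intro b hb
    have h1 := hcq b (hB2 hb)
    rw [hq2 b (Submodule.mem_sup_left hb), hc1, one_smul] at h1
    exact (Submodule.mem_bot K).2 h1.symm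
  rw [hB0, sup_bot_eq] at hsup
  exact le_antisymm hle (by rw [← hsup]; exact h03)

end

end Pool.Agent.U233.PW
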