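import Mathlib.Algebra.Lie.Sl2
import Mathlib.LinearAlgebra.Eigenspace.Minpoly
import Pool.Agent.U233.PW.Hyp

/-!
# Weights of representations of the orthogonal and symplectic Lie algebras
-/

set_option autoImplicit false
set_option linter.unusedSectionVars false

namespace Pool.Agent.U233.PW

open Module Pool.Agent.U233.TF

noncomputable section

attribute [local instance 100] LieRing.ofAssociativeRing

variable {K : Type} [Field K] [CharZero K] {U : Type} [AddCommGroup U] [Module K U]
  [FiniteDimensional K U]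

/-- **Representations of `sl₂`.** -/
theorem sl2_int {X Y H : Module.End K U} (hXY : X * Y - Y * X = H)
    (hHX : H * X - X * H = (2 : K) • X) (hHY : H * Y - Y * H = -((2 : K) • Y)) {u : U}
    (hu : u ≠ 0) {c : K} (hc : H u = c • u) :
    ∃ m : ℤ, c = m ∧ (0 < m → Y u ≠ 0) := by
  by_cases hH : H = 0
  · refine ⟨0, ?_, fun h => absurd h (lt_irrefl _)⟩
    rw [hH, LinearMap.zero_apply] at hc
    rw [(smul_eq_zero.1 hc.symm).resolve_right hu, Int.cast_zero]
  have ht : IsSl2Triple H X Y :=
    ⟨hH, hXY, by rw [← Nat.cast_smul_eq_nsmul K]; exact hHX,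
      by rw [← Nat.cast_smul_eq_nsmul K]; exact hHY⟩
  -- the weights of the powers
  have hpow : ∀ k : ℕ, H ((X ^ k) u) = (c + 2 * k) • (X ^ k) u := by
    intro k
    induction k with
    | zero => simpa using hc
    | succ k ih =>
      have h1 := LinearMap.congr_fun hHX ((X ^ k) u)
      rw [LinearMap.sub_apply, Module.End.mul_apply, Module.End.mul_apply, ih, map_smul,
        LinearMap.smul_apply] at h1
      rw [pow_succ', Module.End.mul_apply, eq_add_of_sub_eq h1]
      push_cast
      module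
  obtain ⟨k, hk⟩ : ∃ k : ℕ, (X ^ k) u = 0 := by
    by_contra hall
    push Not at hall
    have h1 : ∀ k : ℕ, H.HasEigenvalue (c + 2 * k) := fun k =>
      Module.End.hasEigenvalue_of_hasEigenvector (x := (X ^ k) u)
        ⟨Module.End.mem_eigenspace_iff.2 (hpow k), hall k⟩
    refine Set.infinite_of_injective_forall_mem (f := fun k : ℕ => c + 2 * (k : K))
      (fun a b hab => ?_) h1 (Module.End.finite_hasEigenvalue H)
    have h2 : (2 : K) * a = 2 * b := add_left_cancel hab
    exact_mod_cast mul_left_cancel₀ two_ne_zero h2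
  classical
  have hk0 : Nat.find (⟨k, hk⟩ : ∃ k : ℕ, (X ^ k) u = 0) ≠ 0 := by
    intro h0
    have h1 := Nat.find_spec (⟨k, hk⟩ : ∃ k : ℕ, (X ^ k) u = 0)
    rw [h0] at h1
    exact hu h1
  obtain ⟨l, hl⟩ := Nat.exists_eq_succ_of_ne_zero hk0
  have hl1 : (X ^ (l + 1)) u = 0 := by
    have h1 := Nat.find_spec (⟨k, hk⟩ : ∃ k : ℕ, (X ^ k) u = 0)
    rwa [hl] at h1
  have hl0 : (X ^ l) u ≠ 0 := Nat.find_min (⟨k, hk⟩ : ∃ k : ℕ, (X ^ k) u = 0) (by omega)
  obtain ⟨n, hn⟩ := IsSl2Triple.HasPrimitiveVectorWith.exists_nat (R := K) (t := ht)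
    (m := (X ^ l) u) (μ := c + 2 * l) ⟨hl0, hpow l, by
      change X ((X ^ l) u) = 0
      rw [← Module.End.mul_apply, ← pow_succ']
      exact hl1⟩
  refine ⟨n - 2 * l, ?_, fun hpos hY => ?_⟩
  · push_cast
    rw [← hn]
    ring
  · obtain ⟨m, hm⟩ := IsSl2Triple.HasPrimitiveVectorWith.exists_nat (R := K) (t := ht.symm)
      (m := u) (μ := -c) ⟨hu, by
        change (-H) u = -c • u
        rw [LinearMap.neg_apply, hc, neg_smul], hY⟩
    have h2 : ((n : ℤ) - 2 * l : ℤ) = -(m : ℤ) := by
      have h3 : (n : K) - 2 * l = -m := by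
        rw [← hm, ← hn]
        ring
      exact_mod_cast h3
    omega

/-- **Commuting operators have common eigenvectors.** -/
theorem exists_common [IsAlgClosed K] {ι : Type} (H : ι → Module.End K U)
    (hH : ∀ i j, H i * H j = H j * H i) (s : Finset ι) : ∀ (A : Submodule K U), A ≠ ⊥ →
      (∀ i, ∀ x ∈ A, H i x ∈ A) → ∃ u ∈ A, u ≠ 0 ∧ ∃ c : ι → K, ∀ i ∈ s, H i u = c i • u := by
  classical
  induction s using Finset.induction_on with
  | empty =>
    intro A hA _
    obtain ⟨u, hu, hu0⟩ := Submodule.exists_mem_ne_zero_of_ne_bot hA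
    exact ⟨u, hu, hu0, 0, fun i hi => absurd hi (Finset.notMem_empty i)⟩
  | insert a s ha ih =>
    intro A hA hst
    have hn : Nontrivial A := Submodule.nontrivial_iff_ne_bot.2 hA
    obtain ⟨μ, hμ⟩ := Module.End.exists_eigenvalue ((H a).restrict (hst a))
    obtain ⟨v, hv⟩ := hμ.exists_hasEigenvector
    have hv1 : H a (v : U) = μ • (v : U) := congrArg Subtype.val (Module.End.mem_eigenspace_iff.1 hv.1)
    obtain ⟨u, hu, hu0, c, hc⟩ := ih (A ⊓ (H a).eigenspace μ) (fun h0 => by
      have h1 : (v : U) ∈ A ⊓ (H a).eigenspace μ := ⟨v.2, Module.End.mem_eigenspace_iff.2 hv1⟩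
      rw [h0, Submodule.mem_bot] at h1
      exact hv.2 (Subtype.ext h1)) (fun i x hx => ⟨hst i x hx.1, Module.End.mem_eigenspace_iff.2 (by
        have h1 := Module.End.mem_eigenspace_iff.1 hx.2
        rw [← Module.End.mul_apply, hH, Module.End.mul_apply, h1, map_smul])⟩)
    refine ⟨u, hu.1, hu0, Function.update c a μ, fun i hi => ?_⟩
    by_cases hia : i = a
    · subst hia
      rw [Function.update_self]
      exact Module.End.mem_eigenspace_iff.1 hu.2
    · rw [Function.update_of_ne hia]
      exact hc i ((Finset.mem_insert.1 hi).resolve_left hia)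

/-- the sign -/
def sg (s : Bool) : ℤ := if s then 1 else -1

theorem sg_not (s : Bool) : sg (!s) = -sg s := by cases s <;> rfl

theorem sg_mul (s : Bool) : sg s * sg s = 1 := by cases s <;> rfl

section wts

variable {V : Type} [AddCommGroup V] [Module K V] {ψ : V →ₗ[K] V →ₗ[K] K} {E : K}
  {Φ : Module.End K V →ₗ[K] Module.End K U} {n : ℕ} {e f : Fin n → V}

/-- the members of the hyperbolic family -/
def bs (e f : Fin n → V) (s : Bool) (i : Fin n) : V := if s then e i else f i

/-- the elements of the Cartan subalgebra -/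
def hL (ψ : V →ₗ[K] V →ₗ[K] K) (E : K) (e f : Fin n → V) (i : Fin n) : Module.End K V :=
  -SZ ψ E (e i) (f i)

/-- the delta function -/
def dl (i j : Fin n) : ℤ := if i = j then 1 else 0

variable (hE : E * E = 1) (hs : ∀ x y, ψ x y = E * ψ y x) (h : Hyp ψ e f)

include h

theorem bs_orth {i j : Fin n} (hij : i ≠ j) (hs : ∀ x y, ψ x y = E * ψ y x) (s t : Bool) :
    ψ (bs e f s i) (bs e f t j) = 0 := by
  cases s <;> cases t <;> simp only [bs, if_true, if_false, Bool.false_eq_true]
  · exact h.ff i j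
  · rw [hs, h.zero j i hij.symm, mul_zero]
  · exact h.zero i j hij
  · exact h.ee i j

theorem bs_self (i : Fin n) (s : Bool) : ψ (bs e f s i) (bs e f s i) = 0 := by
  cases s <;> simp only [bs, if_true, if_false, Bool.false_eq_true]
  · exact h.ff i i
  · exact h.ee i i

include hs in
theorem bs_pair (i : Fin n) (s : Bool) :
    ψ (bs e f s i) (bs e f (!s) i) = if s then 1 else E := by
  cases s <;> simp only [bs, if_true, if_false, Bool.false_eq_true, Bool.not_true, Bool.not_false]
  · rw [hs, h.one, mul_one]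
  · exact h.one i

include hE hs in
theorem hL_bs (l i : Fin n) (s : Bool) :
    hL ψ E e f l (bs e f s i) = (sg s * dl l i : ℤ) • bs e f s i := by
  rw [hL, LinearMap.neg_apply, SZ_apply]
  by_cases hli : l = i
  · subst hli
    cases s <;> simp only [bs, sg, dl, if_true, if_false, Bool.false_eq_true]
    · rw [h.ff, h.one]
      simp
    · rw [h.ee, hs (f l), h.one]
      simp only [zero_smul, mul_one, zero_sub, neg_neg, one_smul]
      rw [smul_smul, hE, one_smul]
  · have h1 : ψ (e l) (bs e f s i) = 0 := bs_orth h (s := true) hli hs s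
    have h2 : ψ (f l) (bs e f s i) = 0 := bs_orth h (s := false) hli hs s
    rw [h1, h2, dl, if_neg hli]
    simp

include hE hs in
theorem hL_mem (i : Fin n) : hL ψ E e f i ∈ skew ψ := Submodule.neg_mem _ (SZ_mem hE hs _ _)

include hE hs in
/-- the weights of the root operators -/
theorem hL_root (l i j : Fin n) (s t : Bool) :
    hL ψ E e f l * SZ ψ E (bs e f s i) (bs e f t j) -
      SZ ψ E (bs e f s i) (bs e f t j) * hL ψ E e f l =
      ((sg s * dl l i + sg t * dl l j : ℤ) : K) • SZ ψ E (bs e f s i) (bs e f t j) := by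
  rw [br_SZ (hL_mem hE hs h l), hL_bs hE hs h, hL_bs hE hs h, map_zsmul, map_zsmul,
    LinearMap.smul_apply, Int.cast_smul_eq_zsmul, add_smul]

include hE hs in
theorem hL_comm (l i : Fin n) : hL ψ E e f l * hL ψ E e f i - hL ψ E e f i * hL ψ E e f l = 0 := by
  have h1 := hL_root hE hs h l i i true false
  have h2 : SZ ψ E (bs e f true i) (bs e f false i) = -hL ψ E e f i := by
    rw [hL, neg_neg]
    rfl
  rw [h2] at h1
  have h3 : (sg true * dl l i + sg false * dl l i : ℤ) = 0 := by simp [sg]
  rw [h3, Int.cast_zero, zero_smul] at h1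
  have h4 : hL ψ E e f l * hL ψ E e f i - hL ψ E e f i * hL ψ E e f l =
      -(hL ψ E e f l * -hL ψ E e f i - -hL ψ E e f i * hL ψ E e f l) := by
    rw [mul_neg, neg_mul]
    abel
  rw [h4, h1, neg_zero]

include hE hs in
/-- the coroots -/
theorem root_root {i j : Fin n} (hij : i ≠ j) (s t : Bool) :
    SZ ψ E (bs e f s i) (bs e f t j) * SZ ψ E (bs e f (!s) i) (bs e f (!t) j) -
      SZ ψ E (bs e f (!s) i) (bs e f (!t) j) * SZ ψ E (bs e f s i) (bs e f t j) =
      (-((if s then 1 else E) * (if t then 1 else E)) : K) •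
        (((sg s : ℤ) : K) • hL ψ E e f i + ((sg t : ℤ) : K) • hL ψ E e f j) := by
  have hX := SZ_mem hE hs (bs e f s i) (bs e f t j)
  rw [br_SZ hX, SZ_apply, SZ_apply, bs_pair hs h, bs_orth h hij hs s (!t), bs_orth h hij.symm hs t,
    bs_pair hs h]
  have hSZ : ∀ x y, SZ ψ E y x = -E • SZ ψ E x y := by
    intro x y
    refine LinearMap.ext fun v => ?_
    rw [SZ_apply, LinearMap.smul_apply, SZ_apply, smul_sub, smul_smul, smul_smul, smul_smul]
    simp only [neg_mul, hE]
    module
  cases s <;> cases t <;> simp only [bs, sg, hL, if_true, if_false, Bool.false_eq_true,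
    Bool.not_true, Bool.not_false, zero_smul, smul_zero, sub_zero, zero_sub, one_smul, map_smul,
    map_neg, LinearMap.smul_apply, LinearMap.neg_apply, Int.cast_one, Int.cast_neg, neg_smul,
    neg_neg, hSZ (e i) (f i), hSZ (e j) (f j), smul_neg, smul_add, smul_smul, mul_one, one_mul, hE]
  · abel
  · abel
  · abel
  · abel

end wts

end

end Pool.Agent.U233.PW
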