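import Pool.Agent.U233.PW.Sl2

/-!
# The weights and the moves
-/

set_option autoImplicit false
set_option linter.unusedSectionVars false

namespace Pool.Agent.U233.PW

open Module Pool.Agent.U233.TF

noncomputable section

variable {K : Type} [Field K] [CharZero K] {U : Type} [AddCommGroup U] [Module K U]
  [FiniteDimensional K U]
  {V : Type} [AddCommGroup V] [Module K V] {ψ : V →ₗ[K] V →ₗ[K] K} {E : K}
  {Φ : Module.End K V →ₗ[K] Module.End K U} {n : ℕ} {e f : Fin n → V}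

/-- the operators on `U` -/
def hU (ψ : V →ₗ[K] V →ₗ[K] K) (E : K) (e f : Fin n → V)
    (Φ : Module.End K V →ₗ[K] Module.End K U) (i : Fin n) : Module.End K U := Φ (hL ψ E e f i)

variable (hE : E * E = 1) (hs : ∀ x y, ψ x y = E * ψ y x) (h : Hyp ψ e f)
  (hΦ : ∀ X ∈ skew ψ, ∀ Y ∈ skew ψ, Φ (X * Y - Y * X) = Φ X * Φ Y - Φ Y * Φ X)

include hE hs h hΦ

theorem hU_root (l i j : Fin n) (s t : Bool) :
    hU ψ E e f Φ l * Φ (SZ ψ E (bs e f s i) (bs e f t j)) -
      Φ (SZ ψ E (bs e f s i) (bs e f t j)) * hU ψ E e f Φ l =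
      ((sg s * dl l i + sg t * dl l j : ℤ) : K) • Φ (SZ ψ E (bs e f s i) (bs e f t j)) := by
  rw [hU, ← hΦ _ (hL_mem hE hs h l) _ (SZ_mem hE hs _ _), hL_root hE hs h, map_smul]

theorem hU_comm (l i : Fin n) : hU ψ E e f Φ l * hU ψ E e f Φ i = hU ψ E e f Φ i * hU ψ E e f Φ l := by
  rw [← sub_eq_zero, hU, hU, ← hΦ _ (hL_mem hE hs h l) _ (hL_mem hE hs h i), hL_comm hE hs h,
    map_zero]

/-- **The moves.** -/
theorem move {i j : Fin n} (hij : i ≠ j) (s t : Bool) {u : U} (hu : u ≠ 0) {c : Fin n → K}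
    (hc : ∀ l, hU ψ E e f Φ l u = c l • u) :
    ∃ m : ℤ, ((sg s : ℤ) : K) * c i + ((sg t : ℤ) : K) * c j = m ∧
      (0 < m → ∃ u' : U, u' ≠ 0 ∧ ∀ l, hU ψ E e f Φ l u' =
        (c l - ((sg s * dl l i + sg t * dl l j : ℤ) : K)) • u') := by
  set κ : K := -((if s then 1 else E) * (if t then 1 else E)) with hκ
  have hκ2 : κ * κ = 1 := by
    rw [hκ]
    cases s <;> cases t <;> simp only [if_true, if_false, Bool.false_eq_true, mul_one, one_mul,
      neg_mul_neg, hE]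
  obtain ⟨X', hX'⟩ : ∃ X', X' = Φ (SZ ψ E (bs e f s i) (bs e f t j)) := ⟨_, rfl⟩
  obtain ⟨Y', hY'⟩ : ∃ Y', Y' = κ • Φ (SZ ψ E (bs e f (!s) i) (bs e f (!t) j)) := ⟨_, rfl⟩
  obtain ⟨H', hH'⟩ : ∃ H', H' = ((sg s : ℤ) : K) • hU ψ E e f Φ i +
    ((sg t : ℤ) : K) • hU ψ E e f Φ j := ⟨_, rfl⟩
  have hXY : X' * Y' - Y' * X' = H' := by
    rw [hX', hY', mul_smul_comm, smul_mul_assoc, ← smul_sub,
      ← hΦ _ (SZ_mem hE hs _ _) _ (SZ_mem hE hs _ _), root_root hE hs h hij, ← hκ, map_smul,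
      smul_smul, hκ2, one_smul, map_add, map_smul, map_smul, hH']
    rfl
  have hlX : ∀ l, hU ψ E e f Φ l * X' - X' * hU ψ E e f Φ l =
      ((sg s * dl l i + sg t * dl l j : ℤ) : K) • X' := fun l => by
    rw [hX']
    exact hU_root hE hs h hΦ l i j s t
  have hlY : ∀ l, hU ψ E e f Φ l * Y' - Y' * hU ψ E e f Φ l =
      -(((sg s * dl l i + sg t * dl l j : ℤ) : K) • Y') := by
    intro l
    have h1 := hU_root hE hs h hΦ l i j (!s) (!t)
    rw [sg_not, sg_not] at h1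
    rw [hY', mul_smul_comm, smul_mul_assoc, ← smul_sub, h1]
    push_cast
    module
  have hii : (sg s * dl i i + sg t * dl i j : ℤ) = sg s := by
    rw [dl, if_pos rfl, dl, if_neg hij]
    ring
  have hjj : (sg s * dl j i + sg t * dl j j : ℤ) = sg t := by
    rw [dl, if_neg hij.symm, dl, if_pos rfl]
    ring
  have hss : ((sg s : ℤ) : K) * ((sg s : ℤ) : K) = 1 := by
    rw [← Int.cast_mul, sg_mul, Int.cast_one]
  have htt : ((sg t : ℤ) : K) * ((sg t : ℤ) : K) = 1 := by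
    rw [← Int.cast_mul, sg_mul, Int.cast_one]
  have hHX : H' * X' - X' * H' = (2 : K) • X' := by
    have h1 := hlX i
    have h2 := hlX j
    rw [hii] at h1
    rw [hjj] at h2
    have h3 : H' * X' - X' * H' = ((sg s : ℤ) : K) • (hU ψ E e f Φ i * X' - X' * hU ψ E e f Φ i) +
        ((sg t : ℤ) : K) • (hU ψ E e f Φ j * X' - X' * hU ψ E e f Φ j) := by
      rw [hH', add_mul, mul_add, smul_mul_assoc, smul_mul_assoc, mul_smul_comm, mul_smul_comm]
      module
    rw [h3, h1, h2, smul_smul, smul_smul, hss, htt]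
    module
  have hHY : H' * Y' - Y' * H' = -((2 : K) • Y') := by
    have h1 := hlY i
    have h2 := hlY j
    rw [hii] at h1
    rw [hjj] at h2
    have h3 : H' * Y' - Y' * H' = ((sg s : ℤ) : K) • (hU ψ E e f Φ i * Y' - Y' * hU ψ E e f Φ i) +
        ((sg t : ℤ) : K) • (hU ψ E e f Φ j * Y' - Y' * hU ψ E e f Φ j) := by
      rw [hH', add_mul, mul_add, smul_mul_assoc, smul_mul_assoc, mul_smul_comm, mul_smul_comm]
      module
    rw [h3, h1, h2, smul_neg, smul_neg, smul_smul, smul_smul, hss, htt]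
    module
  obtain ⟨m, hm, hpos⟩ := sl2_int hXY hHX hHY hu
    (c := ((sg s : ℤ) : K) * c i + ((sg t : ℤ) : K) * c j) (by
      rw [hH', LinearMap.add_apply, LinearMap.smul_apply, LinearMap.smul_apply, hc, hc]
      module)
  refine ⟨m, hm, fun hm0 => ⟨Y' u, hpos hm0, fun l => ?_⟩⟩
  have h1 := LinearMap.congr_fun (hlY l) u
  rw [LinearMap.sub_apply, Module.End.mul_apply, Module.End.mul_apply, hc, map_smul,
    LinearMap.neg_apply, LinearMap.smul_apply] at h1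
  rw [eq_add_of_sub_eq h1]
  module

/-- the doubled weight `w` occurs -/
def WtU (H : Fin n → Module.End K U) (w : Fin n → ℤ) : Prop :=
  ∃ u : U, u ≠ 0 ∧ ∀ l, H l u = ((w l : K) / 2) • u

theorem wtU_par {w : Fin n → ℤ} (hw : WtU (hU ψ E e f Φ) w) {i j : Fin n} (hij : i ≠ j) :
    Even (w i + w j) := by
  obtain ⟨u, hu, hc⟩ := hw
  obtain ⟨m, hm, -⟩ := move hE hs h hΦ hij true true hu hc
  refine ⟨m, ?_⟩
  have h1 : ((w i + w j : ℤ) : K) = ((m + m : ℤ) : K) := by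
    push_cast
    rw [← hm]
    simp only [sg, if_true, Int.cast_one]
    ring
  exact_mod_cast h1

theorem wtU_move {w : Fin n → ℤ} (hw : WtU (hU ψ E e f Φ) w) {i j : Fin n} (hij : i ≠ j)
    (s t : Bool) (hpos : 0 < sg s * w i + sg t * w j) :
    WtU (hU ψ E e f Φ) fun l => w l - 2 * (sg s * dl l i + sg t * dl l j) := by
  obtain ⟨u, hu, hc⟩ := hw
  obtain ⟨m, hm, hm'⟩ := move hE hs h hΦ hij s t hu hc
  have h1 : ((sg s * w i + sg t * w j : ℤ) : K) = ((2 * m : ℤ) : K) := by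
    push_cast
    rw [← hm]
    ring
  have h2 : sg s * w i + sg t * w j = 2 * m := by exact_mod_cast h1
  obtain ⟨u', hu', hc'⟩ := hm' (by omega)
  refine ⟨u', hu', fun l => ?_⟩
  rw [hc']
  congr 1
  push_cast
  ring

theorem exists_wtU {i j : Fin n} (hij : i ≠ j) {u : U} (hu : u ≠ 0) {c : Fin n → K}
    (hc : ∀ l, hU ψ E e f Φ l u = c l • u) : ∃ w : Fin n → ℤ, (∀ l, c l = (w l : K) / 2) ∧
      WtU (hU ψ E e f Φ) w := by
  have key : ∀ l, ∃ m : ℤ, c l = (m : K) / 2 := by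
    intro l
    obtain ⟨l', hl'⟩ : ∃ l', l ≠ l' := by
      by_cases hl : l = i
      · exact ⟨j, hl ▸ hij⟩
      · exact ⟨i, hl⟩
    obtain ⟨m, hm, -⟩ := move hE hs h hΦ hl' true true hu hc
    obtain ⟨m', hm', -⟩ := move hE hs h hΦ hl' true false hu hc
    refine ⟨m + m', ?_⟩
    push_cast
    rw [← hm, ← hm']
    simp only [sg, if_true, if_false, Bool.false_eq_true, Int.cast_one, Int.cast_neg]
    ring
  choose w hw using key
  exact ⟨w, hw, u, hu, fun l => by rw [hc, hw]⟩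

end

end Pool.Agent.U233.PW
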